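import Mathlib
import Pool.Agent.TH881.RG.Eq

/-! Representations as a sum of two primes are equidistributed in the possible residue classes,
for almost all numbers (from the bilinear estimate). -/

set_option autoImplicit false

namespace Pool.Agent.TH364.J1815

open Finset Filter Topology
open Pool.Agent.TH881
open Pool.Agent.TH881.RG
open Pool.Agent.H373R2.T7

section crt

lemma fst_crt {m n : ℕ} (hc : Nat.Coprime m n) (x : ZMod (m * n)) :
    ((ZMod.chineseRemainder hc) x).1 = ZMod.castHom (dvd_mul_right m n) (ZMod m) x := by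
  have h : (RingHom.fst (ZMod m) (ZMod n)).comp ((ZMod.chineseRemainder hc : ZMod (m * n) ≃+* ZMod m × ZMod n) :
      ZMod (m * n) →+* ZMod m × ZMod n) = ZMod.castHom (dvd_mul_right m n) (ZMod m) := RingHom.ext_zmod _ _
  have := congrArg (fun f : ZMod (m * n) →+* ZMod m => f x) h
  simpa using this

lemma isUnit_crt {m n : ℕ} (hc : Nat.Coprime m n) (x : ZMod (m * n)) :
    IsUnit x ↔ IsUnit ((ZMod.chineseRemainder hc) x).1 ∧ IsUnit ((ZMod.chineseRemainder hc) x).2 := by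
  rw [← Prod.isUnit_iff]
  exact (MulEquiv.isUnit_map (ZMod.chineseRemainder hc)).symm

open Classical in
lemma card_aux {m n : ℕ} [NeZero (m * n)] [NeZero n] (hc : Nat.Coprime m n) (a : ZMod m) (ha : IsUnit a)
    (t : ZMod (m * n)) (hta : IsUnit (((ZMod.chineseRemainder hc) t).1 - a)) :
    (univ.filter (fun x : ZMod (m * n) => (IsUnit x ∧ ((ZMod.chineseRemainder hc) x).1 = a) ∧ IsUnit (t - x))).card =
      (univ.filter (fun z : ZMod n => IsUnit z ∧ IsUnit (((ZMod.chineseRemainder hc) t).2 - z))).card := by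
  apply card_nbij' (fun x => ((ZMod.chineseRemainder hc) x).2) (fun z => (ZMod.chineseRemainder hc).symm (a, z))
  · intro x hx
    rw [mem_coe, mem_filter] at hx
    rw [mem_coe, mem_filter]
    obtain ⟨_, ⟨h1, h2⟩, h3⟩ := hx
    rw [isUnit_crt hc] at h1 h3
    rw [map_sub] at h3
    exact ⟨mem_univ _, h1.2, h3.2⟩
  · intro z hz
    rw [mem_coe, mem_filter] at hz
    rw [mem_coe, mem_filter]
    refine ⟨mem_univ _, ⟨?_, ?_⟩, ?_⟩
    · rw [isUnit_crt hc, RingEquiv.apply_symm_apply]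
      exact ⟨ha, hz.2.1⟩
    · rw [RingEquiv.apply_symm_apply]
    · rw [isUnit_crt hc, map_sub, RingEquiv.apply_symm_apply]
      exact ⟨hta, hz.2.2⟩
  · intro x hx
    rw [mem_coe, mem_filter] at hx
    obtain ⟨_, ⟨h1, h2⟩, h3⟩ := hx
    simp only
    rw [← h2, Prod.mk.eta, RingEquiv.symm_apply_apply]
  · intro z hz
    simp only
    rw [RingEquiv.apply_symm_apply]

open Classical in
lemma card_indep {W m : ℕ} [NeZero W] (n : ℕ) (hW : W = m * n) (hc : Nat.Coprime m n) (hd : m ∣ W)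
    (a0 a b : ZMod m) (ha : IsUnit a) (hb : IsUnit b) (ha' : IsUnit (a0 - a)) (hb' : IsUnit (a0 - b))
    (t : ZMod W) (ht : ZMod.castHom hd (ZMod m) t = a0) :
    (univ.filter (fun x : ZMod W => (IsUnit x ∧ ZMod.castHom hd (ZMod m) x = a) ∧ IsUnit (t - x))).card =
    (univ.filter (fun x : ZMod W => (IsUnit x ∧ ZMod.castHom hd (ZMod m) x = b) ∧ IsUnit (t - x))).card := by
  subst hW
  have hn : NeZero n := ⟨fun h => NeZero.ne (m * n) (by rw [h, mul_zero])⟩
  have h1 : ((ZMod.chineseRemainder hc) t).1 = a0 := by rw [fst_crt]; exact ht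
  have e1 := card_aux hc a ha t (by rw [h1]; exact ha')
  have e2 := card_aux hc b hb t (by rw [h1]; exact hb')
  simp only [fst_crt] at e1 e2
  rw [e1, e2]

end crt

/-! ### the classes modulo `Wp y` inside the classes modulo `Wp w` -/

lemma Wp_dvd {y w : ℕ} (h : y ≤ w) : Wp y ∣ Wp w := by
  unfold Wp
  apply prod_dvd_prod_of_subset
  intro p hp
  rw [mem_pz] at hp ⊢
  exact ⟨hp.1.trans h, hp.2⟩

lemma Wp_split {y w : ℕ} (h : y ≤ w) : ∃ n : ℕ, Wp w = Wp y * n ∧ Nat.Coprime (Wp y) n := by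
  classical
  refine ⟨∏ p ∈ pz w \ pz y, p, ?_, ?_⟩
  · unfold Wp
    have hs : pz y ⊆ pz w := by
      intro p hp
      rw [mem_pz] at hp ⊢
      exact ⟨hp.1.trans h, hp.2⟩
    rw [mul_comm]
    exact (prod_sdiff hs).symm
  · unfold Wp
    apply Nat.Coprime.prod_left
    intro p hp
    apply Nat.Coprime.prod_right
    intro q hq
    rw [Finset.mem_sdiff] at hq
    rw [mem_pz] at hp
    have hq2 := (mem_pz.1 hq.1).2
    exact (Nat.coprime_primes hp.2 hq2).2 (fun hpq => hq.2 (by rw [← hpq, mem_pz]; exact hp))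

/-- the natural map -/
noncomputable def red {y w : ℕ} (h : y ≤ w) : ZMod (Wp w) →+* ZMod (Wp y) := ZMod.castHom (Wp_dvd h) _

lemma red_nat {y w : ℕ} (h : y ≤ w) (n : ℕ) : red h (n : ZMod (Wp w)) = (n : ZMod (Wp y)) := by
  rw [map_natCast]

open Classical in
/-- the sum of `rr` over the units in the class `a` -/
noncomputable def TA {y w : ℕ} (h : y ≤ w) (e : ZMod (Wp w) → ℝ) (a : ZMod (Wp y)) : ℝ :=
  ∑ x ∈ (UU w).filter (fun x => red h x = a), rr w e x

open Classical in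
lemma TA_eq {y w : ℕ} (h : y ≤ w) (e : ZMod (Wp w) → ℝ) (a : ZMod (Wp y)) :
    TA h e a = ∑ t, e t * ((univ.filter (fun x : ZMod (Wp w) => (IsUnit x ∧ red h x = a) ∧ IsUnit (t - x))).card : ℝ) := by
  unfold TA rr
  rw [sum_comm]
  apply sum_congr rfl
  intro t _
  rw [← sum_filter, sum_const, nsmul_eq_mul, mul_comm]
  congr 2
  apply congrArg
  ext x
  simp [mem_UU]

lemma TA_indep {y w : ℕ} (h : y ≤ w) (e : ZMod (Wp w) → ℝ) (a0 a b : ZMod (Wp y)) (ha : IsUnit a) (hb : IsUnit b)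
    (ha' : IsUnit (a0 - a)) (hb' : IsUnit (a0 - b)) (he : ∀ t, red h t ≠ a0 → e t = 0) : TA h e a = TA h e b := by
  classical
  rw [TA_eq, TA_eq]
  apply sum_congr rfl
  intro t _
  by_cases ht : red h t = a0
  · obtain ⟨n, hn, hc⟩ := Wp_split h
    have := card_indep n hn hc (Wp_dvd h) a0 a b ha hb ha' hb' t ht
    congr 1
    exact_mod_cast this
  · rw [he t ht, zero_mul, zero_mul]

lemma rr_le {w : ℕ} {e : ZMod (Wp w) → ℝ} (he1 : ∀ t, e t ≤ 1) (a : ZMod (Wp w)) :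
    rr w e a ≤ Nat.totient (Wp w) := by
  classical
  rw [← card_UU]
  have h1 : rr w e a ≤ ∑ t : ZMod (Wp w), if IsUnit (t - a) then (1 : ℝ) else 0 := by
    unfold rr
    apply sum_le_sum
    intro t _
    split_ifs
    · exact he1 t
    · exact le_rfl
  refine h1.trans ?_
  rw [← sum_filter, sum_const, nsmul_eq_mul, mul_one]
  have h2 : (univ.filter (fun t : ZMod (Wp w) => IsUnit (t - a))).card ≤ (UU w).card := by
    apply card_le_card_of_injOn (fun t => t - a)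
    · intro t ht
      rw [mem_coe, mem_filter] at ht
      rw [mem_coe, mem_UU]
      exact ht.2
    · intro t _ t' _ htt
      exact sub_left_injective htt
  exact_mod_cast h2

lemma TA_nonneg {y w : ℕ} (h : y ≤ w) {e : ZMod (Wp w) → ℝ} (he0 : ∀ t, 0 ≤ e t) (a : ZMod (Wp y)) :
    0 ≤ TA h e a := by
  unfold TA
  exact sum_nonneg fun x _ => rr_nonneg he0 x

lemma TA_le {y w : ℕ} (h : y ≤ w) {e : ZMod (Wp w) → ℝ} (he0 : ∀ t, 0 ≤ e t) (he1 : ∀ t, e t ≤ 1)
    (a : ZMod (Wp y)) : TA h e a ≤ (Nat.totient (Wp w) : ℝ) ^ 2 := by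
  classical
  unfold TA
  calc ∑ x ∈ (UU w).filter (fun x => red h x = a), rr w e x ≤ ∑ x ∈ UU w, rr w e x :=
        sum_le_sum_of_subset_of_nonneg (filter_subset _ _) fun x _ _ => rr_nonneg he0 x
    _ ≤ ∑ x ∈ UU w, (Nat.totient (Wp w) : ℝ) := sum_le_sum fun x _ => rr_le he1 x
    _ = _ := by
        rw [sum_const, nsmul_eq_mul, card_UU]
        ring

/-! ### the primes in the class `a` -/

/-- the complement of the class `a` -/
def notc (y : ℕ) (a : ZMod (Wp y)) : Set ℕ := {p | (p : ZMod (Wp y)) ≠ a}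

lemma mem_P {y : ℕ} {a : ZMod (Wp y)} {N M p : ℕ} :
    p ∈ BN (notc y a) N M ↔ p ∈ PN N M ∧ (p : ZMod (Wp y)) = a := by
  rw [mem_BN]
  unfold notc
  simp only [Set.mem_ofPred_eq, not_not]

lemma bad_eq (y : ℕ) (a : ZMod (Wp y)) (n : ℕ) : bad (notc y a) n = rcl y a n := by
  classical
  unfold bad badS rcl
  congr 1
  ext q
  rw [mem_filter, mem_filter]
  unfold notc
  simp only [Set.mem_ofPred_eq, not_not]
  tauto

open Classical in
lemma rcl_ge (y : ℕ) (b0 : ZMod (Wp y)) (N M n : ℕ) (hN : 1 ≤ N) (hn : n ≤ N) :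
    cv (fun k => ArithmeticFunction.vonMangoldt k) (BN (notc y b0) N M) n ≤
      Real.log N * rcl y b0 n + 2 * √(N : ℝ) * Real.log N := by
  rw [cv_split _ _ _ (fun b => (n - b).Prime)]
  apply add_le_add
  · have h1 : ∀ b ∈ ((BN (notc y b0) N M).filter (fun b => (n - b).Prime)).filter (· < n),
        (fun k => ArithmeticFunction.vonMangoldt k) (n - b) ≤ Real.log N := by
      intro b hb
      rw [mem_filter, mem_filter] at hb
      simp only
      rw [ArithmeticFunction.vonMangoldt_apply_prime hb.1.2]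
      apply Real.log_le_log
      · exact_mod_cast hb.1.2.pos
      · have : n - b ≤ N := by omega
        exact_mod_cast this
    unfold cv
    refine (sum_le_sum h1).trans ?_
    rw [sum_const, nsmul_eq_mul, mul_comm]
    apply mul_le_mul_of_nonneg_left _ (Real.log_natCast_nonneg N)
    have h2 : (((BN (notc y b0) N M).filter (fun b => (n - b).Prime)).filter (· < n)).card ≤ rcl y b0 n := by
      unfold rcl
      apply card_le_card_of_injOn (fun b => (b, n - b))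
      · intro b hb
        rw [mem_coe, mem_filter, mem_filter, mem_P, mem_PN] at hb
        rw [mem_coe, mem_filter, HasAntidiagonal.mem_antidiagonal]
        refine ⟨by simp only; omega, hb.1.1.1.2.1, hb.1.2, hb.1.1.2⟩
      · intro b _ b' _ hbb
        simp only [Prod.mk.injEq] at hbb
        exact hbb.1
    exact_mod_cast h2
  · apply cv_not_hit _ N n hN hn
    rintro ⟨b, hb, p, hp, hbp⟩
    rw [mem_filter] at hb
    apply hb.2
    have : n - b = p := by omega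
    rw [this]
    exact hp

/-- the window inequality -/
lemma win_ineq (s ε1 ρ h ε : ℝ) (hs0 : 0 < s) (hs1 : s < 1) (hε1 : 0 < ε1)
    (hρ : 0 < ρ) (hε : 0 < ε) (hh : 0 < h) (y : ℕ) (a b : ZMod (Wp y)) :
    ∃ N0 : ℕ, ∀ N : ℕ, N0 ≤ N → ∀ M H : ℕ, M + H ≤ N → ρ * N ≤ H → ρ * N ≤ M →
    (H : ℝ) ≤ ε1 / 72 * M → ∀ E ⊆ Ioc M (M + H),
    (∀ n ∈ E, ε * ((n : ℝ) / Real.log n ^ 2) < (rcl y a n : ℝ) - rcl y b n) → h * H ≤ E.card →
    (1 - s) * ∑ n ∈ E, cv (fun k => ArithmeticFunction.vonMangoldt k) (BN (notc y b) N M) n +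
      (1 - s) * ε * (h / 2) * ((H : ℝ) * M / Real.log M) ≤
      ∑ n ∈ E, cv (fun k => ArithmeticFunction.vonMangoldt k) (BN (notc y a) N M) n +
        2 * ε1 * ((H : ℝ) * M / Real.log M) := by
  obtain ⟨N1, hN12, hN1⟩ := err_small s (ε1 * ρ) hs0 (by positivity)
  obtain ⟨H0, hH03, hH0⟩ := two_primes
  obtain ⟨N2, hN2⟩ := exists_nat_ge (H0 / ρ)
  obtain ⟨N3, hN3⟩ := exists_nat_ge (1 / ρ ^ 2)
  obtain ⟨N4, hN4⟩ := exists_nat_ge (2 / ρ)
  refine ⟨N1 + N2 + N3 + N4 + 3, ?_⟩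
  intro N hN M H hMH hH hM hHM E hE hEr hEcard
  have hNr : (3 : ℝ) ≤ N := by exact_mod_cast (by omega : 3 ≤ N)
  have hN0r : (0 : ℝ) < N := by linarith
  have hLN : 0 < Real.log N := Real.log_pos (by linarith)
  -- H is large
  have hHH0 : H0 ≤ H := by
    have h1 : (H0 : ℝ) ≤ H := by
      have h2 : (N2 : ℝ) ≤ N := by exact_mod_cast (by omega : N2 ≤ N)
      have h3 : (H0 : ℝ) / ρ ≤ N := hN2.trans h2
      rw [div_le_iff₀ hρ] at h3
      linarith
    exact_mod_cast h1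
  have hH3r : (3 : ℝ) ≤ H := by exact_mod_cast (hH03.trans hHH0)
  have hH0r : (0 : ℝ) < H := by linarith
  have hLH : 0 < Real.log H := Real.log_pos (by linarith)
  have hHN : H ≤ N := by omega
  have hM0 : (0 : ℝ) < M := lt_of_lt_of_le (by positivity) hM
  have hM2r : (2 : ℝ) ≤ M := by
    have h2 : (N4 : ℝ) ≤ N := by exact_mod_cast (by omega : N4 ≤ N)
    have h3 : (2 : ℝ) / ρ ≤ N := hN4.trans h2
    rw [div_le_iff₀ hρ] at h3
    linarith
  have hMN : M ≤ N := by omega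
  have hMNr : (M : ℝ) ≤ N := by exact_mod_cast hMN
  have hρ2 : 1 ≤ N * ρ ^ 2 := by
    have h2 : 1 / ρ ^ 2 ≤ N := hN3.trans (by exact_mod_cast (by omega : N3 ≤ N))
    rwa [div_le_iff₀ (by positivity)] at h2
  -- log H ≥ (1/2) log N
  have hlog2 : ∀ K : ℝ, ρ * N ≤ K → 0 < K → Real.log N ≤ 2 * Real.log K := by
    intro K hK hK0
    have h1 : (N : ℝ) ≤ K ^ 2 := by
      have h3 : (ρ * N) ^ 2 ≤ K ^ 2 := pow_le_pow_left₀ (by positivity) hK 2
      calc (N : ℝ) = N * 1 := by ring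
        _ ≤ N * (N * ρ ^ 2) := mul_le_mul_of_nonneg_left hρ2 hN0r.le
        _ = (ρ * N) ^ 2 := by ring
        _ ≤ _ := h3
    have h2 := Real.log_le_log hN0r h1
    rw [Real.log_pow] at h2
    exact_mod_cast h2
  have hLHN : Real.log N ≤ 2 * Real.log H := hlog2 H hH hH0r
  have hLMN2 : Real.log N ≤ 2 * Real.log M := hlog2 M hM hM0
  -- M > 1, log M
  have hLM0 : 0 < Real.log M := Real.log_pos (by linarith)
  have hLMN : Real.log M ≤ Real.log N := Real.log_le_log hM0 hMNr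
  -- pointwise
  have hpt : ∀ n ∈ E, (1 - s) * cv (fun k => ArithmeticFunction.vonMangoldt k) (BN (notc y b) N M) n +
      (1 - s) * ε * (M / (2 * Real.log M)) ≤
      cv (fun k => ArithmeticFunction.vonMangoldt k) (BN (notc y a) N M) n +
        ((4 * √(N : ℝ) * Real.log N + 2 * (N : ℝ) ^ (1 - s) * Real.log N) + Real.log N * TT M n) := by
    intro n hn
    have hn1 := mem_Ioc.1 (hE hn)
    have hnM : (M : ℝ) ≤ n := by exact_mod_cast hn1.1.le
    have hnN : (n : ℝ) ≤ N := by exact_mod_cast (by omega : n ≤ N)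
    have h1 := rcl_ge y b N M n (by omega) (by omega)
    have h2 := bad_le (notc y a) N M n s hs0 hs1 (by omega) hn1.1
    rw [bad_eq] at h2
    have h4 := hEr n hn
    have hn0 : (0 : ℝ) < n := by linarith
    have hLn : 0 < Real.log n := Real.log_pos (by linarith)
    have hLnN : Real.log n ≤ Real.log N := Real.log_le_log hn0 hnN
    have h5 : (M : ℝ) / (2 * Real.log M) ≤ Real.log N * ((n : ℝ) / Real.log n ^ 2) := by
      calc (M : ℝ) / (2 * Real.log M) ≤ M / Real.log N := div_le_div_of_nonneg_left hM0.le hLN hLMN2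
        _ ≤ n / Real.log N := div_le_div_of_nonneg_right hnM hLN.le
        _ = Real.log N * (n / Real.log N ^ 2) := by field_simp
        _ ≤ Real.log N * (n / Real.log n ^ 2) := by
            apply mul_le_mul_of_nonneg_left _ hLN.le
            apply div_le_div_of_nonneg_left hn0.le (by positivity)
            exact pow_le_pow_left₀ hLn.le hLnN 2
    have h6 : (1 - s) * (ε * (M / (2 * Real.log M))) ≤ (1 - s) * (ε * (Real.log N * ((n : ℝ) / Real.log n ^ 2))) := by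
      apply mul_le_mul_of_nonneg_left _ (by linarith)
      exact mul_le_mul_of_nonneg_left h5 hε.le
    have h7 : (1 - s) * (Real.log N * (ε * ((n : ℝ) / Real.log n ^ 2))) ≤
        (1 - s) * (Real.log N * ((rcl y a n : ℝ) - rcl y b n)) := by
      apply mul_le_mul_of_nonneg_left _ (by linarith)
      exact mul_le_mul_of_nonneg_left h4.le hLN.le
    have h8 : (1 - s) * cv (fun k => ArithmeticFunction.vonMangoldt k) (BN (notc y b) N M) n ≤
        (1 - s) * (Real.log N * rcl y b n + 2 * √(N : ℝ) * Real.log N) :=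
      mul_le_mul_of_nonneg_left h1 (by linarith)
    have h9 : (1 - s) * (2 * √(N : ℝ) * Real.log N) ≤ 2 * √(N : ℝ) * Real.log N :=
      mul_le_of_le_one_left (by positivity) (by linarith)
    have h10 : 0 ≤ √(N : ℝ) * Real.log N := by positivity
    have h11 : 0 ≤ (N : ℝ) ^ (1 - s) * Real.log N := by positivity
    nlinarith [h6, h7, h8, h2, h9, h10, h11]
  have hsum := sum_le_sum hpt
  rw [sum_add_distrib, ← mul_sum, sum_add_distrib, sum_const, nsmul_eq_mul, sum_add_distrib, sum_const, nsmul_eq_mul,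
    ← mul_sum] at hsum
  -- the number of elements of `E`
  have hEc : (E.card : ℝ) ≤ H := by
    have h1 := card_le_card hE
    rw [Nat.card_Ioc] at h1
    have h2 : E.card ≤ H := by omega
    exact_mod_cast h2
  have hT : ∑ n ∈ E, (TT M n : ℝ) ≤ 36 * H ^ 2 / Real.log N ^ 2 := by
    have h1 : ∑ n ∈ E, (TT M n : ℝ) ≤ ∑ n ∈ Ioc M (M + H), (TT M n : ℝ) :=
      sum_le_sum_of_subset_of_nonneg hE fun _ _ _ => Nat.cast_nonneg _
    have h2 : (∑ n ∈ Ioc M (M + H), (TT M n : ℝ)) ≤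
        (((Ioc M (M + H)).filter Nat.Prime).card : ℝ) * (((Icc 1 H).filter Nat.Prime).card : ℝ) := by
      exact_mod_cast sum_TT M H
    obtain ⟨h3, h4⟩ := hH0 H hHH0 M
    have h5 : (((Ioc M (M + H)).filter Nat.Prime).card : ℝ) * (((Icc 1 H).filter Nat.Prime).card : ℝ) ≤
        (3 * H / Real.log H) * (3 * H / Real.log H) :=
      mul_le_mul h3 h4 (Nat.cast_nonneg _) (by positivity)
    have h6 : (3 * (H : ℝ) / Real.log H) ≤ 6 * H / Real.log N := by
      rw [div_le_div_iff₀ hLH hLN]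
      nlinarith
    have h7 : (3 * (H : ℝ) / Real.log H) * (3 * H / Real.log H) ≤ (6 * H / Real.log N) * (6 * H / Real.log N) :=
      mul_le_mul h6 h6 (by positivity) (by positivity)
    have h8 : (6 * (H : ℝ) / Real.log N) * (6 * H / Real.log N) = 36 * H ^ 2 / Real.log N ^ 2 := by
      field_simp
      norm_num
    linarith
  -- error
  have herr := hN1 N (by omega)
  have hfin1 : (E.card : ℝ) * (4 * √(N : ℝ) * Real.log N + 2 * (N : ℝ) ^ (1 - s) * Real.log N) ≤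
      ε1 * ((H : ℝ) * M / Real.log M) := by
    have h1 : (E.card : ℝ) * (4 * √(N : ℝ) * Real.log N + 2 * (N : ℝ) ^ (1 - s) * Real.log N) ≤
        H * (ε1 * ρ * N / Real.log N) := mul_le_mul hEc herr (by positivity) hH0r.le
    refine h1.trans ?_
    have h2 : ρ * N / Real.log N ≤ M / Real.log M := div_le_div₀ hM0.le hM hLM0 hLMN
    calc (H : ℝ) * (ε1 * ρ * N / Real.log N) = ε1 * (H * (ρ * N / Real.log N)) := by ring
      _ ≤ ε1 * (H * (M / Real.log M)) := by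
          apply mul_le_mul_of_nonneg_left _ hε1.le
          exact mul_le_mul_of_nonneg_left h2 hH0r.le
      _ = _ := by ring
  have hfin2 : Real.log N * ∑ n ∈ E, (TT M n : ℝ) ≤ ε1 * ((H : ℝ) * M / Real.log M) := by
    calc Real.log N * ∑ n ∈ E, (TT M n : ℝ) ≤ Real.log N * (36 * H ^ 2 / Real.log N ^ 2) :=
          mul_le_mul_of_nonneg_left hT (by positivity)
      _ = 36 * H * H / Real.log N := by
          field_simp
      _ ≤ 72 * H * (ε1 / 72 * M) / Real.log M := by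
          apply div_le_div₀ (by positivity) _ hLM0 hLMN
          calc 36 * (H : ℝ) * H ≤ 72 * H * H := by nlinarith
            _ ≤ 72 * H * (ε1 / 72 * M) := mul_le_mul_of_nonneg_left hHM (by positivity)
      _ = ε1 * ((H : ℝ) * M / Real.log M) := by ring
  have hgain : (1 - s) * ε * (h / 2) * ((H : ℝ) * M / Real.log M) ≤
      E.card * ((1 - s) * ε * (M / (2 * Real.log M))) := by
    have h1 : 0 ≤ (1 - s) * ε * (M / (2 * Real.log M)) := by
      have : 0 ≤ 1 - s := by linarith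
      positivity
    calc (1 - s) * ε * (h / 2) * ((H : ℝ) * M / Real.log M) = (h * H) * ((1 - s) * ε * (M / (2 * Real.log M))) := by
          field_simp
      _ ≤ _ := mul_le_mul_of_nonneg_right hEcard h1
  linarith

/-! ### the bilinear estimate for a class -/

lemma bbf_class {y w : ℕ} (h : y ≤ w) (N M : ℕ) (a : ZMod (Wp y)) (x : ZMod (Wp w)) :
    (red h x = a → bbf w M (BN (notc y a) N M) x = bbf w M (PN N M) x) ∧
    (red h x ≠ a → bbf w M (BN (notc y a) N M) x = 0) := by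
  constructor
  · intro hx
    unfold bbf
    congr 2
    congr 1
    ext n
    rw [mem_cls, mem_cls, mem_P]
    constructor
    · rintro ⟨⟨h1, _⟩, h2⟩
      exact ⟨h1, h2⟩
    · rintro ⟨h1, h2⟩
      refine ⟨⟨h1, ?_⟩, h2⟩
      rw [← red_nat h, h2, hx]
  · intro hx
    unfold bbf
    have h1 : cls w (BN (notc y a) N M) x = ∅ := by
      rw [Finset.eq_empty_iff_forall_notMem]
      intro n hn
      rw [mem_cls, mem_P] at hn
      apply hx
      rw [← hn.2, red_nat h, hn.1.2]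
    rw [h1]
    simp

lemma sum_class {y w : ℕ} (h : y ≤ w) (N M : ℕ) (a : ZMod (Wp y)) (e : ZMod (Wp w) → ℝ)
    (he0 : ∀ t, 0 ≤ e t) (he1 : ∀ t, e t ≤ 1) (ε : ℝ) (hε : 0 < ε)
    (hP : ∀ x ∈ UU w, |bbf w M (PN N M) x - 1| ≤ ε) :
    |∑ x ∈ UU w, bbf w M (BN (notc y a) N M) x * rr w e x - TA h e a| ≤ ε * (Nat.totient (Wp w) : ℝ) ^ 2 := by
  classical
  have h1 : ∑ x ∈ UU w, bbf w M (BN (notc y a) N M) x * rr w e x =
      ∑ x ∈ (UU w).filter (fun x => red h x = a), bbf w M (PN N M) x * rr w e x := by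
    rw [← sum_filter_add_sum_filter_not (UU w) (fun x => red h x = a)]
    have h2 : ∑ x ∈ (UU w).filter (fun x => ¬ red h x = a), bbf w M (BN (notc y a) N M) x * rr w e x = 0 := by
      apply sum_eq_zero
      intro x hx
      rw [mem_filter] at hx
      rw [(bbf_class h N M a x).2 hx.2, zero_mul]
    rw [h2, add_zero]
    apply sum_congr rfl
    intro x hx
    rw [mem_filter] at hx
    rw [(bbf_class h N M a x).1 hx.2]
  rw [h1]
  unfold TA
  rw [← sum_sub_distrib]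
  have h3 : ∀ x ∈ (UU w).filter (fun x => red h x = a),
      |bbf w M (PN N M) x * rr w e x - rr w e x| ≤ ε * rr w e x := by
    intro x hx
    rw [mem_filter] at hx
    have h4 : bbf w M (PN N M) x * rr w e x - rr w e x = (bbf w M (PN N M) x - 1) * rr w e x := by ring
    rw [h4, abs_mul, abs_of_nonneg (rr_nonneg he0 x)]
    exact mul_le_mul_of_nonneg_right (hP x hx.1) (rr_nonneg he0 x)
  calc |∑ x ∈ (UU w).filter (fun x => red h x = a), (bbf w M (PN N M) x * rr w e x - rr w e x)| ≤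
      ∑ x ∈ (UU w).filter (fun x => red h x = a), |bbf w M (PN N M) x * rr w e x - rr w e x| := abs_sum_le_sum_abs _ _
    _ ≤ ∑ x ∈ (UU w).filter (fun x => red h x = a), ε * rr w e x := sum_le_sum h3
    _ = ε * TA h e a := by rw [← mul_sum]; rfl
    _ ≤ _ := mul_le_mul_of_nonneg_left (TA_le h he0 he1 a) hε.le

/-- the finite window theorem for classes -/
lemma fin_window (hPC : StPC) (hBil : StBil) (y : ℕ) (a0 a b : ZMod (Wp y)) (ha : IsUnit a) (hb : IsUnit b)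
    (ha' : IsUnit (a0 - a)) (hb' : IsUnit (a0 - b)) (ε h : ℝ) (hε : 0 < ε) (hh : 0 < h) :
    ∃ θ0 : ℝ, 0 < θ0 ∧ ∀ ρ : ℝ, 0 < ρ →
    ∃ N0 : ℕ, ∀ N : ℕ, N0 ≤ N → ∀ M H : ℕ, M + H ≤ N → ρ * N ≤ H → ρ * N ≤ M → (H : ℝ) ≤ θ0 * M →
    ∀ E ⊆ Ioc M (M + H), (∀ n ∈ E, (n : ZMod (Wp y)) = a0 ∧
      ε * ((n : ℝ) / Real.log n ^ 2) < (rcl y a n : ℝ) - rcl y b n) → ¬ (h * H ≤ E.card) := by
  obtain ⟨u, hu⟩ : ∃ u : ℝ, u = min (ε * h) 1 / 100 := ⟨_, rfl⟩
  have hu0 : 0 < u := by rw [hu]; positivity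
  have huε : u ≤ ε * h / 100 := by
    rw [hu]
    exact div_le_div_of_nonneg_right (min_le_left _ _) (by norm_num)
  have hu1 : u ≤ 1 / 100 := by
    rw [hu]
    exact div_le_div_of_nonneg_right (min_le_right _ _) (by norm_num)
  refine ⟨u / 72, by positivity, ?_⟩
  intro ρ hρ
  obtain ⟨w0, hw0⟩ := hBil u ρ hu0 hρ
  obtain ⟨w, hw⟩ : ∃ w : ℕ, w = w0 + y := ⟨_, rfl⟩
  have hyw : y ≤ w := by omega
  obtain ⟨N1, hN1⟩ := hw0 w (by omega)
  obtain ⟨N2, hN2⟩ := hPC w u ρ hu0 hρ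
  obtain ⟨N3, hN3⟩ := win_ineq u u ρ h ε hu0 (by linarith) hu0 hρ hε hh y a b
  obtain ⟨N5, hN5⟩ := exists_nat_ge (2 / ρ)
  refine ⟨N1 + N2 + N3 + N5, ?_⟩
  intro N hN M H hMH hH hM hHM E hE hEA hEc
  have hNN5 : 2 ≤ ρ * N := by
    have h1 : (N5 : ℝ) ≤ N := by exact_mod_cast (by omega : N5 ≤ N)
    have h2 := hN5.trans h1
    rw [div_le_iff₀ hρ] at h2
    linarith
  have hM2 : 2 ≤ M := by
    have h3 : ((2 : ℕ) : ℝ) ≤ M := by push_cast; linarith
    exact_mod_cast h3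
  have hH1 : 1 ≤ H := by
    have h3 : ((1 : ℕ) : ℝ) ≤ H := by push_cast; linarith
    exact_mod_cast h3
  have hMN : M ≤ N := by omega
  obtain ⟨e, he⟩ : ∃ e : ZMod (Wp w) → ℝ, e = eef w H E := ⟨_, rfl⟩
  have he0 : ∀ t, 0 ≤ e t := by rw [he]; exact eef_nonneg w H E
  have he1 : ∀ t, e t ≤ 1 := by rw [he]; exact eef_le_one w M H E hE
  have hez : ∀ t, red hyw t ≠ a0 → e t = 0 := by
    intro t ht
    rw [he]
    have h1 : cls w E t = ∅ := by
      rw [Finset.eq_empty_iff_forall_notMem]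
      intro n hn
      rw [mem_cls] at hn
      apply ht
      rw [← hn.2, red_nat hyw]
      exact (hEA n hn.1).1
    unfold eef
    rw [h1]
    simp
  have hTT := TA_indep hyw e a0 a b ha hb ha' hb' hez
  have hTle := TA_le hyw he0 he1 b
  have hPp : ∀ b ∈ PN N M, b.Prime ∧ √(N : ℝ) < b ∧ b ≤ M := by
    intro b hb
    rw [mem_PN] at hb
    exact ⟨hb.2.1, hb.2.2, hb.1⟩
  have hBP : ∀ c : ZMod (Wp y), ∀ p ∈ BN (notc y c) N M, p.Prime ∧ √(N : ℝ) < p ∧ p ≤ M :=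
    fun c p hp => hPp p (mem_BN.1 hp).1
  have hb1 := hN1 N (by omega) M H hMH hH hM E hE (BN (notc y a) N M) (hBP a)
  have hb2 := hN1 N (by omega) M H hMH hH hM E hE (BN (notc y b) N M) (hBP b)
  rw [← he, abs_le] at hb1 hb2
  have hwin := hN3 N (by omega) M H hMH hH hM hHM E hE (fun n hn => (hEA n hn).2) hEc
  rw [← YY_phi w M H] at hwin
  have hYpos := YY_pos w M H hM2 hH1
  have hP : ∀ x ∈ UU w, |bbf w M (PN N M) x - 1| ≤ u := by
    intro x hx
    exact hN2 N (by omega) M hMN hM x (mem_UU.1 hx)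
  have hsa := abs_le.1 (sum_class hyw N M a e he0 he1 u hu0 hP)
  have hsb := abs_le.1 (sum_class hyw N M b e he0 he1 u hu0 hP)
  obtain ⟨Φ, hΦ⟩ : ∃ Φ : ℝ, Φ = (Nat.totient (Wp w) : ℝ) ^ 2 := ⟨_, rfl⟩
  have hφ : (0 : ℝ) < Nat.totient (Wp w) := totient_Wp_pos w
  have hΦ0 : 0 < Φ := by rw [hΦ]; positivity
  rw [← hΦ] at hb1 hb2 hwin hsa hsb hTle
  obtain ⟨Y, hY⟩ : ∃ Y : ℝ, Y = YY w M H := ⟨_, rfl⟩
  rw [← hY] at hb1 hb2 hwin hYpos
  obtain ⟨SA, hSA⟩ : ∃ SA : ℝ, SA = ∑ x ∈ UU w, bbf w M (BN (notc y a) N M) x * rr w e x := ⟨_, rfl⟩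
  obtain ⟨SB, hSB⟩ : ∃ SB : ℝ, SB = ∑ x ∈ UU w, bbf w M (BN (notc y b) N M) x * rr w e x := ⟨_, rfl⟩
  obtain ⟨CA, hCA⟩ : ∃ CA : ℝ, CA = ∑ n ∈ E, cv (fun k => ArithmeticFunction.vonMangoldt k) (BN (notc y a) N M) n := ⟨_, rfl⟩
  obtain ⟨CB, hCB⟩ : ∃ CB : ℝ, CB = ∑ n ∈ E, cv (fun k => ArithmeticFunction.vonMangoldt k) (BN (notc y b) N M) n := ⟨_, rfl⟩
  rw [← hSA] at hsa hb1
  rw [← hSB] at hsb hb2
  rw [← hCA] at hb1 hwin
  rw [← hCB] at hb2 hwin
  rw [hTT] at hsa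
  obtain ⟨T, hT⟩ : ∃ T : ℝ, T = TA hyw e b := ⟨_, rfl⟩
  rw [← hT] at hsa hsb hTle
  obtain ⟨Z, hZ⟩ : ∃ Z : ℝ, Z = Y * Φ := ⟨_, rfl⟩
  have hZ0 : 0 < Z := by rw [hZ]; positivity
  rw [← hZ] at hb1 hb2 hwin
  have h1 : Y * SA ≤ Y * T + u * Z := by
    have := mul_le_mul_of_nonneg_left (show SA ≤ T + u * Φ by linarith [hsa.2]) hYpos.le
    calc Y * SA ≤ Y * (T + u * Φ) := this
      _ = Y * T + u * (Y * Φ) := by ring
      _ = _ := by rw [hZ]
  have h2 : Y * T - u * Z ≤ Y * SB := by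
    have := mul_le_mul_of_nonneg_left (show T - u * Φ ≤ SB by linarith [hsb.1]) hYpos.le
    calc Y * T - u * Z = Y * (T - u * Φ) := by rw [hZ]; ring
      _ ≤ _ := this
  have h3 : Y * SB ≤ Y * T + u * Z := by
    have := mul_le_mul_of_nonneg_left (show SB ≤ T + u * Φ by linarith [hsb.2]) hYpos.le
    calc Y * SB ≤ Y * (T + u * Φ) := this
      _ = Y * T + u * (Y * Φ) := by ring
      _ = _ := by rw [hZ]
  have h4 : Y * T ≤ Z := by
    rw [hZ]
    exact mul_le_mul_of_nonneg_left hTle hYpos.le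
  have h5 : CA ≤ CB + 4 * u * Z := by linarith [hb1.2, hb2.1]
  have h6 : CB ≤ (1 + 2 * u) * Z := by linarith [hb2.2]
  have h7 : u * CB ≤ u * ((1 + 2 * u) * Z) := mul_le_mul_of_nonneg_left h6 hu0.le
  have h8 : (1 - u) * ε * (h / 2) * Z ≤ u * ((1 + 2 * u) * Z) + 4 * u * Z + 2 * u * Z := by
    have : (1 - u) * CB = CB - u * CB := by ring
    linarith
  have h9 : (1 - u) * ε * (h / 2) ≤ u * (1 + 2 * u) + 4 * u + 2 * u := by
    have h10 : (1 - u) * ε * (h / 2) * Z ≤ (u * (1 + 2 * u) + 4 * u + 2 * u) * Z := by linarith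
    exact le_of_mul_le_mul_right h10 hZ0
  have h11 : 100 * u ≤ ε * h := by linarith
  have h12 : (1 - u) * (50 * u) ≤ (1 - u) * ε * (h / 2) := by
    have : (1 - u) * (100 * u) ≤ (1 - u) * (ε * h) := mul_le_mul_of_nonneg_left h11 (by linarith)
    linarith
  have h13 : u * u ≤ 1 / 100 * u := mul_le_mul_of_nonneg_right hu1 hu0.le
  linarith

/-- the one-sided statement -/
lemma one_side (hPC : StPC) (hBil : StBil) (y : ℕ) (a0 a b : ZMod (Wp y)) (ha : IsUnit a) (hb : IsUnit b)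
    (ha' : IsUnit (a0 - a)) (hb' : IsUnit (a0 - b)) (ε h : ℝ) (hε : 0 < ε) (hh : 0 < h) (hh1 : h ≤ 1) :
    ∀ᶠ x : ℕ in atTop, (cnt {n : ℕ | (n : ZMod (Wp y)) = a0 ∧
      ε * ((n : ℝ) / Real.log n ^ 2) < (rcl y a n : ℝ) - rcl y b n} x : ℝ) < h * x := by
  obtain ⟨S, hS⟩ : ∃ S : Set ℕ, S = {n : ℕ | (n : ZMod (Wp y)) = a0 ∧
      ε * ((n : ℝ) / Real.log n ^ 2) < (rcl y a n : ℝ) - rcl y b n} := ⟨_, rfl⟩
  rw [← hS]
  by_contra hcon
  rw [not_eventually] at hcon
  obtain ⟨θ0, hθ0, hfw⟩ := fin_window hPC hBil y a0 a b ha hb ha' hb' ε (h / 2) hε (by positivity)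
  obtain ⟨θ, hθ⟩ : ∃ θ : ℝ, θ = h / 8 * min θ0 1 := ⟨_, rfl⟩
  have hθ0' : 0 < θ := by rw [hθ]; positivity
  have hθ1 : θ ≤ h / 8 := by
    rw [hθ]
    exact mul_le_of_le_one_right (by positivity) (min_le_right _ _)
  have hθ2 : θ ≤ h / 8 * θ0 := by
    rw [hθ]
    exact mul_le_mul_of_nonneg_left (min_le_left _ _) (by positivity)
  obtain ⟨N0, hN0⟩ := hfw (θ / 4) (by positivity)
  obtain ⟨x0, hx0⟩ := exists_window S h θ hh hh1 hθ0' hθ1
  obtain ⟨x1, hx1⟩ := exists_nat_ge (8 / h)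
  obtain ⟨x2, hx2⟩ := exists_nat_ge (2 / θ)
  obtain ⟨x, hxc, hxg⟩ := (hcon.and_eventually (eventually_ge_atTop (N0 + x0 + x1 + x2 + 1))).exists
  rw [not_lt] at hxc
  obtain ⟨M, H, hH1, hH2, hM1', hM2, hcard⟩ := hx0 x (by omega) hxc
  have hxr : (0 : ℝ) < x := by exact_mod_cast (by omega : 0 < x)
  have hhx : 8 ≤ h * x := by
    have h1 : (x1 : ℝ) ≤ x := by exact_mod_cast (by omega : x1 ≤ x)
    have h2 := hx1.trans h1
    rw [div_le_iff₀ hh] at h2
    linarith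
  have hθx : 2 ≤ θ * x := by
    have h1 : (x2 : ℝ) ≤ x := by exact_mod_cast (by omega : x2 ≤ x)
    have h2 := hx2.trans h1
    rw [div_le_iff₀ hθ0'] at h2
    linarith
  have hMlow : h / 8 * x ≤ M := by linarith
  have hθle : θ * (x : ℝ) ≤ h / 8 * x := mul_le_mul_of_nonneg_right hθ1 hxr.le
  have hHx : H ≤ x := by
    have h1 : (H : ℝ) ≤ x := by nlinarith
    exact_mod_cast h1
  refine hN0 (2 * x) (by omega) M H (by omega) (by push_cast; linarith) (by push_cast; linarith) (by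
    calc (H : ℝ) ≤ θ * x := hH1
      _ ≤ h / 8 * θ0 * x := mul_le_mul_of_nonneg_right hθ2 hxr.le
      _ = θ0 * (h / 8 * x) := by ring
      _ ≤ θ0 * M := mul_le_mul_of_nonneg_left hMlow hθ0.le) (win S M H) (win_subset S M H) (by
    intro n hn
    rw [mem_win, hS] at hn
    exact hn.2) hcard

/-- Representations are equidistributed in the possible residue classes for almost all numbers. -/
theorem classes_equal (hPC : StPC) (hBil : StBil) : StEq := by
  intro y a0 a b ha hb ha' hb' ε hε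
  obtain ⟨S, hS⟩ : ∃ S : Set ℕ, S = {n : ℕ | (n : ZMod (Wp y)) = a0 ∧
    ε * ((n : ℝ) / Real.log n ^ 2) < |(rcl y a n : ℝ) - rcl y b n|} := ⟨_, rfl⟩
  rw [← hS, Metric.tendsto_atTop]
  intro δ hδ
  obtain ⟨h, hh⟩ : ∃ h : ℝ, h = min (δ / 4) 1 := ⟨_, rfl⟩
  have hh0 : 0 < h := by rw [hh]; positivity
  have hh1 : h ≤ 1 := by rw [hh]; exact min_le_right _ _
  have hhδ : h ≤ δ / 4 := by rw [hh]; exact min_le_left _ _
  have e1 := one_side hPC hBil y a0 a b ha hb ha' hb' ε h hε hh0 hh1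
  have e2 := one_side hPC hBil y a0 b a hb ha hb' ha' ε h hε hh0 hh1
  obtain ⟨x0, hx0⟩ := eventually_atTop.1 ((e1.and e2).and (eventually_ge_atTop 1))
  refine ⟨x0, ?_⟩
  intro x hx
  obtain ⟨⟨h1, h2⟩, h3⟩ := hx0 x hx
  have hxr : (0 : ℝ) < x := by exact_mod_cast h3
  obtain ⟨S1, hS1⟩ : ∃ S1 : Set ℕ, S1 = {n : ℕ | (n : ZMod (Wp y)) = a0 ∧
      ε * ((n : ℝ) / Real.log n ^ 2) < (rcl y a n : ℝ) - rcl y b n} := ⟨_, rfl⟩
  obtain ⟨S2, hS2⟩ : ∃ S2 : Set ℕ, S2 = {n : ℕ | (n : ZMod (Wp y)) = a0 ∧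
      ε * ((n : ℝ) / Real.log n ^ 2) < (rcl y b n : ℝ) - rcl y a n} := ⟨_, rfl⟩
  rw [← hS1] at h1
  rw [← hS2] at h2
  have h4 : cnt S x ≤ cnt S1 x + cnt S2 x := by
    classical
    rw [cnt_eq, cnt_eq, cnt_eq]
    refine le_trans (card_le_card ?_) (card_union_le _ _)
    intro n hn
    rw [mem_cntS, hS] at hn
    rw [mem_union, mem_cntS, mem_cntS, hS1, hS2]
    obtain ⟨hn1, hn2, hn3⟩ := hn
    rcases lt_abs.1 hn3 with hn4 | hn4
    · exact Or.inl ⟨hn1, hn2, hn4⟩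
    · refine Or.inr ⟨hn1, hn2, ?_⟩
      linarith
  have h5 : (cnt S x : ℝ) ≤ cnt S1 x + cnt S2 x := by exact_mod_cast h4
  rw [Real.dist_eq, sub_zero, abs_of_nonneg (by positivity), div_lt_iff₀ hxr]
  have h6 : h * (x : ℝ) ≤ δ / 4 * x := mul_le_mul_of_nonneg_right hhδ hxr.le
  have h7 : 0 < δ * x := by positivity
  linarith

end Pool.Agent.TH364.J1815
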