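import Mathlib

/-!
# Colourful Caratheodory theorem with a prescribed point (Barany)
-/

set_option autoImplicit false

open Module

namespace Pool.Agent.TH364.Colorful

variable {E : Type*} [NormedAddCommGroup E] [InnerProductSpace ℝ E] [FiniteDimensional ℝ E]

lemma exists_near {K : Set E} (hc : IsCompact K) (hne : K.Nonempty) (hconv : Convex ℝ K) :
    ∃ z ∈ K, ∀ x ∈ K, inner ℝ z z ≤ inner ℝ z x := by
  obtain ⟨z, hz, hzn⟩ := exists_norm_eq_iInf_of_complete_convex hne hc.isComplete hconv 0
  refine ⟨z, hz, fun x hx => ?_⟩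
  have h := (norm_eq_iInf_iff_real_inner_le_zero hconv hz).1 hzn x hx
  rw [zero_sub, inner_neg_left, inner_sub_right] at h
  linarith

lemma compact_hull (s : Set E) (hs : s.Finite) : IsCompact (convexHull ℝ s) :=
  hs.isCompact_convexHull ℝ

lemma scale_hull {p : E} {S : Set E} (hS : S.Nonempty) {t : ℝ} (ht : 0 < t)
    (h : (0 : E) ∈ convexHull ℝ (insert (t • p) S)) : (0 : E) ∈ convexHull ℝ (insert p S) := by
  rw [convexHull_insert hS] at h ⊢
  rw [mem_convexJoin] at h ⊢
  obtain ⟨a, ha, s, hs, a', b', ha', hb', hab, h0⟩ := h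
  rw [Set.mem_singleton_iff] at ha
  subst ha
  refine ⟨p, rfl, s, hs, ?_⟩
  have hpos : 0 < a' * t + b' := by
    rcases ha'.lt_or_eq with h1 | h1
    · have := mul_pos h1 ht
      linarith
    · have hb1 : b' = 1 := by linarith
      rw [← h1, hb1]; norm_num
  refine ⟨a' * t / (a' * t + b'), b' / (a' * t + b'), by positivity, by positivity,
    by field_simp, ?_⟩
  have h2 : (a' * t / (a' * t + b')) • p + (b' / (a' * t + b')) • s =
      (1 / (a' * t + b')) • (a' • t • p + b' • s) := by
    rw [smul_add, smul_smul, smul_smul, smul_smul]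
    congr 2 <;> ring
  rw [h2, h0, smul_zero]

/-- Colourful Caratheodory theorem with a prescribed point. -/
theorem colorful {ι : Type*} [Fintype ι] [DecidableEq ι] (hι : finrank ℝ E ≤ Fintype.card ι)
    (W : ι → Finset E) (hW : ∀ i, (0 : E) ∈ convexHull ℝ (W i : Set E)) (p : E) :
    ∃ w : ι → E, (∀ i, w i ∈ W i) ∧ (0 : E) ∈ convexHull ℝ (insert p (Set.range w)) := by
  classical
  by_contra hcon
  push Not at hcon
  have hWne : ∀ i, (W i).Nonempty := by
    intro i
    have := convexHull_nonempty_iff.1 ⟨0, hW i⟩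
    exact_mod_cast this
  have hRne : (Fintype.piFinset W).Nonempty := by
    choose w hw using hWne
    exact ⟨w, Fintype.mem_piFinset.2 hw⟩
  have hp : p ≠ 0 := by
    rintro rfl
    obtain ⟨w, hw⟩ := hRne
    exact hcon w (Fintype.mem_piFinset.1 hw) (subset_convexHull ℝ _ (Set.mem_insert _ _))
  have hιne : Nonempty ι := by
    by_contra h
    have h1 : Fintype.card ι = 0 := Fintype.card_eq_zero_iff.2 (not_nonempty_iff.1 h)
    have h2 : finrank ℝ E = 0 := by omega
    have h3 := finrank_zero_iff.1 h2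
    exact hp (Subsingleton.elim _ _)
  have hrngne : ∀ w : ι → E, (Set.range w).Nonempty := fun w => Set.range_nonempty w
  have hr : ∀ w : ι → E, ∃ r : ℝ, 0 < r ∧ (w ∈ Fintype.piFinset W →
      ∀ x ∈ convexHull ℝ (Set.range w), r ≤ ‖x‖) := by
    intro w
    by_cases hw : w ∈ Fintype.piFinset W
    · obtain ⟨z, hz, hmin⟩ := exists_near (compact_hull _ (Set.finite_range w))
        ((hrngne w).convexHull (𝕜 := ℝ)) (convex_convexHull ℝ _)
      have hz0 : z ≠ 0 := by
        rintro rfl
        exact hcon w (Fintype.mem_piFinset.1 hw)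
          (convexHull_mono (Set.subset_insert _ _) hz)
      refine ⟨‖z‖, norm_pos_iff.2 hz0, fun _ x hx => ?_⟩
      have h1 := hmin x hx
      rw [real_inner_self_eq_norm_sq] at h1
      have h2 := real_inner_le_norm z x
      have h3 : 0 < ‖z‖ := norm_pos_iff.2 hz0
      nlinarith
    · exact ⟨1, one_pos, fun h => absurd h hw⟩
  choose r hr0 hr1 using hr
  obtain ⟨wm, hwm, hwmin⟩ := Finset.exists_min_image _ r hRne
  set r0 := r wm with hr0def
  have hr0pos : 0 < r0 := hr0 wm
  have hrall : ∀ w ∈ Fintype.piFinset W, ∀ x ∈ convexHull ℝ (Set.range w), r0 ≤ ‖x‖ :=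
    fun w hw x hx => (hwmin w hw).trans (hr1 w hw x hx)
  have hpn : 0 < ‖p‖ := norm_pos_iff.2 hp
  set t : ℝ := r0 / (2 * ‖p‖) with ht
  have htpos : 0 < t := by positivity
  have htp : ‖t • p‖ = r0 / 2 := by
    rw [norm_smul, Real.norm_of_nonneg htpos.le, ht]
    field_simp
  have hnear : ∀ w : ι → E, ∃ z ∈ convexHull ℝ (insert (t • p) (Set.range w)),
      ∀ x ∈ convexHull ℝ (insert (t • p) (Set.range w)), inner ℝ z z ≤ inner ℝ z x := by
    intro w
    exact exists_near (compact_hull _ ((Set.finite_range w).insert _))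
      ((Set.insert_nonempty _ _).convexHull (𝕜 := ℝ)) (convex_convexHull ℝ _)
  choose z hz hzmin using hnear
  obtain ⟨w0, hw0, hw0min⟩ := Finset.exists_min_image _ (fun w => ‖z w‖) hRne
  have hz0 : ∀ w ∈ Fintype.piFinset W, z w ≠ 0 := by
    intro w hw h0
    have h1 := hz w
    rw [h0] at h1
    exact hcon w (Fintype.mem_piFinset.1 hw) (scale_hull (hrngne w) htpos h1)
  have hzpos : 0 < ‖z w0‖ := norm_pos_iff.2 (hz0 w0 hw0)
  have hzle : ‖z w0‖ ≤ r0 / 2 := by
    have h1 := hzmin w0 (t • p) (subset_convexHull ℝ _ (Set.mem_insert _ _))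
    rw [real_inner_self_eq_norm_sq] at h1
    have h2 := real_inner_le_norm (z w0) (t • p)
    rw [htp] at h2
    nlinarith
  obtain ⟨κ, _, v, c, hvr, hai, hc, hc1, hcz⟩ := eq_pos_convex_span_of_mem_convexHull (hz w0)
  have hvz : ∀ k, inner ℝ (z w0) (v k) = inner ℝ (z w0) (z w0) := by
    have hnn : ∀ k ∈ Finset.univ, 0 ≤ c k * (inner ℝ (z w0) (v k) - inner ℝ (z w0) (z w0)) := by
      intro k _
      have := hzmin w0 (v k) (subset_convexHull ℝ _ (hvr ⟨k, rfl⟩))
      have hck := hc k
      exact mul_nonneg hck.le (by linarith)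
    have hsum : ∑ k, c k * (inner ℝ (z w0) (v k) - inner ℝ (z w0) (z w0)) = 0 := by
      have h1 : inner ℝ (z w0) (∑ k, c k • v k) = ∑ k, c k * inner ℝ (z w0) (v k) := by
        rw [inner_sum]
        exact Finset.sum_congr rfl fun k _ => by rw [real_inner_smul_right]
      simp only [mul_sub, Finset.sum_sub_distrib]
      rw [← h1, ← Finset.sum_mul, hc1, hcz, one_mul, sub_self]
    intro k
    have h2 := (Finset.sum_eq_zero_iff_of_nonneg hnn).1 hsum k (Finset.mem_univ k)
    rcases mul_eq_zero.1 h2 with h3 | h3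
    · exact absurd h3 (hc k).ne'
    · linarith
  have hzz : inner ℝ (z w0) (z w0) ≠ 0 := by
    rw [real_inner_self_eq_norm_sq]; positivity
  have hli : LinearIndependent ℝ v := by
    rw [Fintype.linearIndependent_iff]
    intro g hg k
    have h1 : inner ℝ (z w0) (∑ k, g k • v k) = ∑ k, g k * inner ℝ (z w0) (v k) := by
      rw [inner_sum]
      exact Finset.sum_congr rfl fun k _ => by rw [real_inner_smul_right]
    rw [hg, inner_zero_right] at h1
    have h2 : (∑ k, g k) * inner ℝ (z w0) (z w0) = 0 := by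
      rw [Finset.sum_mul, h1]
      exact Finset.sum_congr rfl fun k _ => by rw [hvz k]
    have h3 : ∑ k, g k = 0 := (mul_eq_zero.1 h2).resolve_right hzz
    exact (affineIndependent_iff.1 hai) Finset.univ g h3 hg k (Finset.mem_univ k)
  have hcard : Fintype.card κ ≤ Fintype.card ι := hli.fintype_card_le_finrank.trans hι
  obtain ⟨k0, hk0⟩ : ∃ k0, v k0 = t • p := by
    by_contra hno
    push Not at hno
    have hsub : Set.range v ⊆ Set.range w0 := by
      rintro _ ⟨k, rfl⟩
      rcases hvr ⟨k, rfl⟩ with h | h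
      · exact absurd h (hno k)
      · exact h
    have hmem : z w0 ∈ convexHull ℝ (Set.range w0) := by
      refine convexHull_mono hsub ?_
      rw [← hcz]
      exact (convex_convexHull ℝ _).sum_mem (fun k _ => (hc k).le) hc1
        (fun k _ => subset_convexHull ℝ _ ⟨k, rfl⟩)
    have := hrall w0 hw0 _ hmem
    linarith
  have hj : ∀ k, ∃ j : ι, k ≠ k0 → w0 j = v k := by
    intro k
    by_cases hk : k = k0
    · exact ⟨Classical.arbitrary ι, fun h => absurd hk h⟩
    · rcases hvr ⟨k, rfl⟩ with h | h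
      · exact absurd (hai.injective (h.trans hk0.symm)) hk
      · obtain ⟨j, hj⟩ := h
        exact ⟨j, fun _ => hj⟩
  choose j hj using hj
  obtain ⟨i, hi⟩ : ∃ i, i ∉ (Finset.univ.erase k0).image j := by
    by_contra hno
    push Not at hno
    have h1 : (Finset.univ : Finset ι) ⊆ (Finset.univ.erase k0).image j := fun i _ => hno i
    have h2 := (Finset.card_le_card h1).trans Finset.card_image_le
    rw [Finset.card_erase_of_mem (Finset.mem_univ _), Finset.card_univ, Finset.card_univ] at h2
    have h3 : 0 < Fintype.card κ := Fintype.card_pos_iff.2 ⟨k0⟩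
    omega
  obtain ⟨w', hw', hw'z⟩ : ∃ w' ∈ W i, inner ℝ (z w0) w' ≤ 0 := by
    by_contra hno
    push Not at hno
    have hsub : convexHull ℝ (W i : Set E) ⊆ {x | 0 < inner ℝ (z w0) x} := by
      refine convexHull_min (fun x hx => hno x hx) ?_
      exact convex_halfSpace_gt (IsLinearMap.mk (fun x y => inner_add_right _ _ _)
        (fun c x => real_inner_smul_right _ _ _)) 0
    have := hsub (hW i)
    simp at this
  set w1 := Function.update w0 i w' with hw1
  have hw1R : w1 ∈ Fintype.piFinset W := by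
    rw [Fintype.mem_piFinset] at hw0 ⊢
    intro l
    by_cases hl : l = i
    · subst hl; rw [hw1, Function.update_self]; exact hw'
    · rw [hw1, Function.update_of_ne hl]; exact hw0 l
  have hzK : z w0 ∈ convexHull ℝ (insert (t • p) (Set.range w1)) := by
    rw [← hcz]
    refine (convex_convexHull ℝ _).sum_mem (fun k _ => (hc k).le) hc1
        (fun k _ => subset_convexHull ℝ _ ?_)
    by_cases hk : k = k0
    · left; rw [hk, hk0]
    · right
      refine ⟨j k, ?_⟩
      have hne : j k ≠ i := by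
        intro h
        exact hi (Finset.mem_image.2 ⟨k, Finset.mem_erase.2 ⟨hk, Finset.mem_univ _⟩, h⟩)
      rw [hw1, Function.update_of_ne hne, hj k hk]
  have hw'K : w' ∈ convexHull ℝ (insert (t • p) (Set.range w1)) := by
    refine subset_convexHull ℝ _ (Or.inr ⟨i, ?_⟩)
    rw [hw1, Function.update_self]
  have h1 : ‖z w0‖ ≤ ‖z w1‖ := hw0min w1 hw1R
  have h2 := hzmin w1 _ hzK
  have h3 : 0 < ‖z w1‖ := norm_pos_iff.2 (hz0 w1 hw1R)
  have h4 := real_inner_le_norm (z w1) (z w0)
  have h5 : ‖z w0 - z w1‖ ^ 2 ≤ 0 := by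
    rw [norm_sub_sq_real, real_inner_comm]
    rw [real_inner_self_eq_norm_sq] at h2
    nlinarith
  have h6 : z w0 = z w1 := by
    have : ‖z w0 - z w1‖ = 0 := by
      have := sq_nonneg ‖z w0 - z w1‖
      exact pow_eq_zero_iff (two_ne_zero) |>.1 (le_antisymm h5 this)
    exact sub_eq_zero.1 (norm_eq_zero.1 this)
  have h7 := hzmin w1 w' hw'K
  rw [← h6, real_inner_self_eq_norm_sq] at h7
  nlinarith

end Pool.Agent.TH364.Colorful
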