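import Mathlib
import Pool.Agent.TH280.LS.StmB
import Pool.Agent.TH209.LS_TP

/-!
Job LSB-TPW: interpolation between the exponents 2 and 4 with a general weight.
-/

set_option autoImplicit false

open MeasureTheory Set
open scoped ENNReal
open Pool.Agent.TH280.LS
open Pool.Agent.TH209.TP (GB Gb meas_Tm Tm_add gb_mc gb_ms nu lint_nu)

namespace Pool.Agent.TH364.TPW

variable {m : ℕ}

/-- large part -/
noncomputable def tr1 (ρ : (Fin m → ℝ) → ℝ) (G : (Fin m → ℝ) → ℝ → ℂ) (l : ℝ) (η : Fin m → ℝ) (x : ℝ) : ℂ :=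
  if l < ρ η * ‖G η x‖ then G η x else 0

/-- small part -/
noncomputable def tr2 (ρ : (Fin m → ℝ) → ℝ) (G : (Fin m → ℝ) → ℝ → ℂ) (l : ℝ) (η : Fin m → ℝ) (x : ℝ) : ℂ :=
  if ρ η * ‖G η x‖ ≤ l then G η x else 0

lemma tr_add (ρ : (Fin m → ℝ) → ℝ) (G : (Fin m → ℝ) → ℝ → ℂ) (l : ℝ) (η : Fin m → ℝ) (x : ℝ) :
    G η x = tr1 ρ G l η x + tr2 ρ G l η x := by
  unfold tr1 tr2
  by_cases h : l < ρ η * ‖G η x‖
  · rw [if_pos h, if_neg (not_le.2 h), add_zero]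
  · rw [if_neg h, if_pos (not_lt.1 h), zero_add]

lemma meas_f {ρ : (Fin m → ℝ) → ℝ} (hρ : Measurable ρ) {G : (Fin m → ℝ) → ℝ → ℂ} (hG : Measurable (Function.uncurry G)) :
    Measurable (fun z : (Fin m → ℝ) × ℝ => ρ z.1 * ‖G z.1 z.2‖) :=
  (hρ.comp measurable_fst).mul hG.norm

lemma adm1 {ρ : (Fin m → ℝ) → ℝ} (hρ : Measurable ρ) {G : (Fin m → ℝ) → ℝ → ℂ} (hG : Adm m G) (l : ℝ) : Adm m (tr1 ρ G l) := by
  obtain ⟨hGm, g, hg, hb⟩ := hG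
  refine ⟨?_, g, hg, fun η x => ?_⟩
  · have h1 : MeasurableSet {z : (Fin m → ℝ) × ℝ | l < ρ z.1 * ‖G z.1 z.2‖} :=
      measurableSet_lt measurable_const (meas_f hρ hGm)
    have h2 : Measurable (fun z : (Fin m → ℝ) × ℝ =>
        if l < ρ z.1 * ‖G z.1 z.2‖ then Function.uncurry G z else 0) :=
      Measurable.ite h1 hGm measurable_const
    exact h2
  · unfold tr1
    split_ifs
    · exact hb η x
    · rw [norm_zero]
      exact (norm_nonneg _).trans (hb η x)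

lemma adm2 {ρ : (Fin m → ℝ) → ℝ} (hρ : Measurable ρ) {G : (Fin m → ℝ) → ℝ → ℂ} (hG : Adm m G) (l : ℝ) : Adm m (tr2 ρ G l) := by
  obtain ⟨hGm, g, hg, hb⟩ := hG
  refine ⟨?_, g, hg, fun η x => ?_⟩
  · have h1 : MeasurableSet {z : (Fin m → ℝ) × ℝ | ρ z.1 * ‖G z.1 z.2‖ ≤ l} :=
      measurableSet_le (meas_f hρ hGm) measurable_const
    have h2 : Measurable (fun z : (Fin m → ℝ) × ℝ =>
        if ρ z.1 * ‖G z.1 z.2‖ ≤ l then Function.uncurry G z else 0) :=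
      Measurable.ite h1 hGm measurable_const
    exact h2
  · unfold tr2
    split_ifs
    · exact hb η x
    · rw [norm_zero]
      exact (norm_nonneg _).trans (hb η x)

/-- the weight -/
noncomputable def ww (ρ : (Fin m → ℝ) → ℝ) (z : (Fin m → ℝ) × ℝ) : ℝ≥0∞ := ENNReal.ofReal ((ρ z.1)⁻¹ ^ 2)

lemma measurable_ww {ρ : (Fin m → ℝ) → ℝ} (hρ : Measurable ρ) : Measurable (ww ρ) := by
  unfold ww
  exact (((hρ.comp measurable_fst).inv).pow_const 2).ennreal_ofReal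

/-- the measure on the data side -/
noncomputable def mu (ρ : (Fin m → ℝ) → ℝ) : Measure ((Fin m → ℝ) × ℝ) :=
  ((volume : Measure (Fin m → ℝ)).prod (volume : Measure ℝ)).withDensity (ww ρ)

instance (ρ : (Fin m → ℝ) → ℝ) : SFinite (mu ρ) := by unfold mu; infer_instance

lemma lint_mu {ρ : (Fin m → ℝ) → ℝ} (hρ : Measurable ρ) (f : (Fin m → ℝ) × ℝ → ℝ≥0∞) (hf : Measurable f) :
    ∫⁻ z, f z ∂(mu ρ) = ∫⁻ x : ℝ, ∫⁻ η : Fin m → ℝ, ww ρ (η, x) * f (η, x) := by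
  unfold mu
  rw [lintegral_withDensity_eq_lintegral_mul _ (measurable_ww hρ) hf]
  rw [lintegral_prod_symm' _ ((measurable_ww hρ).mul hf)]
  rfl

lemma pt1 {ρ : (Fin m → ℝ) → ℝ} (hρ0 : ∀ η, 0 ≤ ρ η) (G : (Fin m → ℝ) → ℝ → ℂ) {l : ℝ} (hl : 0 < l) (η : Fin m → ℝ) (x : ℝ) :
    ww ρ (η, x) * {z : (Fin m → ℝ) × ℝ | l < ρ z.1 * ‖G z.1 z.2‖}.indicator
      (fun z => ENNReal.ofReal (ρ z.1 * ‖G z.1 z.2‖) ^ 2) (η, x) = ‖tr1 ρ G l η x‖ₑ ^ 2 := by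
  by_cases h : l < ρ η * ‖G η x‖
  · rw [indicator_of_mem (show (η, x) ∈ {z : (Fin m → ℝ) × ℝ | l < ρ z.1 * ‖G z.1 z.2‖} from h)]
    unfold tr1 ww
    rw [if_pos h, ← ofReal_norm, ← ENNReal.ofReal_pow (mul_nonneg (hρ0 _) (norm_nonneg _)),
      ← ENNReal.ofReal_pow (norm_nonneg _), ← ENNReal.ofReal_mul (by positivity)]
    have hP : ρ η ≠ 0 := by
      intro h0
      rw [h0, zero_mul] at h
      exact absurd (hl.trans h) (lt_irrefl _)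
    congr 1
    simp only
    field_simp
  · rw [indicator_of_notMem (show (η, x) ∉ {z : (Fin m → ℝ) × ℝ | l < ρ z.1 * ‖G z.1 z.2‖}
      from h)]
    unfold tr1
    rw [if_neg h]
    simp

lemma pt2 {ρ : (Fin m → ℝ) → ℝ} (hρ0 : ∀ η, 0 ≤ ρ η) (G : (Fin m → ℝ) → ℝ → ℂ) (l : ℝ) (η : Fin m → ℝ) (x : ℝ) :
    ww ρ (η, x) * {z : (Fin m → ℝ) × ℝ | ρ z.1 * ‖G z.1 z.2‖ ≤ l}.indicator
      (fun z => ENNReal.ofReal (ρ z.1 * ‖G z.1 z.2‖) ^ 4) (η, x) =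
      ENNReal.ofReal (ρ η ^ 2) * ‖tr2 ρ G l η x‖ₑ ^ 4 := by
  by_cases h : ρ η * ‖G η x‖ ≤ l
  · rw [indicator_of_mem (show (η, x) ∈ {z : (Fin m → ℝ) × ℝ | ρ z.1 * ‖G z.1 z.2‖ ≤ l} from h)]
    unfold tr2 ww
    rw [if_pos h, ← ofReal_norm, ← ENNReal.ofReal_pow (mul_nonneg (hρ0 _) (norm_nonneg _)),
      ← ENNReal.ofReal_pow (norm_nonneg _), ← ENNReal.ofReal_mul (by positivity),
      ← ENNReal.ofReal_mul (by positivity)]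
    congr 1
    simp only
    by_cases hP : ρ η = 0
    · rw [hP]; simp
    · field_simp
  · rw [indicator_of_notMem (show (η, x) ∉ {z : (Fin m → ℝ) × ℝ | ρ z.1 * ‖G z.1 z.2‖ ≤ l}
      from h)]
    unfold tr2
    rw [if_neg h]
    simp

lemma pt3 {ρ : (Fin m → ℝ) → ℝ} (hρ0 : ∀ η, 0 ≤ ρ η) (G : (Fin m → ℝ) → ℝ → ℂ) {p : ℝ} (hp : 2 < p) (η : Fin m → ℝ) (x : ℝ) :
    ww ρ (η, x) * ENNReal.ofReal (ρ η * ‖G η x‖) ^ p =
      ENNReal.ofReal (ρ η ^ (p - 2)) * ‖G η x‖ₑ ^ p := by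
  unfold ww
  rw [← ofReal_norm, ENNReal.ofReal_rpow_of_nonneg (mul_nonneg (hρ0 _) (norm_nonneg _))
    (by linarith), ENNReal.ofReal_rpow_of_nonneg (norm_nonneg _) (by linarith),
    ← ENNReal.ofReal_mul (by positivity),
    ← ENNReal.ofReal_mul (Real.rpow_nonneg (hρ0 _) _)]
  congr 1
  simp only
  by_cases hP : ρ η = 0
  · rw [hP, Real.zero_rpow (by linarith)]; simp
  · have hP' : 0 < ρ η := lt_of_le_of_ne (hρ0 _) (Ne.symm hP)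
    rw [Real.mul_rpow hP'.le (norm_nonneg _), Real.rpow_sub hP', Real.rpow_two]
    field_simp

theorem interp (p : ℝ) (hp2 : 2 < p) (hp4 : p < 4) : ∃ C : ℝ, 0 < C ∧ ∀ (m : ℕ)
    (ρ : (Fin m → ℝ) → ℝ), Measurable ρ → (∀ η, 0 ≤ ρ η) → ∀ (M : ℝ → ℝ → ℝ) (C2 C4 : ℝ), GB M → 0 < C2 → 0 < C4 →
    (∀ G : (Fin m → ℝ) → ℝ → ℂ, Adm m G →
      ∫⁻ t in Icc (1 : ℝ) 2, ∫⁻ x : ℝ, ∫⁻ y : Fin m → ℝ, ‖Tm m (M t) G y x‖ₑ ^ 2 ≤
        ENNReal.ofReal C2 * ∫⁻ x : ℝ, ∫⁻ η : Fin m → ℝ, ‖G η x‖ₑ ^ 2) →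
    (∀ G : (Fin m → ℝ) → ℝ → ℂ, Adm m G →
      ∫⁻ t in Icc (1 : ℝ) 2, ∫⁻ x : ℝ, ∫⁻ y : Fin m → ℝ, ‖Tm m (M t) G y x‖ₑ ^ 4 ≤
        ENNReal.ofReal C4 * ∫⁻ x : ℝ, ∫⁻ η : Fin m → ℝ,
          ENNReal.ofReal (ρ η ^ 2) * ‖G η x‖ₑ ^ 4) →
    ∀ G : (Fin m → ℝ) → ℝ → ℂ, Adm m G →
      ∫⁻ t in Icc (1 : ℝ) 2, ∫⁻ x : ℝ, ∫⁻ y : Fin m → ℝ, ‖Tm m (M t) G y x‖ₑ ^ p ≤
        ENNReal.ofReal (C * C2 ^ ((4 - p) / 2) * C4 ^ ((p - 2) / 2)) *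
          ∫⁻ x : ℝ, ∫⁻ η : Fin m → ℝ,
            ENNReal.ofReal (ρ η ^ (p - 2)) * ‖G η x‖ₑ ^ p := by
  obtain ⟨C, hC, HC⟩ := Pool.Agent.H438R2.RZ.marc24 p hp2 hp4
  refine ⟨C, hC, ?_⟩
  intro m ρ hρ hρ0 M C2 C4 hM hC2 hC4 H2 H4 G hG
  have hGm := hG.1
  have hF := (meas_Tm hGm hM.meas)
  have key := HC (mu ρ) (nu m) (fun z => ‖Tm m (M z.1) G z.2.2 z.2.1‖)
    (fun z => ρ z.1 * ‖G z.1 z.2‖) hF.norm (meas_f hρ hGm) (fun _ => norm_nonneg _)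
    (fun _ => mul_nonneg (hρ0 _) (norm_nonneg _)) C2 C4 hC2 hC4 ?_
  · rw [lint_mu hρ _ ((meas_f hρ hGm).ennreal_ofReal.pow_const p),
      lint_nu _ (hF.norm.ennreal_ofReal.pow_const p)] at key
    simp only [ofReal_norm, pt3 hρ0 G hp2] at key
    exact key
  · intro l hl
    refine ⟨fun z => ‖Tm m (M z.1) (tr1 ρ G l) z.2.2 z.2.1‖ₑ,
      fun z => ‖Tm m (M z.1) (tr2 ρ G l) z.2.2 z.2.1‖ₑ,
      (meas_Tm (adm1 hρ hG l).1 hM.meas).enorm, (meas_Tm (adm2 hρ hG l).1 hM.meas).enorm,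
      Filter.Eventually.of_forall fun z => ?_, ?_, ?_⟩
    · rw [ofReal_norm]
      have hMt : Measurable (M z.1) := hM.meas.comp measurable_prodMk_left
      rw [Tm_add hMt (hM.bd z.1) (adm1 hρ hG l) (adm2 hρ hG l) (tr_add ρ G l)]
      exact enorm_add_le _ _
    · rw [lint_nu _ ((meas_Tm (adm1 hρ hG l).1 hM.meas).enorm.pow_const 2)]
      refine (H2 _ (adm1 hρ hG l)).trans (le_of_eq ?_)
      congr 1
      have hs : MeasurableSet {z : (Fin m → ℝ) × ℝ | l < ρ z.1 * ‖G z.1 z.2‖} :=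
        measurableSet_lt measurable_const (meas_f hρ hGm)
      rw [← lintegral_indicator hs,
        lint_mu hρ _ (((meas_f hρ hGm).ennreal_ofReal.pow_const 2).indicator hs)]
      refine lintegral_congr fun x => lintegral_congr fun η => ?_
      rw [pt1 hρ0 G hl]
    · rw [lint_nu _ ((meas_Tm (adm2 hρ hG l).1 hM.meas).enorm.pow_const 4)]
      refine (H4 _ (adm2 hρ hG l)).trans (le_of_eq ?_)
      congr 1
      have hs : MeasurableSet {z : (Fin m → ℝ) × ℝ | ρ z.1 * ‖G z.1 z.2‖ ≤ l} :=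
        measurableSet_le (meas_f hρ hGm) measurable_const
      rw [← lintegral_indicator hs,
        lint_mu hρ _ (((meas_f hρ hGm).ennreal_ofReal.pow_const 4).indicator hs)]
      refine lintegral_congr fun x => lintegral_congr fun η => ?_
      rw [pt2 hρ0 G l]

theorem tpw_thm : S_T2 → S_TPW := by
  intro H2 m ρ p hm hρ hρ0 _ hp2 hp4 H4 s hs
  obtain ⟨C2, hC2, K2⟩ := H2 m s hs
  obtain ⟨C4, hC4, K4⟩ := H4 s hs
  rcases hp2.eq_or_lt with h | h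
  · subst h
    refine ⟨C2, hC2, fun τ G hτ _ hG => ?_⟩
    have h3 := K2 τ G hτ hG
    simp only [sub_self, Real.rpow_zero, ENNReal.ofReal_one, one_mul, ENNReal.rpow_ofNat]
    exact h3
  · rcases hp4.eq_or_lt with h' | h'
    · subst h'
      refine ⟨C4, hC4, fun τ G hτ hτ1 hG => ?_⟩
      have h3 := K4 τ G hτ hτ1 hG
      have e1 : (4 : ℝ) - 2 = 2 := by norm_num
      simp only [e1, Real.rpow_two, ENNReal.rpow_ofNat]
      exact h3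
    · obtain ⟨C, hC, HC⟩ := interp p h h'
      refine ⟨C * C2 ^ ((4 - p) / 2) * C4 ^ ((p - 2) / 2), by positivity,
        fun τ G hτ hτ1 hG => ⟨?_, ?_⟩⟩
      · exact HC m ρ hρ hρ0 (mc s τ) C2 C4 (gb_mc hs hτ) hC2 hC4
          (fun G' hG' => (K2 τ G' hτ hG').1) (fun G' hG' => (K4 τ G' hτ hτ1 hG').1) G hG
      · exact HC m ρ hρ hρ0 (ms s τ) C2 C4 (gb_ms hs hτ) hC2 hC4
          (fun G' hG' => (K2 τ G' hτ hG').2) (fun G' hG' => (K4 τ G' hτ hτ1 hG').2) G hG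

end Pool.Agent.TH364.TPW
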