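import Mathlib
import Pool.Agent.TH364.Colorful

/-!
# Kirchberger-type lemmas: signed lifts of coloured points
-/

set_option autoImplicit false

open Module

namespace Pool.Agent.TH364.Kir

/-- points of `ℝ^d` -/
abbrev Pt (d : ℕ) := EuclideanSpace ℝ (Fin d)
/-- lifted space -/
abbrev Lf (d : ℕ) := WithLp 2 (Pt d × ℝ)

variable {d : ℕ}

lemma finrank_lf : finrank ℝ (Lf d) = d + 1 := by
  rw [(WithLp.linearEquiv 2 ℝ (Pt d × ℝ)).finrank_eq, Module.finrank_prod,
    finrank_euclideanSpace_fin, finrank_self]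

open Classical in
/-- sign of a point -/
noncomputable def sg (A : Finset (Pt d)) (x : Pt d) : ℝ := if x ∈ A then 1 else -1

/-- signed lift -/
noncomputable def u (A : Finset (Pt d)) (x : Pt d) : Lf d := sg A x • WithLp.toLp 2 (x, (1 : ℝ))

lemma inner_u (A : Finset (Pt d)) (x a : Pt d) (c : ℝ) :
    inner ℝ (WithLp.toLp 2 (a, c) : Lf d) (u A x) = sg A x * (inner ℝ a x + c) := by
  unfold u
  rw [real_inner_smul_right, WithLp.prod_inner_apply]
  simp

/-- the lifted points of `T` have the origin in their convex hull -/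
def Bad (A : Finset (Pt d)) (T : Finset (Pt d)) : Prop :=
  (0 : Lf d) ∈ convexHull ℝ (u A '' (T : Set (Pt d)))

lemma Bad.mono {A T T' : Finset (Pt d)} (h : T ⊆ T') (hT : Bad A T) : Bad A T' :=
  convexHull_mono (Set.image_mono (by exact_mod_cast h)) hT

/-- some hyperplane `{x : ⟪a, x⟫ = b}` has `P` and `Q` strictly on different sides -/
def Separated (P Q : Finset (Pt d)) : Prop :=
  ∃ (a : Pt d) (b : ℝ), a ≠ 0 ∧ (∀ p ∈ P, b < inner ℝ a p) ∧ (∀ q ∈ Q, inner ℝ a q < b)

lemma exists_ne_zero (hd : 1 ≤ d) : ∃ a : Pt d, a ≠ 0 := by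
  have : Nontrivial (Pt d) := by
    apply Module.nontrivial_of_finrank_pos (R := ℝ)
    rw [finrank_euclideanSpace_fin]; omega
  exact exists_ne 0

lemma separated_empty_right (hd : 1 ≤ d) (P : Finset (Pt d)) : Separated P ∅ := by
  obtain ⟨a, ha⟩ := exists_ne_zero hd
  obtain ⟨b, hb⟩ : ∃ b : ℝ, ∀ p ∈ P, b < inner ℝ a p := by
    rcases P.eq_empty_or_nonempty with rfl | hne
    · exact ⟨0, by simp⟩
    · obtain ⟨p0, _, h0⟩ := Finset.exists_min_image P (fun p => (inner ℝ a p : ℝ)) hne
      exact ⟨inner ℝ a p0 - 1, fun p hp => by have := h0 p hp; linarith⟩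
  exact ⟨a, b, ha, hb, by simp⟩

lemma Separated.symm {P Q : Finset (Pt d)} (h : Separated P Q) : Separated Q P := by
  obtain ⟨a, b, ha, h1, h2⟩ := h
  refine ⟨-a, -b, neg_ne_zero.2 ha, fun q hq => ?_, fun p hp => ?_⟩
  · rw [inner_neg_left]; have := h2 q hq; linarith
  · rw [inner_neg_left]; have := h1 p hp; linarith

lemma separated_empty_left (hd : 1 ≤ d) (P : Finset (Pt d)) : Separated ∅ P :=
  (separated_empty_right hd P).symm

lemma good_iff (hd : 1 ≤ d) {A B T : Finset (Pt d)} (hAB : Disjoint A B) (hT : T ⊆ A ∪ B) :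
    Separated (A ∩ T) (B ∩ T) ↔ ¬ Bad A T := by
  classical
  constructor
  · rintro ⟨a, b, _, h1, h2⟩ hbad
    have hsub : convexHull ℝ (u A '' (T : Set (Pt d))) ⊆
        {v | 0 < inner ℝ (WithLp.toLp 2 (a, -b) : Lf d) v} := by
      refine convexHull_min ?_ ?_
      · rintro _ ⟨x, hx, rfl⟩
        change 0 < inner ℝ (WithLp.toLp 2 (a, -b) : Lf d) (u A x)
        rw [inner_u]
        have hxT : x ∈ T := by exact_mod_cast hx
        by_cases hxA : x ∈ A
        · have := h1 x (Finset.mem_inter.2 ⟨hxA, hxT⟩)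
          unfold sg
          rw [if_pos hxA]; linarith
        · have hxB : x ∈ B := by
            rcases Finset.mem_union.1 (hT hxT) with h | h
            · exact absurd h hxA
            · exact h
          have := h2 x (Finset.mem_inter.2 ⟨hxB, hxT⟩)
          unfold sg
          rw [if_neg hxA]; linarith
      · exact convex_halfSpace_gt (IsLinearMap.mk (fun x y => inner_add_right _ _ _)
          (fun c x => real_inner_smul_right _ _ _)) 0
    have := hsub hbad
    simp at this
  · intro hbad
    rcases T.eq_empty_or_nonempty with rfl | hne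
    · simpa using separated_empty_right hd ∅
    obtain ⟨z, hz, hmin⟩ := Colorful.exists_near
      (Colorful.compact_hull (u A '' (T : Set (Pt d))) (T.finite_toSet.image _))
      ((Set.Nonempty.image _ (by exact_mod_cast hne)).convexHull (𝕜 := ℝ)) (convex_convexHull ℝ _)
    have hz0 : z ≠ 0 := by rintro rfl; exact hbad hz
    have hzz : 0 < inner ℝ z z := by
      rw [real_inner_self_eq_norm_sq]
      have := norm_pos_iff.2 hz0
      positivity
    have hpos : ∀ x ∈ T, 0 < sg A x * (inner ℝ z.ofLp.1 x + z.ofLp.2) := by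
      intro x hx
      have h1 := hmin (u A x) (subset_convexHull ℝ _ ⟨x, by exact_mod_cast hx, rfl⟩)
      rw [← inner_u]
      exact lt_of_lt_of_le hzz h1
    by_cases ha : z.ofLp.1 = 0
    · rw [ha] at hpos
      simp only [inner_zero_left, zero_add] at hpos
      rcases le_or_gt 0 z.ofLp.2 with hc | hc
      · have hB : B ∩ T = ∅ := by
          rw [Finset.eq_empty_iff_forall_notMem]
          intro x hx
          obtain ⟨hxB, hxT⟩ := Finset.mem_inter.1 hx
          have hxA : x ∉ A := fun h => (Finset.disjoint_left.1 hAB h) hxB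
          have := hpos x hxT
          unfold sg at this
          rw [if_neg hxA] at this
          linarith
        rw [hB]; exact separated_empty_right hd _
      · have hA : A ∩ T = ∅ := by
          rw [Finset.eq_empty_iff_forall_notMem]
          intro x hx
          obtain ⟨hxA, hxT⟩ := Finset.mem_inter.1 hx
          have := hpos x hxT
          unfold sg at this
          rw [if_pos hxA] at this
          linarith
        rw [hA]; exact separated_empty_left hd _
    · refine ⟨z.ofLp.1, -z.ofLp.2, ha, fun x hx => ?_, fun x hx => ?_⟩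
      · obtain ⟨hxA, hxT⟩ := Finset.mem_inter.1 hx
        have := hpos x hxT
        unfold sg at this
        rw [if_pos hxA] at this
        linarith
      · obtain ⟨hxB, hxT⟩ := Finset.mem_inter.1 hx
        have hxA : x ∉ A := fun h => (Finset.disjoint_left.1 hAB h) hxB
        have := hpos x hxT
        unfold sg at this
        rw [if_neg hxA] at this
        linarith

/-- no `d+1` points on a common hyperplane -/
def GenPos (X : Finset (Pt d)) : Prop :=
  ∀ T ⊆ X, T.card = d + 1 → AffineIndependent ℝ (fun x : T => (x : Pt d))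

lemma sg_ne (A : Finset (Pt d)) (x : Pt d) : sg A x ≠ 0 := by
  unfold sg; split_ifs <;> norm_num

lemma not_bad_small {A X S : Finset (Pt d)} (hX : GenPos X) (hcard : d + 1 ≤ X.card)
    (hS : S ⊆ X) (hSc : S.card ≤ d + 1) : ¬ Bad A S := by
  intro hbad
  obtain ⟨T, hST, hTX, hTc⟩ := Finset.exists_subsuperset_card_eq hS hSc hcard
  have hT := hX T hTX hTc
  obtain ⟨κ, _, v, c, hvr, hai, hc, hc1, hcz⟩ := eq_pos_convex_span_of_mem_convexHull hbad
  have hx : ∀ k, ∃ x ∈ S, u A x = v k := by
    intro k
    obtain ⟨x, hx, h⟩ := hvr ⟨k, rfl⟩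
    exact ⟨x, by exact_mod_cast hx, h⟩
  choose x hxS hxv using hx
  have hinj : Function.Injective (fun k => (⟨x k, hST (hxS k)⟩ : T)) := by
    intro k l h
    have h1 : x k = x l := congrArg Subtype.val h
    apply hai.injective
    rw [← hxv, ← hxv, h1]
  have hai2 := hT.comp_embedding ⟨_, hinj⟩
  rw [affineIndependent_iff] at hai2
  have hu : ∀ k, c k • v k = WithLp.toLp 2 ((c k * sg A (x k)) • x k, c k * sg A (x k)) := by
    intro k
    rw [← hxv]
    unfold u
    rw [← WithLp.toLp_smul, ← WithLp.toLp_smul]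
    congr 1
    simp [smul_smul]
  have h0 : ∑ k, (WithLp.toLp 2 ((c k * sg A (x k)) • x k, c k * sg A (x k)) : Lf d) = 0 := by
    rw [← hcz]
    exact Finset.sum_congr rfl fun k _ => (hu k).symm
  rw [← WithLp.toLp_sum] at h0
  have h1 : ∑ k, ((c k * sg A (x k)) • x k, c k * sg A (x k)) = (0 : Pt d × ℝ) := by
    have := congrArg WithLp.ofLp h0
    simpa using this
  have h2 : ∑ k, (c k * sg A (x k)) • x k = 0 := by
    have := congrArg Prod.fst h1
    rwa [Prod.fst_sum] at this
  have h3 : ∑ k, (c k * sg A (x k)) = 0 := by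
    have := congrArg Prod.snd h1
    rwa [Prod.snd_sum] at this
  have hne : Nonempty κ := by
    by_contra h
    rw [not_nonempty_iff] at h
    simp at hc1
  obtain ⟨k⟩ := hne
  have h4 := hai2 Finset.univ (fun k => c k * sg A (x k)) h3 h2 k (Finset.mem_univ k)
  rcases mul_eq_zero.1 h4 with h5 | h5
  · exact (hc k).ne' h5
  · exact sg_ne _ _ h5

lemma bad_cara {A T : Finset (Pt d)} (h : Bad A T) : ∃ S ⊆ T, S.card ≤ d + 2 ∧ Bad A S := by
  classical
  obtain ⟨κ, _, v, c, hvr, hai, hc, hc1, hcz⟩ := eq_pos_convex_span_of_mem_convexHull h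
  have hx : ∀ k, ∃ x ∈ T, u A x = v k := by
    intro k
    obtain ⟨x, hx, h⟩ := hvr ⟨k, rfl⟩
    exact ⟨x, by exact_mod_cast hx, h⟩
  choose x hxT hxv using hx
  refine ⟨Finset.univ.image x, ?_, ?_, ?_⟩
  · intro y hy
    obtain ⟨k, _, rfl⟩ := Finset.mem_image.1 hy
    exact hxT k
  · refine Finset.card_image_le.trans ?_
    rw [Finset.card_univ]
    have := hai.card_le_finrank_succ
    have h2 : finrank ℝ (vectorSpan ℝ (Set.range v)) ≤ d + 1 := by
      rw [← finrank_lf (d := d)]
      exact Submodule.finrank_le _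
    omega
  · unfold Bad
    rw [← hcz]
    refine (convex_convexHull ℝ _).sum_mem (fun k _ => (hc k).le) hc1
        (fun k _ => subset_convexHull ℝ _ ⟨x k, ?_, hxv k⟩)
    simp

/-- rainbow bad sets: one prescribed point and one point out of each of `d+1` bad sets -/
lemma rainbow {ι : Type*} [Fintype ι] [DecidableEq ι] (hι : d + 1 ≤ Fintype.card ι)
    (A : Finset (Pt d)) (T : ι → Finset (Pt d)) (hT : ∀ i, Bad A (T i)) (p : Pt d) :
    ∃ x : ι → Pt d, (∀ i, x i ∈ T i) ∧
      (0 : Lf d) ∈ convexHull ℝ (u A '' (insert p (Set.range x))) := by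
  classical
  obtain ⟨w, hw, h0⟩ := Colorful.colorful (E := Lf d) (ι := ι) (by rw [finrank_lf]; exact hι)
    (fun i => (T i).image (u A)) (fun i => by
      have := hT i
      unfold Bad at this
      rw [Finset.coe_image]; exact this) (u A p)
  have hx : ∀ i, ∃ x ∈ T i, u A x = w i := fun i => by
    simpa using hw i
  choose x hxT hxw using hx
  refine ⟨x, hxT, ?_⟩
  have : u A '' (insert p (Set.range x)) = insert (u A p) (Set.range w) := by
    rw [Set.image_insert_eq, ← Set.range_comp]
    congr 1
    congr 1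
    funext i
    exact hxw i
  rw [this]; exact h0

end Pool.Agent.TH364.Kir
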