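import Mathlib
import Pool.Agent.TH364.KirGeom

/-!
# Counting bad sets
-/

set_option autoImplicit false

open Module Finset

namespace Pool.Agent.TH364.Kir

variable {d : ℕ}

open Classical in
/-- all bad `(d+2)`-subsets of `X` -/
noncomputable def badSets (A X : Finset (Pt d)) : Finset (Finset (Pt d)) :=
  (X.powersetCard (d + 2)).filter (Bad A)

lemma mem_badSets {A X T : Finset (Pt d)} :
    T ∈ badSets A X ↔ T ⊆ X ∧ T.card = d + 2 ∧ Bad A T := by
  classical
  unfold badSets
  rw [mem_filter, mem_powersetCard, and_assoc]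

/-- a family of pairwise disjoint bad `(d+2)`-subsets -/
structure Packing (A X : Finset (Pt d)) (F : Finset (Finset (Pt d))) : Prop where
  bad : ∀ T ∈ F, T ∈ badSets A X
  disj : ∀ T ∈ F, ∀ T' ∈ F, T ≠ T' → Disjoint T T'

lemma exists_max_packing (A X : Finset (Pt d)) :
    ∃ F, Packing A X F ∧ ∀ T ∈ badSets A X, ¬ Disjoint T (F.biUnion id) := by
  classical
  obtain ⟨F, hF, hmax⟩ := exists_max_image ((badSets A X).powerset.filter (Packing A X))
    Finset.card ⟨∅, by
      rw [mem_filter, mem_powerset]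
      exact ⟨empty_subset _, ⟨by simp, by simp⟩⟩⟩
  rw [mem_filter, mem_powerset] at hF
  refine ⟨F, hF.2, fun T hT hdis => ?_⟩
  have hTF : T ∉ F := by
    intro h
    have h1 : T ⊆ F.biUnion id := subset_biUnion_of_mem id h
    have h2 : Disjoint T T := disjoint_of_subset_right h1 hdis
    rw [disjoint_self, bot_eq_empty] at h2
    have := (mem_badSets.1 hT).2.1
    rw [h2] at this
    simp at this
  have hins : insert T F ∈ (badSets A X).powerset.filter (Packing A X) := by
    rw [mem_filter, mem_powerset]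
    refine ⟨insert_subset hT hF.1, ⟨fun T' hT' => ?_, fun T1 h1 T2 h2 hne => ?_⟩⟩
    · rcases mem_insert.1 hT' with rfl | h
      · exact hT
      · exact hF.2.bad _ h
    · have key : ∀ T' ∈ F, Disjoint T T' := fun T' hT' =>
        disjoint_of_subset_right (subset_biUnion_of_mem id hT') hdis
      rcases mem_insert.1 h1 with e1 | e1
      · rcases mem_insert.1 h2 with e2 | e2
        · exact absurd (e1.trans e2.symm) hne
        · rw [e1]; exact key _ e2
      · rcases mem_insert.1 h2 with e2 | e2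
        · rw [e2]; exact (key _ e1).symm
        · exact hF.2.disj _ e1 _ e2 hne
  have := hmax _ hins
  rw [card_insert_of_notMem hTF] at this
  omega

lemma card_biUnion_packing {A X : Finset (Pt d)} {F : Finset (Finset (Pt d))}
    (hF : ∀ T ∈ F, T ∈ badSets A X) :
    (F.biUnion id).card ≤ F.card * (d + 2) := by
  classical
  exact card_biUnion_le_card_mul _ _ _ fun T hT => (mem_badSets.1 (hF T hT)).2.1.le

/-- if there is a bad set then there are many -/
lemma count_one {A X T : Finset (Pt d)} (hT : T ∈ badSets A X) :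
    X.card ≤ (badSets A X).card + (d + 1) := by
  classical
  obtain ⟨hTX, hTc, hTb⟩ := mem_badSets.1 hT
  have hex : ∀ p : Pt d, ∃ F : Finset (Pt d), p ∈ X \ T →
      F ∈ badSets A X ∧ p ∈ F ∧ F.erase p ⊆ T := by
    intro p
    by_cases hp : p ∈ X \ T
    · obtain ⟨hpX, hpT⟩ := mem_sdiff.1 hp
      obtain ⟨x, hx, h0⟩ := rainbow (ι := Fin (d + 1)) (by simp) A (fun _ => T)
        (fun _ => hTb) p
      have h1 : univ.image x ⊆ T := by
        intro y hy
        obtain ⟨i, _, rfl⟩ := mem_image.1 hy
        exact hx i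
      have h2 : (univ.image x).card ≤ d + 1 := card_image_le.trans (by simp)
      obtain ⟨S, hS1, hS2, hS3⟩ := exists_subsuperset_card_eq h1 h2 (by omega)
      have hpS : p ∉ S := fun h => hpT (hS2 h)
      refine ⟨insert p S, fun _ => ⟨mem_badSets.2 ⟨?_, ?_, ?_⟩, mem_insert_self _ _, ?_⟩⟩
      · exact insert_subset hpX (hS2.trans hTX)
      · rw [card_insert_of_notMem hpS, hS3]
      · refine convexHull_mono (Set.image_mono ?_) h0
        intro y hy
        rcases hy with rfl | ⟨i, rfl⟩
        · simp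
        · have := hS1 (mem_image_of_mem x (mem_univ i))
          simp [this]
      · rw [erase_insert hpS]; exact hS2
    · exact ⟨∅, fun h => absurd h hp⟩
  choose F hF using hex
  have hinj : Set.InjOn F (X \ T : Finset (Pt d)) := by
    intro p hp q hq hpq
    have hp' := mem_coe.1 hp
    have hq' := mem_coe.1 hq
    obtain ⟨_, h1, h2⟩ := hF p hp'
    obtain ⟨_, h3, h4⟩ := hF q hq'
    by_contra hne
    have h5 : p ∈ (F q).erase q := mem_erase.2 ⟨hne, hpq ▸ h1⟩
    exact (mem_sdiff.1 hp').2 (h4 h5)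
  have hsub : insert T ((X \ T).image F) ⊆ badSets A X := by
    refine insert_subset hT ?_
    intro S hS
    obtain ⟨p, hp, rfl⟩ := mem_image.1 hS
    exact (hF p hp).1
  have hTn : T ∉ (X \ T).image F := by
    intro h
    obtain ⟨p, hp, hpT⟩ := mem_image.1 h
    have := (hF p hp).2.1
    rw [hpT] at this
    exact (mem_sdiff.1 hp).2 this
  have h1 := card_le_card hsub
  rw [card_insert_of_notMem hTn, card_image_of_injOn hinj, card_sdiff_of_subset hTX, hTc] at h1
  omega

/-- the main count -/
lemma count_many {A X : Finset (Pt d)} {F : Finset (Finset (Pt d))} (hF : Packing A X F) :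
    (X.card - (d + 1) * (d + 2)) * F.card.choose (d + 1) ≤ (d + 2) * (badSets A X).card := by
  classical
  have hex : ∀ (I : Finset (Finset (Pt d))) (p : Pt d), ∃ G : Finset (Pt d),
      I ∈ F.powersetCard (d + 1) → p ∈ X \ I.biUnion id →
      G ∈ badSets A X ∧ p ∈ G ∧ (∀ T ∈ I, ∃ x ∈ T, x ∈ G ∧ x ≠ p) ∧
        (∀ x ∈ G, x ≠ p → ∃ T ∈ I, x ∈ T) := by
    intro I p
    by_cases hI : I ∈ F.powersetCard (d + 1)
    · by_cases hp : p ∈ X \ I.biUnion id
      · obtain ⟨hpX, hpI⟩ := mem_sdiff.1 hp
        obtain ⟨hIF, hIc⟩ := mem_powersetCard.1 hI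
        have hpT : ∀ T ∈ I, p ∉ T := fun T hT h => hpI (mem_biUnion.2 ⟨T, hT, h⟩)
        obtain ⟨x, hx, h0⟩ := rainbow (ι := {T // T ∈ I}) (by simp [hIc]) A (fun T => T.1)
          (fun T => (mem_badSets.1 (hF.bad T.1 (hIF T.2))).2.2) p
        have hxinj : Function.Injective x := by
          intro T T' h
          by_contra hne
          have hne' : T.1 ≠ T'.1 := fun h' => hne (Subtype.ext h')
          have hdis := hF.disj T.1 (hIF T.2) T'.1 (hIF T'.2) hne'
          exact (disjoint_left.1 hdis (hx T)) (h ▸ hx T')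
        have hpx : p ∉ univ.image x := by
          intro h
          obtain ⟨T, _, hT⟩ := mem_image.1 h
          exact hpT T.1 T.2 (hT ▸ hx T)
        refine ⟨insert p (univ.image x), fun _ _ => ⟨mem_badSets.2 ⟨?_, ?_, ?_⟩,
          mem_insert_self _ _, ?_, ?_⟩⟩
        · refine insert_subset hpX ?_
          intro y hy
          obtain ⟨T, _, rfl⟩ := mem_image.1 hy
          exact (mem_badSets.1 (hF.bad T.1 (hIF T.2))).1 (hx T)
        · rw [card_insert_of_notMem hpx, card_image_of_injective _ hxinj, card_univ,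
            Fintype.card_coe, hIc]
        · refine convexHull_mono (Set.image_mono ?_) h0
          intro y hy
          rcases hy with rfl | ⟨i, rfl⟩
          · simp
          · simp
        · intro T hT
          refine ⟨x ⟨T, hT⟩, hx _, ?_, ?_⟩
          · exact mem_insert_of_mem (mem_image_of_mem x (mem_univ _))
          · rintro h
            exact hpx (h ▸ mem_image_of_mem x (mem_univ _))
        · intro y hy hyp
          rcases mem_insert.1 hy with h | h
          · exact absurd h hyp
          · obtain ⟨T, _, rfl⟩ := mem_image.1 h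
            exact ⟨T.1, T.2, hx T⟩
      · exact ⟨∅, fun _ h => absurd h hp⟩
    · exact ⟨∅, fun h => absurd h hI⟩
  choose G hG using hex
  set P := (F.powersetCard (d + 1)).sigma (fun I => X \ I.biUnion id) with hP
  set Q := (badSets A X).sigma (fun S => S) with hQ
  have hmaps : ∀ q ∈ P, (⟨G q.1 q.2, q.2⟩ : (_ : Finset (Pt d)) × Pt d) ∈ Q := by
    rintro ⟨I, p⟩ hq
    rw [hP, mem_sigma] at hq
    rw [hQ, mem_sigma]
    have := hG I p hq.1 hq.2
    exact ⟨this.1, this.2.1⟩
  have key : ∀ I I' p, I ∈ F.powersetCard (d + 1) → I' ∈ F.powersetCard (d + 1) →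
      p ∈ X \ I.biUnion id → p ∈ X \ I'.biUnion id → G I p = G I' p → I ⊆ I' := by
    intro I I' p hI hI' hp hp' h T hT
    obtain ⟨_, _, h1, _⟩ := hG I p hI hp
    obtain ⟨_, _, _, h2⟩ := hG I' p hI' hp'
    obtain ⟨x, hxT, hxG, hxp⟩ := h1 T hT
    obtain ⟨T', hT', hxT'⟩ := h2 x (h ▸ hxG) hxp
    have hTT' : T = T' := by
      by_contra hne
      exact (disjoint_left.1 (hF.disj T ((mem_powersetCard.1 hI).1 hT) T'
        ((mem_powersetCard.1 hI').1 hT') hne) hxT) hxT'
    exact hTT' ▸ hT'
  have hinj : Set.InjOn (fun q : (_ : Finset (Finset (Pt d))) × Pt d =>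
      (⟨G q.1 q.2, q.2⟩ : (_ : Finset (Pt d)) × Pt d)) P := by
    rintro ⟨I, p⟩ hq ⟨I', p'⟩ hq' h
    have hq1 := mem_sigma.1 (mem_coe.1 hq)
    have hq1' := mem_sigma.1 (mem_coe.1 hq')
    simp only [Sigma.mk.injEq, heq_eq_eq] at h
    obtain ⟨h1, rfl⟩ := h
    have e1 := key I I' p hq1.1 hq1'.1 hq1.2 hq1'.2 h1
    have e2 := key I' I p hq1'.1 hq1.1 hq1'.2 hq1.2 h1.symm
    rw [subset_antisymm e1 e2]
  have hle : P.card ≤ Q.card := card_le_card_of_injOn _ (fun q hq => hmaps q hq) hinj
  have hQc : Q.card = (d + 2) * (badSets A X).card := by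
    rw [hQ, card_sigma, sum_congr rfl (fun S hS => (mem_badSets.1 hS).2.1), sum_const,
      smul_eq_mul, mul_comm]
  have hPc : (X.card - (d + 1) * (d + 2)) * F.card.choose (d + 1) ≤ P.card := by
    rw [hP, card_sigma]
    have h1 : ∀ I ∈ F.powersetCard (d + 1),
        X.card - (d + 1) * (d + 2) ≤ (X \ I.biUnion id).card := by
      intro I hI
      obtain ⟨hIF, hIc⟩ := mem_powersetCard.1 hI
      have h2 := card_biUnion_packing (A := A) (X := X) (F := I) (fun T hT => hF.bad T (hIF hT))
      rw [hIc] at h2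
      have h3 := le_card_sdiff (I.biUnion id) X
      have h4 : ((I.biUnion id).card) ≤ (d + 1) * (d + 2) := by convert h2
      omega
    have h5 := card_nsmul_le_sum _ _ _ h1
    rw [card_powersetCard, smul_eq_mul] at h5
    rw [mul_comm]; exact h5
  rw [← hQc]
  exact hPc.trans hle

end Pool.Agent.TH364.Kir
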