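import Mathlib
import Pool.Agent.TH364.KirGeom

/-!
# General position: moment curve and generic extension
-/

set_option autoImplicit false

open Module Finset

namespace Pool.Agent.TH364.Kir

variable {d : ℕ}

/-- every at most `d+1` points are affinely independent -/
def SGP (X : Finset (Pt d)) : Prop :=
  ∀ T ⊆ X, T.card ≤ d + 1 → AffineIndependent ℝ (fun x : T => (x : Pt d))

lemma SGP.genPos {X : Finset (Pt d)} (h : SGP X) : GenPos X := fun T hT hc => h T hT hc.le

lemma SGP.insert_of {X : Finset (Pt d)} (h : SGP X) {p : Pt d}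
    (hp : ∀ S ⊆ X, S.card ≤ d → p ∉ affineSpan ℝ (S : Set (Pt d))) : SGP (insert p X) := by
  classical
  intro T hT hc
  by_cases hpT : p ∈ T
  · have hS : T.erase p ⊆ X := by
      intro x hx
      obtain ⟨h1, h2⟩ := mem_erase.1 hx
      rcases mem_insert.1 (hT h2) with h3 | h3
      · exact absurd h3 h1
      · exact h3
    have hSc : (T.erase p).card ≤ d := by
      rw [card_erase_of_mem hpT]; omega
    have hSi := h _ hS (by omega)
    refine AffineIndependent.affineIndependent_of_notMem_span (i := (⟨p, hpT⟩ : T)) ?_ ?_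
    · have hinj : Function.Injective (fun x : {y : T // y ≠ ⟨p, hpT⟩} =>
          (⟨x.1.1, mem_erase.2 ⟨fun h => x.2 (Subtype.ext h), x.1.2⟩⟩ : (T.erase p : Finset (Pt d)))) := by
        intro x y hxy
        apply Subtype.ext
        apply Subtype.ext
        exact congrArg (fun z : (T.erase p : Finset (Pt d)) => (z : Pt d)) hxy
      exact hSi.comp_embedding ⟨_, hinj⟩
    · have himg : (fun x : T => (x : Pt d)) '' {x | x ≠ ⟨p, hpT⟩} = ((T.erase p : Finset (Pt d)) : Set (Pt d)) := by
        ext x
        constructor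
        · rintro ⟨y, hy, rfl⟩
          rw [mem_coe, mem_erase]
          exact ⟨fun h => hy (Subtype.ext h), y.2⟩
        · intro hx
          obtain ⟨h1, h2⟩ := mem_erase.1 (mem_coe.1 hx)
          exact ⟨⟨x, h2⟩, fun h => h1 (congrArg Subtype.val h), rfl⟩
      rw [himg]
      exact hp _ hS hSc
  · refine h T ?_ hc
    intro x hx
    rcases mem_insert.1 (hT hx) with h3 | h3
    · exact absurd (h3 ▸ hx) hpT
    · exact h3

lemma affineSpan_ne_top {S : Finset (Pt d)} (hS : S.card ≤ d) :
    affineSpan ℝ (S : Set (Pt d)) ≠ ⊤ := by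
  classical
  intro h
  rcases S.eq_empty_or_nonempty with rfl | hne
  · rw [coe_empty, AffineSubspace.span_empty] at h
    exact AffineSubspace.bot_ne_top ℝ _ _ h
  · have h1 : finrank ℝ (vectorSpan ℝ (S : Set (Pt d))) = d := by
      rw [← direction_affineSpan, h, AffineSubspace.direction_top, finrank_top,
        finrank_euclideanSpace_fin]
    obtain ⟨n, hn⟩ : ∃ n, S.card = n + 1 := ⟨S.card - 1, by have := hne.card_pos; omega⟩
    have h2 := finrank_vectorSpan_image_finset_le ℝ (fun x : Pt d => x) S hn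
    rw [image_id'] at h2
    omega

lemma exists_generic (hd : 1 ≤ d) {X : Finset (Pt d)} (h : SGP X) {U : Set (Pt d)}
    (hU : IsOpen U) (hne : U.Nonempty) : ∃ p ∈ U, p ∉ X ∧ SGP (insert p X) := by
  classical
  by_contra hcon
  push Not at hcon
  set 𝒮 := X.powerset.filter (fun S => S.card ≤ d) with h𝒮
  have hsub : U ⊆ ⋃ S ∈ 𝒮, (affineSpan ℝ (S : Set (Pt d)) : Set (Pt d)) := by
    intro p hp
    by_contra hnot
    simp only [Set.mem_iUnion, not_exists] at hnot
    have h1 : ∀ S ⊆ X, S.card ≤ d → p ∉ affineSpan ℝ (S : Set (Pt d)) := by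
      intro S hS hc
      exact hnot S (by rw [h𝒮, mem_filter, mem_powerset]; exact ⟨hS, hc⟩)
    have hpX : p ∉ X := by
      intro hpX
      refine h1 {p} (singleton_subset_iff.2 hpX) (by rw [card_singleton]; exact hd) ?_
      exact subset_affineSpan ℝ _ (by simp)
    exact hcon p hp hpX (h.insert_of h1)
  have h0 : MeasureTheory.volume (⋃ S ∈ 𝒮, (affineSpan ℝ (S : Set (Pt d)) : Set (Pt d))) = 0 := by
    refine le_antisymm ((MeasureTheory.measure_biUnion_finset_le 𝒮 _).trans ?_) zero_le
    refine (sum_eq_zero fun S hS => ?_).le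
    rw [h𝒮, mem_filter] at hS
    exact MeasureTheory.Measure.addHaar_affineSubspace _ _ (affineSpan_ne_top hS.2)
  have h1 : MeasureTheory.volume U = 0 :=
    le_antisymm ((MeasureTheory.measure_mono hsub).trans h0.le) zero_le
  exact (hU.measure_pos MeasureTheory.volume hne).ne' h1

lemma exists_generic_many (hd : 1 ≤ d) {X : Finset (Pt d)} (h : SGP X) {U : Set (Pt d)}
    (hU : IsOpen U) (hne : U.Nonempty) (n : ℕ) :
    ∃ F : Finset (Pt d), F.card = n ∧ Disjoint X F ∧ (∀ p ∈ F, p ∈ U) ∧ SGP (X ∪ F) := by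
  classical
  induction n with
  | zero => exact ⟨∅, rfl, disjoint_empty_right _, by simp, by simpa using h⟩
  | succ n ih =>
    obtain ⟨F, hc, hdis, hFU, hF⟩ := ih
    obtain ⟨p, hpU, hpX, hp⟩ := exists_generic hd hF hU hne
    rw [mem_union, not_or] at hpX
    refine ⟨insert p F, ?_, ?_, ?_, ?_⟩
    · rw [card_insert_of_notMem hpX.2, hc]
    · rw [disjoint_insert_right]; exact ⟨hpX.1, hdis⟩
    · intro q hq
      rcases mem_insert.1 hq with rfl | hq
      · exact hpU
      · exact hFU q hq
    · rw [union_insert]; exact hp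

/-- moment curve -/
noncomputable def mc (d : ℕ) (t : ℝ) : Pt d := WithLp.toLp 2 (fun i : Fin d => t ^ (i.1 + 1))

lemma mc_apply (t : ℝ) (i : Fin d) : mc d t i = t ^ (i.1 + 1) := rfl

lemma mc_injective (hd : 1 ≤ d) : Function.Injective (mc d) := by
  intro s t h
  have h1 := congrArg (fun x : Pt d => x ⟨0, hd⟩) h
  simpa [mc_apply] using h1

/-- weights on the moment curve annihilate polynomials of degree at most `d` -/
lemma mc_poly {ι : Type*} (s : Finset ι) (w : ι → ℝ) (t : ι → ℝ) (h0 : ∑ i ∈ s, w i = 0)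
    (h1 : ∑ i ∈ s, w i • mc d (t i) = 0) (p : Polynomial ℝ) (hp : p.natDegree < d + 1) :
    ∑ i ∈ s, w i * p.eval (t i) = 0 := by
  have h2 : ∀ k ∈ range (d + 1), ∑ i ∈ s, w i * t i ^ k = 0 := by
    intro k hk
    rcases Nat.eq_zero_or_pos k with rfl | hk0
    · simpa using h0
    · have hkd : k - 1 < d := by have := mem_range.1 hk; omega
      have h3 := congrArg (fun x : Pt d => x ⟨k - 1, hkd⟩) h1
      simp only [PiLp.zero_apply] at h3
      rw [← h3]
      have : (∑ i ∈ s, w i • mc d (t i)) ⟨k - 1, hkd⟩ = ∑ i ∈ s, (w i • mc d (t i)) ⟨k - 1, hkd⟩ := by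
        simp
      rw [this]
      refine sum_congr rfl fun i _ => ?_
      rw [PiLp.smul_apply, mc_apply, smul_eq_mul]
      congr 2
      change k = k - 1 + 1
      omega
  calc ∑ i ∈ s, w i * p.eval (t i)
      = ∑ i ∈ s, ∑ k ∈ range (d + 1), p.coeff k * (w i * t i ^ k) := by
        refine sum_congr rfl fun i _ => ?_
        rw [Polynomial.eval_eq_sum_range' hp, mul_sum]
        exact sum_congr rfl fun k _ => by ring
    _ = ∑ k ∈ range (d + 1), p.coeff k * ∑ i ∈ s, w i * t i ^ k := by
        rw [sum_comm]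
        exact sum_congr rfl fun k _ => by rw [mul_sum]
    _ = 0 := sum_eq_zero fun k hk => by rw [h2 k hk, mul_zero]

open Classical in
lemma mc_sgp (S : Finset ℝ) : SGP (S.image (mc d)) := by
  classical
  intro T hT hc
  have ht : ∀ x : T, ∃ t : ℝ, mc d t = x := by
    intro x
    obtain ⟨t, _, h⟩ := mem_image.1 (hT x.2)
    exact ⟨t, h⟩
  choose t ht using ht
  have htinj : Function.Injective t := by
    intro x y h
    apply Subtype.ext
    rw [← ht, ← ht, h]
  rw [affineIndependent_iff]
  intro s w hw hx x0 hx0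
  have hx' : ∑ i ∈ s, w i • mc d (t i) = 0 := by
    rw [← hx]
    exact sum_congr rfl fun i _ => by rw [ht]
  set p : Polynomial ℝ := ∏ y ∈ s.erase x0, (Polynomial.X - Polynomial.C (t y)) with hp
  have hdeg : p.natDegree < d + 1 := by
    rw [hp, Polynomial.natDegree_prod_of_monic _ _ (fun y _ => Polynomial.monic_X_sub_C _)]
    simp only [Polynomial.natDegree_X_sub_C, sum_const, smul_eq_mul, mul_one]
    rw [card_erase_of_mem hx0]
    have h1 : s.card ≤ T.card := by
      calc s.card ≤ (univ : Finset T).card := card_le_card (subset_univ _)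
        _ = T.card := by rw [card_univ, Fintype.card_coe]
    have h2 : 0 < s.card := card_pos.2 ⟨x0, hx0⟩
    omega
  have h := mc_poly s w t hw hx' p hdeg
  rw [sum_eq_single x0] at h
  · rcases mul_eq_zero.1 h with h1 | h1
    · exact h1
    · exfalso
      rw [hp, Polynomial.eval_prod, prod_eq_zero_iff] at h1
      obtain ⟨y, hy, h2⟩ := h1
      simp only [Polynomial.eval_sub, Polynomial.eval_X, Polynomial.eval_C] at h2
      exact (mem_erase.1 hy).1 (htinj (sub_eq_zero.1 h2)).symm
  · intro y hy hne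
    have : p.eval (t y) = 0 := by
      rw [hp, Polynomial.eval_prod]
      exact prod_eq_zero (mem_erase.2 ⟨hne, hy⟩) (by simp)
    rw [this, mul_zero]
  · intro h; exact absurd hx0 h

end Pool.Agent.TH364.Kir
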