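import Mathlib
import Pool.Agent.TH364.KirGen
import Pool.Agent.TH364.KirCount

/-!
# The exponent is best possible: construction
-/

set_option autoImplicit false

open Module Finset

namespace Pool.Agent.TH364.Kir

variable {e : ℕ}

/-- far region, low -/
def Ulow (e : ℕ) (R : ℝ) : Set (Pt (e + 1)) :=
  {x | x (Fin.last e) < -R ∧ ∀ i : Fin e, |x i.castSucc| < 1}

/-- far region, high -/
def Uhigh (e : ℕ) (R : ℝ) : Set (Pt (e + 1)) :=
  {x | R < x (Fin.last e) ∧ ∀ i : Fin e, |x i.castSucc| < 1}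

lemma isOpen_box (e : ℕ) : IsOpen {x : Pt (e + 1) | ∀ i : Fin e, |x i.castSucc| < 1} := by
  have : {x : Pt (e + 1) | ∀ i : Fin e, |x i.castSucc| < 1} =
      ⋂ i : Fin e, {x : Pt (e + 1) | |x i.castSucc| < 1} := by
    ext x; simp
  rw [this]
  exact isOpen_iInter_of_finite fun i => isOpen_lt (by fun_prop) continuous_const

lemma isOpen_Ulow (R : ℝ) : IsOpen (Ulow e R) := by
  have h1 : IsOpen {x : Pt (e + 1) | x (Fin.last e) < -R} := isOpen_lt (by fun_prop) continuous_const
  exact h1.inter (isOpen_box e)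

lemma isOpen_Uhigh (R : ℝ) : IsOpen (Uhigh e R) := by
  have h1 : IsOpen {x : Pt (e + 1) | R < x (Fin.last e)} := isOpen_lt continuous_const (by fun_prop)
  exact h1.inter (isOpen_box e)

lemma Ulow_nonempty (R : ℝ) : (Ulow e R).Nonempty := by
  refine ⟨WithLp.toLp 2 (fun i => if i = Fin.last e then -R - 1 else 0), ?_, fun i => ?_⟩
  · change (if Fin.last e = Fin.last e then -R - 1 else 0) < -R
    rw [if_pos rfl]; linarith
  · change |(if i.castSucc = Fin.last e then -R - 1 else 0)| < 1
    rw [if_neg (Fin.castSucc_lt_last i).ne]; simp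

lemma Uhigh_nonempty (R : ℝ) : (Uhigh e R).Nonempty := by
  refine ⟨WithLp.toLp 2 (fun i => if i = Fin.last e then R + 1 else 0), ?_, fun i => ?_⟩
  · change R < (if Fin.last e = Fin.last e then R + 1 else 0)
    rw [if_pos rfl]; linarith
  · change |(if i.castSucc = Fin.last e then R + 1 else 0)| < 1
    rw [if_neg (Fin.castSucc_lt_last i).ne]; simp

/-- normal vector built from a polynomial -/
noncomputable def nv (e : ℕ) (q : Polynomial ℝ) (l : ℝ) : Pt (e + 1) :=
  WithLp.toLp 2 (fun i => if i = Fin.last e then -l else q.coeff (i.1 + 1))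

lemma inner_nv (q : Polynomial ℝ) (l : ℝ) (x : Pt (e + 1)) :
    inner ℝ (nv e q l) x = ∑ i : Fin e, q.coeff (i.1 + 1) * x i.castSucc - l * x (Fin.last e) := by
  rw [PiLp.inner_apply, Fin.sum_univ_castSucc]
  have h1 : ∀ i : Fin e, inner ℝ ((nv e q l) i.castSucc) (x i.castSucc) =
      q.coeff (i.1 + 1) * x i.castSucc := by
    intro i
    have : (nv e q l) i.castSucc = q.coeff (i.1 + 1) := by
      change (if i.castSucc = Fin.last e then -l else q.coeff (i.castSucc.1 + 1)) = _
      rw [if_neg (Fin.castSucc_lt_last i).ne]; rfl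
    rw [this]; simp [mul_comm]
  have h2 : inner ℝ ((nv e q l) (Fin.last e)) (x (Fin.last e)) = - (l * x (Fin.last e)) := by
    have : (nv e q l) (Fin.last e) = -l := by
      change (if Fin.last e = Fin.last e then -l else q.coeff ((Fin.last e).1 + 1)) = _
      rw [if_pos rfl]
    rw [this]; simp; ring
  rw [sum_congr rfl (fun i _ => h1 i), h2]; ring

lemma inner_nv_mc (q : Polynomial ℝ) (hq : q.natDegree < e + 1) (l t : ℝ) :
    inner ℝ (nv e q l) (mc (e + 1) t) + q.coeff 0 = q.eval t - l * t ^ (e + 1) := by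
  rw [inner_nv, Polynomial.eval_eq_sum_range' hq, sum_range_succ', ← Fin.sum_univ_eq_sum_range
    (fun i => q.coeff (i + 1) * t ^ (i + 1)) e]
  simp only [mc_apply, Fin.val_castSucc, Fin.val_last, pow_zero, mul_one]
  ring

lemma inner_nv_far (q : Polynomial ℝ) (l : ℝ) {x : Pt (e + 1)} {K : ℝ}
    (hK : ∑ i ∈ range (e + 1), |q.coeff i| ≤ K) (hx : ∀ i : Fin e, |x i.castSucc| < 1) :
    |inner ℝ (nv e q l) x + q.coeff 0 + l * x (Fin.last e)| ≤ K := by
  rw [inner_nv]
  have h1 : ∑ i : Fin e, q.coeff (i.1 + 1) * x i.castSucc - l * x (Fin.last e) + q.coeff 0 +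
      l * x (Fin.last e) = ∑ i : Fin e, q.coeff (i.1 + 1) * x i.castSucc + q.coeff 0 := by ring
  rw [h1]
  refine (abs_add_le _ _).trans (le_trans ?_ hK)
  rw [sum_range_succ', ← Fin.sum_univ_eq_sum_range (fun i => |q.coeff (i + 1)|) e]
  gcongr
  refine (abs_sum_le_sum_abs _ _).trans (sum_le_sum fun i _ => ?_)
  rw [abs_mul]
  exact mul_le_of_le_one_right (abs_nonneg _) (hx i).le

open Classical in
/-- interpolating polynomial of the colouring -/
noncomputable def qS (S : Finset ℕ) : Polynomial ℝ :=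
  Lagrange.interpolate S (fun j : ℕ => (j : ℝ)) (fun j => if Even j then 1 else -1)

lemma qS_deg {S : Finset ℕ} (hS : S.card ≤ e + 1) : (qS S).natDegree < e + 1 := by
  by_cases h : qS S = 0
  · rw [h]; simp
  · rw [Polynomial.natDegree_lt_iff_degree_lt h]
    refine (Lagrange.degree_interpolate_lt _
      (fun a _ b _ hab => Nat.cast_injective (R := ℝ) hab)).trans_le ?_
    exact_mod_cast hS

lemma qS_eval {S : Finset ℕ} {j : ℕ} (hj : j ∈ S) :
    (qS S).eval (j : ℝ) = if Even j then 1 else -1 :=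
  Lagrange.eval_interpolate_at_node (v := fun j : ℕ => (j : ℝ)) _
    (fun a _ b _ hab => Nat.cast_injective (R := ℝ) hab) hj

lemma construct (e M L : ℕ) : ∃ A B : Finset (Pt (e + 1)), Disjoint A B ∧ A.card = M + L ∧
    B.card = M + L ∧ SGP (A ∪ B) ∧
    (badSets A (A ∪ B)).card ≤ (2 * M).choose (e + 2) * (2 * (M + L)) ∧
    (∀ A' ⊆ A, ∀ B' ⊆ B, Separated A' B' → M ≤ (A \ A').card + (B \ B').card + (e + 1)) := by
  classical
  have hd : 1 ≤ e + 1 := by omega
  have hinj := mc_injective hd
  set l : ℝ := 1 / (1 + (2 * M : ℝ) ^ (e + 1)) with hl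
  have hlpos : 0 < l := by positivity
  set K : ℝ := ∑ S ∈ (range (2 * M)).powerset, ∑ i ∈ range (e + 1), |(qS S).coeff i| with hKdef
  have hK : ∀ S ⊆ range (2 * M), ∑ i ∈ range (e + 1), |(qS S).coeff i| ≤ K := by
    intro S hS
    exact single_le_sum (f := fun S => ∑ i ∈ range (e + 1), |(qS S).coeff i|)
      (fun S _ => sum_nonneg fun i _ => abs_nonneg _) (mem_powerset.2 hS)
  set R : ℝ := K / l with hR
  have hlR : l * R = K := by rw [hR]; field_simp
  -- the mixed points
  set Mix : Finset (Pt (e + 1)) := (range (2 * M)).image (fun j : ℕ => mc (e + 1) (j : ℝ)) with hMix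
  set Am : Finset (Pt (e + 1)) := (range M).image (fun j : ℕ => mc (e + 1) ((2 * j : ℕ) : ℝ)) with hAm
  set Bm : Finset (Pt (e + 1)) := (range M).image (fun j : ℕ => mc (e + 1) ((2 * j + 1 : ℕ) : ℝ)) with hBm
  have hmcj : ∀ i j : ℕ, mc (e + 1) (i : ℝ) = mc (e + 1) (j : ℝ) → i = j := fun i j h => by
    exact_mod_cast hinj h
  have hAmMix : Am ⊆ Mix := by
    intro x hx
    obtain ⟨j, hj, rfl⟩ := mem_image.1 hx
    exact mem_image.2 ⟨2 * j, mem_range.2 (by have := mem_range.1 hj; omega), rfl⟩
  have hBmMix : Bm ⊆ Mix := by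
    intro x hx
    obtain ⟨j, hj, rfl⟩ := mem_image.1 hx
    exact mem_image.2 ⟨2 * j + 1, mem_range.2 (by have := mem_range.1 hj; omega), rfl⟩
  have hMixsgp : SGP Mix := by
    have : Mix = ((range (2 * M)).image (fun j : ℕ => (j : ℝ))).image (mc (e + 1)) := by
      rw [hMix, image_image]; rfl
    rw [this]
    convert mc_sgp (d := e + 1) _
  have hABm : Am ∪ Bm = Mix := by
    refine subset_antisymm (union_subset hAmMix hBmMix) ?_
    intro x hx
    obtain ⟨j, hj, rfl⟩ := mem_image.1 hx
    have hj' := mem_range.1 hj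
    rcases Nat.even_or_odd' j with ⟨i, rfl | rfl⟩
    · exact mem_union_left _ (mem_image.2 ⟨i, mem_range.2 (by omega), rfl⟩)
    · exact mem_union_right _ (mem_image.2 ⟨i, mem_range.2 (by omega), rfl⟩)
  have hABmdis : Disjoint Am Bm := by
    rw [disjoint_left]
    intro x hx hx'
    obtain ⟨j, _, hj⟩ := mem_image.1 hx
    obtain ⟨i, _, hi⟩ := mem_image.1 hx'
    have := hmcj _ _ (hj.trans hi.symm)
    omega
  have hAmc : Am.card = M := by
    rw [hAm, card_image_of_injective, card_range]
    intro i j h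
    have := hmcj _ _ h
    omega
  have hBmc : Bm.card = M := by
    rw [hBm, card_image_of_injective, card_range]
    intro i j h
    have := hmcj _ _ h
    omega
  -- far points
  obtain ⟨Af, hAfc, hAfdis, hAfU, hAfsgp⟩ := exists_generic_many hd hMixsgp
    (isOpen_Ulow (e := e) R) (Ulow_nonempty R) L
  obtain ⟨Bf, hBfc, hBfdis, hBfU, hBfsgp⟩ := exists_generic_many hd hAfsgp
    (isOpen_Uhigh (e := e) R) (Uhigh_nonempty R) L
  rw [disjoint_union_left] at hBfdis
  have d1 : Disjoint Am Af := disjoint_of_subset_left hAmMix hAfdis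
  have d2 : Disjoint Bm Af := disjoint_of_subset_left hBmMix hAfdis
  have d3 : Disjoint Am Bf := disjoint_of_subset_left hAmMix hBfdis.1
  have d4 : Disjoint Bm Bf := disjoint_of_subset_left hBmMix hBfdis.1
  have hun : (Am ∪ Af) ∪ (Bm ∪ Bf) = (Mix ∪ Af) ∪ Bf := by
    rw [← hABm]; ext x; simp only [mem_union]; tauto
  have hdisAB : Disjoint (Am ∪ Af) (Bm ∪ Bf) := by
    rw [disjoint_union_left, disjoint_union_right, disjoint_union_right]
    exact ⟨⟨hABmdis, d3⟩, ⟨d2.symm, hBfdis.2⟩⟩
  -- separation of sets with few mixed points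
  have hsep : ∀ T ⊆ (Am ∪ Af) ∪ (Bm ∪ Bf), (T ∩ Mix).card ≤ e + 1 →
      Separated ((Am ∪ Af) ∩ T) ((Bm ∪ Bf) ∩ T) := by
    intro T _ hTc
    set S : Finset ℕ := (range (2 * M)).filter (fun j : ℕ => mc (e + 1) (j : ℝ) ∈ T) with hS
    have hSsub : S ⊆ range (2 * M) := filter_subset _ _
    have hSc : S.card ≤ e + 1 := by
      refine le_trans ?_ hTc
      rw [← card_image_of_injective S (f := fun j : ℕ => mc (e + 1) (j : ℝ)) (fun i j h => hmcj i j h)]
      refine card_le_card ?_
      intro x hx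
      obtain ⟨j, hj, rfl⟩ := mem_image.1 hx
      rw [hS, mem_filter] at hj
      exact mem_inter.2 ⟨hj.2, mem_image.2 ⟨j, hj.1, rfl⟩⟩
    have hdeg := qS_deg (e := e) hSc
    have hpw : ∀ j : ℕ, j < 2 * M → 0 ≤ l * (j : ℝ) ^ (e + 1) ∧ l * (j : ℝ) ^ (e + 1) < 1 := by
      intro j hj
      refine ⟨by positivity, ?_⟩
      rw [hl, div_mul_eq_mul_div, one_mul, div_lt_one (by positivity)]
      have h1 : (j : ℝ) ^ (e + 1) ≤ (2 * M : ℝ) ^ (e + 1) := by
        refine pow_le_pow_left₀ (by positivity) ?_ _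
        exact_mod_cast hj.le
      linarith
    have ha : nv e (qS S) l ≠ 0 := by
      intro h
      have h1 := congrArg (fun x : Pt (e + 1) => x (Fin.last e)) h
      have h2 : (nv e (qS S) l) (Fin.last e) = -l := by
        change (if Fin.last e = Fin.last e then -l else (qS S).coeff ((Fin.last e).1 + 1)) = _
        rw [if_pos rfl]
      simp only [h2, PiLp.zero_apply] at h1
      linarith
    refine ⟨nv e (qS S) l, -(qS S).coeff 0, ha, fun x hx => ?_, fun x hx => ?_⟩
    · obtain ⟨hxA, hxT⟩ := mem_inter.1 hx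
      rcases mem_union.1 hxA with hx1 | hx1
      · obtain ⟨j, hj, rfl⟩ := mem_image.1 hx1
        have hj2 : 2 * j < 2 * M := by have := mem_range.1 hj; omega
        have h1 := inner_nv_mc (qS S) hdeg l ((2 * j : ℕ) : ℝ)
        rw [qS_eval (by rw [hS, mem_filter]; exact ⟨mem_range.2 hj2, hxT⟩),
          if_pos (even_two_mul j)] at h1
        have h2 := hpw _ hj2
        linarith [h2.2]
      · have h1 := hAfU x hx1
        have h2 := inner_nv_far (qS S) l (hK S hSsub) h1.2
        have h3 := neg_le_of_abs_le h2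
        have h4 : l * x (Fin.last e) < l * (-R) := mul_lt_mul_of_pos_left h1.1 hlpos
        linarith
    · obtain ⟨hxA, hxT⟩ := mem_inter.1 hx
      rcases mem_union.1 hxA with hx1 | hx1
      · obtain ⟨j, hj, rfl⟩ := mem_image.1 hx1
        have hj2 : 2 * j + 1 < 2 * M := by have := mem_range.1 hj; omega
        have h1 := inner_nv_mc (qS S) hdeg l ((2 * j + 1 : ℕ) : ℝ)
        rw [qS_eval (by rw [hS, mem_filter]; exact ⟨mem_range.2 hj2, hxT⟩),
          if_neg (Nat.not_even_iff_odd.2 (odd_two_mul_add_one j))] at h1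
        have h2 := hpw _ hj2
        linarith [h2.1]
      · have h1 := hBfU x hx1
        have h2 := inner_nv_far (qS S) l (hK S hSsub) h1.2
        have h3 := le_of_abs_le h2
        have h4 : l * R < l * x (Fin.last e) := mul_lt_mul_of_pos_left h1.1 hlpos
        linarith
  refine ⟨Am ∪ Af, Bm ∪ Bf, hdisAB, ?_, ?_, ?_, ?_, ?_⟩
  · rw [card_union_of_disjoint d1, hAmc, hAfc]
  · rw [card_union_of_disjoint d4, hBmc, hBfc]
  · rw [hun]; exact hBfsgp
  · -- counting bad sets
    set X := (Am ∪ Af) ∪ (Bm ∪ Bf) with hX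
    have hXc : X.card = 2 * (M + L) := by
      rw [hX, card_union_of_disjoint hdisAB, card_union_of_disjoint d1, card_union_of_disjoint d4,
        hAmc, hAfc, hBmc, hBfc]; ring
    have hsub : badSets (Am ∪ Af) X ⊆ ((Mix.powersetCard (e + 2)) ×ˢ X).image
        (fun q => insert q.2 q.1) := by
      intro T hT
      obtain ⟨hTX, hTc, hTb⟩ := mem_badSets.1 hT
      have h1 : e + 2 ≤ (T ∩ Mix).card := by
        by_contra hlt
        exact (good_iff hd hdisAB hTX).1 (hsep T hTX (by omega)) hTb
      obtain ⟨I, hI, hIc⟩ := exists_subset_card_eq h1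
      have hIT : I ⊆ T := hI.trans inter_subset_left
      have hdc : (T \ I).card = 1 := by
        rw [card_sdiff_of_subset hIT, hTc, hIc]; omega
      obtain ⟨p, hp⟩ := card_eq_one.1 hdc
      have hpT : p ∈ T := by
        have : p ∈ T \ I := by rw [hp]; exact mem_singleton_self p
        exact (mem_sdiff.1 this).1
      refine mem_image.2 ⟨(I, p), mem_product.2 ⟨mem_powersetCard.2 ⟨hI.trans inter_subset_right, hIc⟩,
        hTX hpT⟩, ?_⟩
      change insert p I = T
      rw [insert_eq, ← hp, sdiff_union_of_subset hIT]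
    refine (card_le_card hsub).trans (card_image_le.trans ?_)
    rw [card_product, card_powersetCard, hXc]
    refine Nat.mul_le_mul_right _ (Nat.choose_le_choose _ ?_)
    exact card_image_le.trans (by rw [card_range])
  · -- loss
    rintro A' hA' B' hB' ⟨a, b, ha, h1, h2⟩
    set J := (range M).filter (fun j : ℕ => mc (e + 1) ((2 * j : ℕ) : ℝ) ∈ A' ∧
      mc (e + 1) ((2 * j + 1 : ℕ) : ℝ) ∈ B') with hJ
    -- the polynomial
    set p : Polynomial ℝ := ∑ i : Fin (e + 1), Polynomial.monomial (i.1 + 1) (a i) -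
      Polynomial.C b with hp
    have heval : ∀ t : ℝ, p.eval t = inner ℝ a (mc (e + 1) t) - b := by
      intro t
      rw [hp, Polynomial.eval_sub, Polynomial.eval_C, Polynomial.eval_finsetSum, PiLp.inner_apply]
      congr 1
      refine sum_congr rfl fun i _ => ?_
      rw [Polynomial.eval_monomial, mc_apply]
      simp [mul_comm]
    have hpne : p ≠ 0 := by
      intro h0
      apply ha
      ext i
      have h3 := congrArg (fun q : Polynomial ℝ => q.coeff (i.1 + 1)) h0
      simp only [hp, Polynomial.coeff_sub, Polynomial.finsetSum_coeff, Polynomial.coeff_monomial,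
        Polynomial.coeff_C, Polynomial.coeff_zero] at h3
      rw [sum_eq_single i] at h3
      · simpa using h3
      · intro k _ hk
        rw [if_neg]
        intro h; apply hk; apply Fin.ext; omega
      · intro h; exact absurd (mem_univ i) h
    have hpdeg : p.natDegree ≤ e + 1 := by
      rw [hp]
      refine (Polynomial.natDegree_sub_le _ _).trans (max_le ?_ (by simp))
      refine Polynomial.natDegree_sum_le_of_forall_le _ _ fun i _ => ?_
      exact (Polynomial.natDegree_monomial_le _).trans (by have := i.2; omega)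
    have hroot : ∀ j : ℕ, ∃ r : ℝ, j ∈ J → p.IsRoot r ∧ ((2 * j : ℕ) : ℝ) < r ∧
        r < ((2 * j + 1 : ℕ) : ℝ) := by
      intro j
      by_cases hj : j ∈ J
      · rw [hJ, mem_filter] at hj
        have e1 := h1 _ hj.2.1
        have e2 := h2 _ hj.2.2
        have e3 : 0 < p.eval ((2 * j : ℕ) : ℝ) := by rw [heval]; linarith
        have e4 : p.eval ((2 * j + 1 : ℕ) : ℝ) < 0 := by rw [heval]; linarith
        have hle : ((2 * j : ℕ) : ℝ) ≤ ((2 * j + 1 : ℕ) : ℝ) := by push_cast; linarith
        obtain ⟨r, hr, hr0⟩ := intermediate_value_Ioo' hle p.continuous.continuousOn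
          ⟨e4, e3⟩
        exact ⟨r, fun _ => ⟨hr0, hr.1, hr.2⟩⟩
      · exact ⟨0, fun h => absurd h hj⟩
    choose r hr using hroot
    have hJc : J.card ≤ e + 1 := by
      have hrinj : Set.InjOn r J := by
        intro i hi j hj hij
        obtain ⟨_, a1, a2⟩ := hr i hi
        obtain ⟨_, b1, b2⟩ := hr j hj
        rw [hij] at a1 a2
        have c1 : ((2 * i : ℕ) : ℝ) < ((2 * j + 1 : ℕ) : ℝ) := a1.trans b2
        have c2 : ((2 * j : ℕ) : ℝ) < ((2 * i + 1 : ℕ) : ℝ) := b1.trans a2
        have c3 : 2 * i < 2 * j + 1 := by exact_mod_cast c1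
        have c4 : 2 * j < 2 * i + 1 := by exact_mod_cast c2
        omega
      have hsubr : J.image r ⊆ p.roots.toFinset := by
        intro x hx
        obtain ⟨j, hj, rfl⟩ := mem_image.1 hx
        rw [Multiset.mem_toFinset, Polynomial.mem_roots hpne]
        exact (hr j hj).1
      have := card_le_card hsubr
      rw [card_image_of_injOn hrinj] at this
      exact this.trans ((Multiset.toFinset_card_le _).trans ((Polynomial.card_roots' p).trans hpdeg))
    -- remaining pairs lose a point
    set P1 := (range M).filter (fun j : ℕ => mc (e + 1) ((2 * j : ℕ) : ℝ) ∉ A') with hP1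
    set P2 := (range M).filter (fun j : ℕ => mc (e + 1) ((2 * j + 1 : ℕ) : ℝ) ∉ B') with hP2
    have hcov : range M ⊆ J ∪ (P1 ∪ P2) := by
      intro j hj
      rw [mem_union, mem_union, hJ, hP1, hP2, mem_filter, mem_filter, mem_filter]
      tauto
    have hP1c : P1.card ≤ ((Am ∪ Af) \ A').card := by
      refine card_le_card_of_injOn (fun j : ℕ => mc (e + 1) ((2 * j : ℕ) : ℝ)) ?_ ?_
      · intro j hj
        rw [mem_coe, hP1, mem_filter] at hj
        rw [mem_coe, mem_sdiff, mem_union]
        exact ⟨Or.inl (mem_image.2 ⟨j, hj.1, rfl⟩), hj.2⟩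
      · intro i _ j _ h
        have := hmcj _ _ h
        omega
    have hP2c : P2.card ≤ ((Bm ∪ Bf) \ B').card := by
      refine card_le_card_of_injOn (fun j : ℕ => mc (e + 1) ((2 * j + 1 : ℕ) : ℝ)) ?_ ?_
      · intro j hj
        rw [mem_coe, hP2, mem_filter] at hj
        rw [mem_coe, mem_sdiff, mem_union]
        exact ⟨Or.inl (mem_image.2 ⟨j, hj.1, rfl⟩), hj.2⟩
      · intro i _ j _ h
        have := hmcj _ _ h
        omega
    have h5 := card_le_card hcov
    rw [card_range] at h5
    have h6 := card_union_le J (P1 ∪ P2)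
    have h7 := card_union_le P1 P2
    omega

end Pool.Agent.TH364.Kir
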