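import Mathlib
import Pool.Agent.TH364.KirCount

/-!
# Separation after deleting few points
-/

set_option autoImplicit false

open Module Finset

namespace Pool.Agent.TH364.Kir

variable {d : ℕ}

lemma arith_choose (m r : ℕ) (h : r + 1 ≤ m) :
    ((m : ℝ) / (r + 1)) ^ (r + 1) ≤ (r + 1).factorial * (m.choose (r + 1) : ℝ) := by
  have h1 : (((m + 1 - (r + 1) : ℕ) : ℝ) ^ (r + 1)) ≤ (r + 1).factorial * (m.choose (r + 1) : ℝ) := by
    exact_mod_cast Nat.pow_sub_le_descFactorial m (r + 1) |>.trans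
      (le_of_eq (Nat.descFactorial_eq_factorial_mul_choose m (r + 1)))
  refine le_trans ?_ h1
  have h2 : (m : ℝ) / (r + 1) ≤ ((m + 1 - (r + 1) : ℕ) : ℝ) := by
    rw [div_le_iff₀ (by positivity), Nat.cast_sub (by omega)]
    push_cast
    have : ((r : ℝ) + 1) ≤ m := by exact_mod_cast h
    nlinarith [Nat.cast_nonneg (α := ℝ) r]
  exact pow_le_pow_left₀ (by positivity) h2 _

/-- the number of points in a packing of bad sets is at most `2 (d+1) (d+2) ε^(1/(d+1)) n` -/
lemma packing_small {A X : Finset (Pt d)} {F : Finset (Finset (Pt d))} (hF : Packing A X F)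
    {δ : ℝ} (hδ : 0 ≤ δ)
    (hb : ((badSets A X).card : ℝ) ≤ δ ^ (d + 1) * (X.card.choose (d + 2) : ℝ)) :
    ((F.card * (d + 2) : ℕ) : ℝ) ≤ 2 * (d + 1) * (d + 2) * (δ * X.card) := by
  classical
  set n := X.card with hn
  rcases Nat.eq_zero_or_pos F.card with h0 | hpos
  · rw [h0]; simp; positivity
  obtain ⟨T, hT⟩ := card_pos.1 hpos
  have hTb := hF.bad T hT
  have hnd : d + 2 ≤ n := by
    have := card_le_card (mem_badSets.1 hTb).1
    rw [(mem_badSets.1 hTb).2.1] at this; exact this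
  have hnR : (d : ℝ) + 2 ≤ n := by exact_mod_cast hnd
  have hd0 : (0 : ℝ) ≤ d := Nat.cast_nonneg d
  have hn0 : (0 : ℝ) < n := by linarith
  have hfac : (0 : ℝ) < ((d + 2).factorial : ℝ) := by exact_mod_cast Nat.factorial_pos _
  have hfac1 : (0 : ℝ) < ((d + 1).factorial : ℝ) := by exact_mod_cast Nat.factorial_pos _
  have hfe : ((d + 2).factorial : ℝ) = (d + 2) * (d + 1).factorial := by
    rw [Nat.factorial_succ]; push_cast; ring
  have hch : (n.choose (d + 2) : ℝ) ≤ (n : ℝ) ^ (d + 2) / (d + 2).factorial :=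
    Nat.choose_le_pow_div (d + 2) n
  have hfac1' : (1 : ℝ) ≤ ((d + 1).factorial : ℝ) := by
    exact_mod_cast Nat.one_le_iff_ne_zero.2 (Nat.factorial_ne_zero _)
  have hδn : 0 ≤ δ * n := by positivity
  -- `(d+1)! |bad| (d+2) ≤ (δ n)^(d+1) n`
  have hkey : ((d : ℝ) + 2) * (d + 1).factorial * (badSets A X).card ≤ (δ * n) ^ (d + 1) * n := by
    have h1 : ((badSets A X).card : ℝ) ≤ δ ^ (d + 1) * ((n : ℝ) ^ (d + 2) / (d + 2).factorial) :=
      hb.trans (mul_le_mul_of_nonneg_left hch (by positivity))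
    have h2 : δ ^ (d + 1) * ((n : ℝ) ^ (d + 2) / (d + 2).factorial) =
        (δ * n) ^ (d + 1) * n / (d + 2).factorial := by
      rw [mul_pow, pow_succ (n : ℝ) (d + 1)]; ring
    rw [h2, le_div_iff₀ hfac, hfe] at h1
    linarith
  by_cases hm : F.card ≤ d + 1
  · have h1 : (n : ℝ) ≤ (badSets A X).card + (d + 1) := by
      exact_mod_cast count_one hTb
    have h2 : (n : ℝ) ≤ (d + 2) * (badSets A X).card := by
      have h3 : ((d : ℝ) + 2) * (n - (d + 1)) ≤ (d + 2) * (badSets A X).card :=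
        mul_le_mul_of_nonneg_left (by linarith) (by positivity)
      nlinarith
    have h4 : (n : ℝ) ≤ (δ * n) ^ (d + 1) * n := by
      refine le_trans ?_ hkey
      have h5 : (0 : ℝ) ≤ (d + 2) * (badSets A X).card := by positivity
      nlinarith
    have h6 : 1 ≤ (δ * n) ^ (d + 1) := by
      by_contra hlt
      push Not at hlt
      nlinarith
    have h7 : 1 ≤ δ * n := by
      by_contra hlt
      push Not at hlt
      exact absurd (pow_lt_one₀ hδn hlt (by omega)) (not_lt.2 h6)
    have h8 : (F.card : ℝ) ≤ d + 1 := by exact_mod_cast hm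
    push_cast
    have h9 : (F.card : ℝ) * (d + 2) ≤ (d + 1) * (d + 2) :=
      mul_le_mul_of_nonneg_right h8 (by positivity)
    have h10 : ((d : ℝ) + 1) * (d + 2) ≤ 2 * (d + 1) * (d + 2) * (δ * n) := by
      have : (0 : ℝ) ≤ (d + 1) * (d + 2) := by positivity
      nlinarith
    linarith
  · push Not at hm
    have hm' : d + 1 ≤ F.card := hm.le
    have h1 : ((n : ℝ) - (d + 1) * (d + 2)) * (F.card.choose (d + 1) : ℝ) ≤
        (d + 2) * (badSets A X).card := by
      have h2 := count_many hF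
      rw [← hn] at h2
      have h3 : ((n : ℝ) - (d + 1) * (d + 2)) ≤ ((n - (d + 1) * (d + 2) : ℕ) : ℝ) := by
        rcases le_total ((d + 1) * (d + 2)) n with h | h
        · rw [Nat.cast_sub h]; push_cast; exact le_rfl
        · rw [Nat.sub_eq_zero_of_le h]
          have : (n : ℝ) ≤ (d + 1) * (d + 2) := by exact_mod_cast h
          push_cast; linarith
      have h4 : ((n - (d + 1) * (d + 2) : ℕ) : ℝ) * (F.card.choose (d + 1) : ℝ) ≤
        (d + 2) * (badSets A X).card := by exact_mod_cast h2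
      exact (mul_le_mul_of_nonneg_right h3 (by positivity)).trans h4
    -- `n ≥ (d+2)^2`
    have hnbig : ((d : ℝ) + 2) * (d + 2) ≤ n := by
      have hdis : (F.biUnion id).card = ∑ S ∈ F, S.card :=
        card_biUnion (fun S hS S' hS' hne => hF.disj S hS S' hS' hne)
      have h5 : ∑ S ∈ F, S.card = F.card * (d + 2) := by
        rw [sum_congr rfl (fun S hS => (mem_badSets.1 (hF.bad S hS)).2.1), sum_const, smul_eq_mul]
      have h6 : (F.biUnion id) ⊆ X := by
        intro x hx
        obtain ⟨S, hS, hxS⟩ := mem_biUnion.1 hx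
        exact (mem_badSets.1 (hF.bad S hS)).1 hxS
      have h7 := card_le_card h6
      rw [hdis, h5] at h7
      have h8 : (d + 2) * (d + 2) ≤ n := (Nat.mul_le_mul_right _ hm).trans h7
      exact_mod_cast h8
    have h9 : (n : ℝ) ≤ (d + 2) * (n - (d + 1) * (d + 2)) := by nlinarith
    have h10 : (n : ℝ) * (F.card.choose (d + 1) : ℝ) ≤ (d + 2) * ((d + 2) * (badSets A X).card) := by
      calc (n : ℝ) * (F.card.choose (d + 1) : ℝ)
          ≤ ((d + 2) * (n - (d + 1) * (d + 2))) * (F.card.choose (d + 1) : ℝ) :=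
            mul_le_mul_of_nonneg_right h9 (by positivity)
        _ = (d + 2) * ((n - (d + 1) * (d + 2)) * (F.card.choose (d + 1) : ℝ)) := by ring
        _ ≤ _ := mul_le_mul_of_nonneg_left h1 (by positivity)
    have h11 := arith_choose F.card d hm'
    have h12 : (n : ℝ) * ((F.card : ℝ) / (d + 1)) ^ (d + 1) ≤ (d + 2) * ((δ * n) ^ (d + 1) * n) := by
      calc (n : ℝ) * ((F.card : ℝ) / (d + 1)) ^ (d + 1)
          ≤ n * ((d + 1).factorial * (F.card.choose (d + 1) : ℝ)) :=
            mul_le_mul_of_nonneg_left h11 hn0.le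
        _ = (d + 1).factorial * (n * (F.card.choose (d + 1) : ℝ)) := by ring
        _ ≤ (d + 1).factorial * ((d + 2) * ((d + 2) * (badSets A X).card)) :=
            mul_le_mul_of_nonneg_left h10 hfac1.le
        _ = (d + 2) * (((d : ℝ) + 2) * (d + 1).factorial * (badSets A X).card) := by ring
        _ ≤ _ := mul_le_mul_of_nonneg_left hkey (by positivity)
    have h13 : ((F.card : ℝ) / (d + 1)) ^ (d + 1) ≤ (d + 2) * (δ * n) ^ (d + 1) := by
      have : (n : ℝ) * ((F.card : ℝ) / (d + 1)) ^ (d + 1) ≤ n * ((d + 2) * (δ * n) ^ (d + 1)) := by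
        linarith
      exact le_of_mul_le_mul_left this hn0
    have h14 : ((d : ℝ) + 2) ≤ 2 ^ (d + 1) := by
      have : d + 2 ≤ 2 ^ (d + 1) := Nat.lt_two_pow_self
      exact_mod_cast this
    have h15 : ((F.card : ℝ) / (d + 1)) ^ (d + 1) ≤ (2 * (δ * n)) ^ (d + 1) := by
      rw [mul_pow]
      exact h13.trans (mul_le_mul_of_nonneg_right h14 (by positivity))
    have h16 : (F.card : ℝ) / (d + 1) ≤ 2 * (δ * n) :=
      le_of_pow_le_pow_left₀ (by omega) (by positivity) h15
    rw [div_le_iff₀ (by positivity)] at h16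
    push_cast
    have : (F.card : ℝ) * (d + 2) ≤ (2 * (δ * n) * (d + 1)) * (d + 2) :=
      mul_le_mul_of_nonneg_right h16 (by positivity)
    linarith

open Classical in
/-- The good `(d+2)`-subsets `S` of `A ∪ B`: some hyperplane separates `A ∩ S` from `B ∩ S`. -/
noncomputable def goodSets (A B : Finset (Pt d)) : Finset (Finset (Pt d)) :=
  ((A ∪ B).powersetCard (d + 2)).filter (fun S => Separated (A ∩ S) (B ∩ S))

lemma bad_add_good (hd : 1 ≤ d) {A B : Finset (Pt d)} (hAB : Disjoint A B) :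
    (badSets A (A ∪ B)).card + (goodSets A B).card = (A ∪ B).card.choose (d + 2) := by
  classical
  rw [← card_powersetCard]
  rw [← card_filter_add_card_filter_not (s := (A ∪ B).powersetCard (d + 2)) (p := Bad A)]
  unfold badSets goodSets
  congr 1
  refine congrArg card (filter_congr fun S hS => ?_)
  exact good_iff hd hAB (mem_powersetCard.1 hS).1

/-- upper bound -/
theorem upper (hd : 1 ≤ d) {ε : ℝ} (hε : 0 ≤ ε) (N : ℕ) (A B : Finset (Pt d)) (hAB : Disjoint A B)
    (hA : A.card = N) (hB : B.card = N) (hgp : GenPos (A ∪ B)) (hN : d + 1 ≤ 2 * N)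
    (hgood : (1 - ε) * ((2 * N).choose (d + 2) : ℝ) ≤
      ((goodSets A B).card : ℝ)) :
    ∃ A' ⊆ A, ∃ B' ⊆ B, Separated A' B' ∧
      (1 - 4 * (d + 1) * (d + 2) * ε ^ (1 / ((d : ℝ) + 1))) * N ≤ A'.card ∧
      (1 - 4 * (d + 1) * (d + 2) * ε ^ (1 / ((d : ℝ) + 1))) * N ≤ B'.card := by
  classical
  set X := A ∪ B with hX
  have hXc : X.card = 2 * N := by rw [hX, card_union_of_disjoint hAB, hA, hB]; ring
  obtain ⟨F, hF, hmax⟩ := exists_max_packing A X
  set Y := X \ F.biUnion id with hY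
  have hYX : Y ⊆ X := sdiff_subset
  have hYbad : ¬ Bad A Y := by
    intro hbad
    obtain ⟨S, hSY, hSc, hSb⟩ := bad_cara hbad
    rcases Nat.lt_or_ge S.card (d + 2) with h | h
    · exact not_bad_small hgp (by rw [hXc]; exact hN) (hSY.trans hYX) (by omega) hSb
    · refine hmax S (mem_badSets.2 ⟨hSY.trans hYX, le_antisymm hSc h, hSb⟩) ?_
      exact disjoint_of_subset_left hSY sdiff_disjoint
  have hsep : Separated (A ∩ Y) (B ∩ Y) := (good_iff hd hAB hYX).2 hYbad
  set δ : ℝ := ε ^ (1 / ((d : ℝ) + 1)) with hδ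
  have hδ0 : 0 ≤ δ := Real.rpow_nonneg hε _
  have hδε : δ ^ (d + 1) = ε := by
    rw [hδ, ← Real.rpow_natCast, ← Real.rpow_mul hε]
    push_cast
    rw [one_div, inv_mul_cancel₀ (by positivity), Real.rpow_one]
  have hcount : ((badSets A X).card : ℝ) ≤ δ ^ (d + 1) * (X.card.choose (d + 2) : ℝ) := by
    rw [hδε, hXc]
    have h1 := bad_add_good hd hAB
    rw [← hX, hXc] at h1
    have h2 : ((badSets A X).card : ℝ) + ((goodSets A B).card : ℝ) =
        ((2 * N).choose (d + 2) : ℝ) := by exact_mod_cast h1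
    linarith
  have hsmall := packing_small hF hδ0 hcount
  have hUc : (F.biUnion id).card ≤ F.card * (d + 2) := card_biUnion_packing hF.bad
  have hUR : ((F.biUnion id).card : ℝ) ≤ 4 * (d + 1) * (d + 2) * δ * N := by
    have : ((F.biUnion id).card : ℝ) ≤ ((F.card * (d + 2) : ℕ) : ℝ) := by exact_mod_cast hUc
    rw [hXc] at hsmall
    push_cast at hsmall this ⊢
    linarith
  have hrem : ∀ Z : Finset (Pt d), Z ⊆ X → (Z.card : ℝ) - (F.biUnion id).card ≤ ((Z ∩ Y).card : ℝ) := by
    intro Z hZ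
    have h1 : Z \ F.biUnion id ⊆ Z ∩ Y := by
      intro z hz
      obtain ⟨hz1, hz2⟩ := mem_sdiff.1 hz
      exact mem_inter.2 ⟨hz1, mem_sdiff.2 ⟨hZ hz1, hz2⟩⟩
    have h2 := card_le_card h1
    have h3 := le_card_sdiff (F.biUnion id) Z
    have h4 : Z.card ≤ (Z ∩ Y).card + (F.biUnion id).card := by omega
    have : (Z.card : ℝ) ≤ ((Z ∩ Y).card : ℝ) + (F.biUnion id).card := by exact_mod_cast h4
    linarith
  refine ⟨A ∩ Y, inter_subset_left, B ∩ Y, inter_subset_left, hsep, ?_, ?_⟩
  · have := hrem A subset_union_left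
    rw [hA] at this
    linarith
  · have := hrem B subset_union_right
    rw [hB] at this
    linarith

end Pool.Agent.TH364.Kir
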