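import Mathlib
import Pool.Agent.S08592

set_option autoImplicit false

/-!
# From labelled disjoint families to `k`-piercing partitions

A labelled disjoint family on an alphabet `A` with coordinates `C`: boxes `j : J` with a label `lab j : C`,
whose side at the label is the single symbol `sym j`, pairwise disjoint, such that every line in direction
`c` meets a box labelled `c`.  Blowing up every symbol to a block of at least `k` values and cutting every
box of the family into `k` slabs along its label direction gives, after adding the remaining cells, a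
partition with the `k`-piercing property into at most `|J| k + |A|^|C|` boxes.
-/

namespace Pool.Agent.TH364.Pierce

open Finset

/-- The blow-up construction. -/
theorem exists_partition {C A J V : Type} [Fintype C] [DecidableEq C] [Fintype A] [DecidableEq A]
    [Fintype J] [Fintype V] [DecidableEq V] (k : ℕ)
    (lab : J → C) (sym : J → A) (side : J → C → Set A)
    (hne : ∀ j l, (side j l).Nonempty)
    (hdis : ∀ j j', j ≠ j' → ∀ x : C → A, (∀ l, x l ∈ side j l) → (∀ l, x l ∈ side j' l) → False)
    (hhit : ∀ (c : C) (x : C → A), ∃ j, lab j = c ∧ ∀ l, Function.update x c (sym j) l ∈ side j l)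
    (hk0 : 0 < k) (π : V → A) (g : V → Fin k) (hsurj : ∀ a t, ∃ v, π v = a ∧ g v = t) :
    ∃ P : Finset (C → Finset V),
      (∀ B ∈ P, ∀ i : C, (B i).Nonempty) ∧
      (∀ x : C → V, ∃! B, B ∈ P ∧ ∀ i : C, x i ∈ B i) ∧
      (∀ i : C, ∀ a : C → V,
          k ≤ (P.filter (fun B => ∃ t : V, ∀ j : C, Function.update a i t j ∈ B j)).card) ∧
      P.card ≤ Fintype.card J * k + Fintype.card A ^ Fintype.card C := by
  classical
  -- the slabs
  let slab : J × Fin k → C → Finset V := fun y l =>
    Finset.univ.filter (fun v => π v ∈ side y.1 l ∧ (l = lab y.1 → g v = y.2))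
  -- the remaining cells
  let cell : (C → A) → C → Finset V := fun x l => Finset.univ.filter (fun v => π v = x l)
  let rest : Finset (C → A) := Finset.univ.filter (fun x => ∀ j : J, ¬ ∀ l, x l ∈ side j l)
  let P : Finset (C → Finset V) := (Finset.univ.image slab) ∪ (rest.image cell)
  have hslab : ∀ (y : J × Fin k) (l : C) (v : V),
      v ∈ slab y l ↔ (π v ∈ side y.1 l ∧ (l = lab y.1 → g v = y.2)) := by
    intro y l v
    simp only [slab, Finset.mem_filter, Finset.mem_univ, true_and]
  have hcell : ∀ (x : C → A) (l : C) (v : V), v ∈ cell x l ↔ π v = x l := by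
    intro x l v
    simp only [cell, Finset.mem_filter, Finset.mem_univ, true_and]
  have hP : ∀ B, B ∈ P ↔ ((∃ y, slab y = B) ∨ ∃ x ∈ rest, cell x = B) := by
    intro B
    simp only [P, Finset.mem_union, Finset.mem_image, Finset.mem_univ, true_and]
  refine ⟨P, ?_, ?_, ?_, ?_⟩
  · intro B hB i
    rcases (hP B).1 hB with ⟨y, rfl⟩ | ⟨x, -, rfl⟩
    · obtain ⟨a, ha⟩ := hne y.1 i
      obtain ⟨v, hv1, hv2⟩ := hsurj a y.2
      exact ⟨v, (hslab _ _ _).2 ⟨by rw [hv1]; exact ha, fun _ => hv2⟩⟩
    · obtain ⟨v, hv1, -⟩ := hsurj (x i) ⟨0, hk0⟩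
      exact ⟨v, (hcell _ _ _).2 hv1⟩
  · intro x
    by_cases hx : ∃ j : J, ∀ l, π (x l) ∈ side j l
    · obtain ⟨j, hj⟩ := hx
      refine ⟨slab (j, g (x (lab j))), ⟨(hP _).2 (Or.inl ⟨_, rfl⟩), ?_⟩, ?_⟩
      · intro i
        refine (hslab _ _ _).2 ⟨hj i, ?_⟩
        intro hi
        show g (x i) = g (x (lab j))
        rw [hi]
      · rintro B ⟨hB, hxB⟩
        rcases (hP B).1 hB with ⟨y, rfl⟩ | ⟨z, hz, rfl⟩
        · have h1 : ∀ l, π (x l) ∈ side y.1 l := fun l => ((hslab _ _ _).1 (hxB l)).1
          have h2 : y.1 = j := by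
            by_contra hcon
            exact hdis _ _ hcon (fun l => π (x l)) h1 hj
          have h3 : g (x (lab y.1)) = y.2 := ((hslab _ _ _).1 (hxB (lab y.1))).2 rfl
          have h4 : y = (j, g (x (lab j))) := by
            refine Prod.ext h2 ?_
            rw [← h3, h2]
          rw [h4]
        · exfalso
          have hz' := (Finset.mem_filter.1 hz).2 j
          apply hz'
          intro l
          have := (hcell _ _ _).1 (hxB l)
          rw [← this]
          exact hj l
    · push Not at hx
      refine ⟨cell (fun l => π (x l)), ⟨(hP _).2 (Or.inr ⟨_, ?_, rfl⟩), ?_⟩, ?_⟩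
      · refine Finset.mem_filter.2 ⟨Finset.mem_univ _, ?_⟩
        intro j h
        obtain ⟨l, hl⟩ := hx j
        exact hl (h l)
      · intro i
        exact (hcell (fun l => π (x l)) i (x i)).2 rfl
      · rintro B ⟨hB, hxB⟩
        rcases (hP B).1 hB with ⟨y, rfl⟩ | ⟨z, hz, rfl⟩
        · exfalso
          obtain ⟨l, hl⟩ := hx y.1
          exact hl ((hslab _ _ _).1 (hxB l)).1
        · congr 1
          funext l
          exact ((hcell _ _ _).1 (hxB l)).symm
  · intro i a
    obtain ⟨j, hj, hl⟩ := hhit i (fun l => π (a l))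
    have hsub : (Finset.univ : Finset (Fin k)).image (fun t => slab (j, t)) ⊆
        P.filter (fun B => ∃ t : V, ∀ j : C, Function.update a i t j ∈ B j) := by
      intro B hB
      rw [Finset.mem_image] at hB
      obtain ⟨t, -, rfl⟩ := hB
      refine Finset.mem_filter.2 ⟨(hP _).2 (Or.inl ⟨_, rfl⟩), ?_⟩
      obtain ⟨v, hv1, hv2⟩ := hsurj (sym j) t
      refine ⟨v, ?_⟩
      intro l
      refine (hslab _ _ _).2 ⟨?_, ?_⟩
      · have := hl l
        by_cases h : l = i
        · subst h
          rw [Function.update_self] at this ⊢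
          rw [hv1]
          exact this
        · rw [Function.update_of_ne h] at this ⊢
          exact this
      · intro h
        have h' : l = i := by rw [h, hj]
        subst h'
        rw [Function.update_self]
        exact hv2
    have hinj : Function.Injective (fun t : Fin k => slab (j, t)) := by
      intro t t' h
      have h' : slab (j, t) = slab (j, t') := h
      obtain ⟨v, hv1, hv2⟩ := hsurj (sym j) t
      have h1 : v ∈ slab (j, t) (lab j) := by
        refine (hslab _ _ _).2 ⟨?_, fun _ => hv2⟩
        have := hl i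
        rw [Function.update_self] at this
        rw [hv1]
        show sym j ∈ side j (lab j)
        rw [hj]
        exact this
      rw [h'] at h1
      have h2 := ((hslab _ _ _).1 h1).2 rfl
      rw [← hv2]
      exact h2
    calc k = ((Finset.univ : Finset (Fin k)).image (fun t => slab (j, t))).card := by
          rw [Finset.card_image_of_injective _ hinj, Finset.card_univ, Fintype.card_fin]
      _ ≤ _ := Finset.card_le_card hsub
  · calc P.card ≤ (Finset.univ.image slab).card + (rest.image cell).card := Finset.card_union_le _ _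
      _ ≤ Fintype.card J * k + Fintype.card A ^ Fintype.card C := by
          refine Nat.add_le_add ?_ ?_
          · refine Finset.card_image_le.trans ?_
            rw [Finset.card_univ, Fintype.card_prod, Fintype.card_fin]
          · refine Finset.card_image_le.trans ?_
            refine (Finset.card_le_univ _).trans ?_
            rw [Fintype.card_fun]

/-- A labelled disjoint family (all the data and properties used by `exists_partition`), with at most `M`
members. -/
def HasFam (C : Type) [DecidableEq C] (M : ℕ) : Prop :=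
  ∃ (A J : Type) (_ : Fintype A) (_ : DecidableEq A) (_ : Nonempty A) (_ : Fintype J) (lab : J → C)
    (sym : J → A) (side : J → C → Set A),
    (∀ j l, (side j l).Nonempty) ∧
    (∀ j a, a ∈ side j (lab j) → a = sym j) ∧
    (∀ j j', j ≠ j' → ∀ x : C → A, (∀ l, x l ∈ side j l) → (∀ l, x l ∈ side j' l) → False) ∧
    (∀ (c : C) (x : C → A), ∃ j, lab j = c ∧ ∀ l, Function.update x c (sym j) l ∈ side j l) ∧
    Fintype.card J ≤ M

/-- The leader-election gadget (as in the starting file `S08592`) gives a labelled disjoint family. -/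
theorem family_of_gadget {Base Ev : Type} [Fintype Base] [Fintype Ev] [Nonempty Base] [Nonempty Ev]
    (q G s : ℕ) (hq : 2 ≤ q) (hG : 1 ≤ G) (hs : G * q ≤ s)
    (dom : Base → Base → Prop)
    (hA : ∀ b b', dom b b' → dom b' b → False)
    (hB : ∀ (w : Fin q → Base) (i : Fin q), ∃ b, ∀ t, t ≠ i → dom b (w t))
    (side : Ev → Fin q → Base → Prop) (i0 : Ev → Fin q)
    (hE1 : ∀ D (w : Fin q → Base), (∀ t, side D t (w t)) →
      ∀ j, (∀ t, t ≠ j → dom (w j) (w t)) → j = i0 D)
    (hE2 : ∀ w : Fin q → Base, ∃ D, ∀ t, side D t (w t)) :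
    HasFam (Fin G × Fin q)
      ((G * q) * (Fintype.card Base * (s * (s ^ G * Fintype.card Ev ^ G)))) := by
  classical
  let A := Base × Fin s × (Fin G → Fin s) × (Fin G → Ev)
  let bs : Fin G × Fin q → A → Fin G × Fin q → Set A := fun c σ l =>
    {x | (l = c → x = σ) ∧ (l ≠ c → l.1 = c.1 → dom σ.1 x.1) ∧
      (l.1 ≠ c.1 → side (σ.2.2.2 l.1) l.2 x.1 ∧ x.2.2.1 c.1 ≠ σ.2.1 ∧
        (l.2 = i0 (σ.2.2.2 l.1) → x.2.1 = σ.2.2.1 l.1))}
  let J := {j : (Fin G × Fin q) × A // ∀ l, (bs j.1 j.2 l).Nonempty}
  have hs2 : 2 ≤ s := by nlinarith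
  have hs0 : Nonempty (Fin s) := ⟨⟨0, by omega⟩⟩
  have hcard : Fintype.card J ≤ (G * q) * (Fintype.card Base * (s * (s ^ G * Fintype.card Ev ^ G))) := by
    have h1 : Fintype.card J ≤ Fintype.card ((Fin G × Fin q) × A) := Fintype.card_subtype_le _
    have h2 : Fintype.card ((Fin G × Fin q) × A)
        = (G * q) * (Fintype.card Base * (s * (s ^ G * Fintype.card Ev ^ G))) := by
      simp only [A, Fintype.card_prod, Fintype.card_fun, Fintype.card_fin]
    rw [h2] at h1
    exact h1
  refine ⟨A, J, inferInstance, inferInstance, inferInstance, inferInstance, fun j => j.1.1, fun j => j.1.2,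
    fun j l => bs j.1.1 j.1.2 l, ?_, ?_, ?_, ?_, hcard⟩
  · intro j l
    exact j.2 l
  · rintro ⟨⟨c, σ⟩, hj⟩ a ha
    exact ha.1 rfl
  · rintro ⟨⟨c, σ⟩, hj⟩ ⟨⟨c', σ'⟩, hj'⟩ hne x hx hx'
    have hx1 : ∀ l, x l ∈ bs c σ l := hx
    have hx1' : ∀ l, x l ∈ bs c' σ' l := hx'
    have hc : x c = σ := (hx1 c).1 rfl
    have hc' : x c' = σ' := (hx1' c').1 rfl
    by_cases h1 : c = c'
    · subst h1
      apply hne
      have : σ = σ' := hc.symm.trans hc'
      subst this
      rfl
    · by_cases h2 : c.1 = c'.1
      · have e1 : dom σ.1 (x c').1 := (hx1 c').2.1 (fun h => h1 h.symm) h2.symm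
        have e2 : dom σ'.1 (x c).1 := (hx1' c).2.1 h1 h2
        rw [hc'] at e1
        rw [hc] at e2
        exact hA _ _ e1 e2
      · -- different groups
        have e1 := fun t : Fin q => (hx1 (c'.1, t)).2.2 (fun h => h2 h.symm)
        have hlead : c'.2 = i0 (σ.2.2.2 c'.1) := by
          apply hE1 (σ.2.2.2 c'.1) (fun t => (x (c'.1, t)).1) (fun t => (e1 t).1)
          intro t ht
          have e2 := (hx1' (c'.1, t)).2.1 (fun h => ht (by rw [← h])) rfl
          have : x (c'.1, c'.2) = σ' := hc'
          show dom (x (c'.1, c'.2)).1 (x (c'.1, t)).1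
          rw [this]
          exact e2
        have e3 := (e1 c'.2).2.2 hlead
        have e4 := ((hx1' c).2.2 h2).2.1
        have : x (c'.1, c'.2) = σ' := hc'
        rw [this] at e3
        rw [hc] at e4
        exact e4 e3.symm
  · intro c x
    obtain ⟨b, hb⟩ := hB (fun t => (x (c.1, t)).1) c.2
    choose D hD using fun h : Fin G => hE2 (fun t => (x (h, t)).1)
    let f : Fin G → Fin s := fun h => (x (h, i0 (D h))).2.1
    let bad : Finset (Fin s) := ((Finset.univ : Finset (Fin G × Fin q)).filter (fun l => l.1 ≠ c.1)).image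
      (fun l => (x l).2.2.1 c.1)
    have hbad : bad.card + q ≤ s := by
      have h1 : bad.card ≤ ((Finset.univ : Finset (Fin G × Fin q)).filter (fun l => l.1 ≠ c.1)).card :=
        Finset.card_image_le
      have h2 : ((Finset.univ : Finset (Fin G × Fin q)).filter (fun l => ¬ l.1 ≠ c.1)).card = q := by
        have : (Finset.univ : Finset (Fin G × Fin q)).filter (fun l => ¬ l.1 ≠ c.1)
            = {c.1} ×ˢ (Finset.univ : Finset (Fin q)) := by
          ext l
          rw [Finset.mem_filter, Finset.mem_product]
          simp only [Finset.mem_univ, true_and, and_true, Finset.mem_singleton, not_not, ne_eq]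
        rw [this, Finset.card_product]
        simp
      have h3 := Finset.card_filter_add_card_filter_not (s := (Finset.univ : Finset (Fin G × Fin q)))
        (fun l => l.1 ≠ c.1)
      rw [h2] at h3
      have h4 : (Finset.univ : Finset (Fin G × Fin q)).card = G * q := by simp
      omega
    have hcompl : 0 < badᶜ.card := by
      rw [Finset.card_compl, Fintype.card_fin]
      omega
    obtain ⟨e, he⟩ := Finset.card_pos.mp hcompl
    have key : ∀ l, Function.update x c (b, e, f, D) l ∈ bs c (b, e, f, D) l := by
      intro l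
      rw [Finset.mem_compl] at he
      by_cases hl : l = c
      · subst hl
        rw [Function.update_self]
        refine ⟨fun _ => rfl, fun h => absurd rfl h, fun h => absurd rfl h⟩
      · rw [Function.update_of_ne hl]
        refine ⟨fun h => absurd h hl, ?_, ?_⟩
        · intro _ h2
          have ht : l.2 ≠ c.2 := by
            intro h3
            exact hl (Prod.ext h2 h3)
          have := hb l.2 ht
          have hl' : l = (c.1, l.2) := Prod.ext h2 rfl
          rw [hl']
          exact this
        · intro h2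
          refine ⟨hD l.1 l.2, ?_, ?_⟩
          · intro h3
            apply he
            show e ∈ bad
            simp only [bad]
            rw [Finset.mem_image]
            exact ⟨l, by simpa using h2, h3⟩
          · intro h3
            show (x l).2.1 = (x (l.1, i0 (D l.1))).2.1
            have : l = (l.1, i0 (D l.1)) := Prod.ext rfl h3
            conv_lhs => rw [this]
    exact ⟨⟨(c, (b, e, f, D)), fun l => ⟨_, key l⟩⟩, rfl, key⟩

/-- Reindexing the coordinates. -/
theorem HasFam.congr {C C' : Type} [DecidableEq C] [DecidableEq C'] (e : C ≃ C') {M M' : ℕ} (hM : M ≤ M')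
    (h : HasFam C M) : HasFam C' M' := by
  obtain ⟨A, J, _, _, _, _, lab, sym, side, h1, h2, h3, h4, h5⟩ := h
  refine ⟨A, J, inferInstance, inferInstance, inferInstance, inferInstance, fun j => e (lab j), sym,
    fun j l => side j (e.symm l), ?_, ?_, ?_, ?_, h5.trans hM⟩
  · intro j l
    exact h1 _ _
  · intro j a ha
    have ha' : a ∈ side j (e.symm (e (lab j))) := ha
    rw [Equiv.symm_apply_apply] at ha'
    exact h2 _ _ ha'
  · intro j j' hne x hx hx'
    refine h3 j j' hne (fun l => x (e l)) ?_ ?_
    · intro l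
      have : x (e l) ∈ side j (e.symm (e l)) := hx (e l)
      rwa [Equiv.symm_apply_apply] at this
    · intro l
      have : x (e l) ∈ side j' (e.symm (e l)) := hx' (e l)
      rwa [Equiv.symm_apply_apply] at this
  · intro c x
    obtain ⟨j, hj, hl⟩ := h4 (e.symm c) (fun l => x (e l))
    refine ⟨j, by show e (lab j) = c; rw [hj, Equiv.apply_symm_apply], ?_⟩
    intro l
    have := hl (e.symm l)
    by_cases h : l = c
    · subst h
      rw [Function.update_self] at this ⊢
      exact this
    · have h' : e.symm l ≠ e.symm c := fun h'' => h (e.symm.injective h'')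
      rw [Function.update_of_ne h'] at this
      rw [Function.update_of_ne h]
      rwa [Equiv.apply_symm_apply] at this

/-- The consequence for partitions of `[n]^d` : with `M` boxes in the family, for every `k ≥ K` there are
arbitrarily large `n` and `k`-piercing partitions of `[n]^d` with at most `(M + 1) k` boxes. -/
theorem partitions_of_fam {d M : ℕ} (h : HasFam (Fin d) M) :
    ∃ K : ℕ, ∀ k : ℕ, K ≤ k → 0 < k → ∀ N : ℕ, ∃ n : ℕ, N ≤ n ∧
      ∃ P : Finset (Fin d → Finset (Fin n)),
        (∀ B ∈ P, ∀ i : Fin d, (B i).Nonempty) ∧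
        (∀ x : Fin d → Fin n, ∃! B, B ∈ P ∧ ∀ i : Fin d, x i ∈ B i) ∧
        (∀ i : Fin d, ∀ a : Fin d → Fin n,
            k ≤ (P.filter (fun B => ∃ t : Fin n, ∀ j : Fin d,
                  Function.update a i t j ∈ B j)).card) ∧
        P.card ≤ (M + 1) * k := by
  obtain ⟨A, J, _, _, _, _, lab, sym, side, h1, h2, h3, h4, h5⟩ := h
  refine ⟨Fintype.card A ^ d, ?_⟩
  intro k hk hk0 N
  let m := max k N
  have hm : k ≤ m := le_max_left _ _
  have hA : 0 < Fintype.card A := Fintype.card_pos
  refine ⟨Fintype.card A * m, (le_max_right k N).trans (Nat.le_mul_of_pos_left _ hA), ?_⟩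
  let e : Fin (Fintype.card A * m) ≃ A × Fin m :=
    (finProdFinEquiv (m := Fintype.card A) (n := m)).symm.trans
      (Equiv.prodCongr (Fintype.equivFin A).symm (Equiv.refl _))
  obtain ⟨P, hP1, hP2, hP3, hP4⟩ := exists_partition (C := Fin d) (A := A) (J := J)
    (V := Fin (Fintype.card A * m)) k lab sym side h1 h3 h4 hk0 (fun v => (e v).1)
    (fun v => ⟨min (e v).2.val (k - 1), by omega⟩) (by
      intro a t
      refine ⟨e.symm (a, ⟨t.val, lt_of_lt_of_le t.2 hm⟩), ?_, ?_⟩
      · rw [Equiv.apply_symm_apply]
      · apply Fin.ext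
        show min (e (e.symm (a, ⟨t.val, lt_of_lt_of_le t.2 hm⟩))).2.val (k - 1) = t.val
        rw [Equiv.apply_symm_apply]
        show min t.val (k - 1) = t.val
        have := t.2
        omega)
  refine ⟨P, hP1, hP2, fun i a => ?_, hP4.trans ?_⟩
  · convert hP3 i a
  rw [Fintype.card_fin]
  have : Fintype.card J * k ≤ M * k := Nat.mul_le_mul_right _ h5
  calc Fintype.card J * k + Fintype.card A ^ d ≤ M * k + k := Nat.add_le_add this hk
    _ = (M + 1) * k := by ring

end Pool.Agent.TH364.Pierce
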