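import Pool.Agent.TH806.LK.Defs
import Pool.Agent.W184.NZ.Loc

set_option autoImplicit false

/-!
Existence of the laws of the blocks (`P_LAW`), helper364 for helper806 (job LK LAW, MP_112ba8).

For one prime `p` with `r = p^(-1/2)`, a law on the circle of radius `r` together with a density `D`: for `w0`, `w1`
the laws of `W184.NZ.Law1` with `D = 1`, for `wF` the uniform law with `D z = 1 / (1 - z)`. Products give the law of a
block. The exponential moments come from the moments.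
-/

namespace Pool.Agent.TH364.LK_LAW

open Finset Filter Topology MeasureTheory Complex MonoidAlgebra
open Pool.Agent.W184.NZ Pool.Agent.TH806 Pool.Agent.TH806.LK

/-! ### one prime -/

lemma ib2 {E : Type*} [NormedAddCommGroup E] {ν : Measure (ℂ × ℂ)} [IsFiniteMeasure ν] {B : ℝ}
    (hB : ∀ᵐ q ∂ν, ‖q.1‖ ≤ B ∧ ‖q.2‖ ≤ B) {f : ℂ × ℂ → E} (hf : Continuous f) : Integrable f ν := by
  obtain ⟨C, hC⟩ := (isCompact_closedBall (0 : ℂ × ℂ) B).exists_bound_of_continuousOn hf.continuousOn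
  refine Integrable.of_bound hf.aestronglyMeasurable C ?_
  filter_upwards [hB] with q hq
  exact hC q (by rw [mem_closedBall_zero_iff, norm_prod_le_iff]; exact hq)

/-- the exponential series in two variables -/
lemma a1C (z : ℂ) : HasSum (fun n : ℕ => z ^ n / (n.factorial : ℂ)) (Complex.exp z) := by
  rw [Complex.exp_eq_exp_ℂ]
  exact NormedSpace.expSeries_div_hasSum_exp z

lemma a2C (z : ℂ) : Summable (fun n : ℕ => ‖z ^ n / (n.factorial : ℂ)‖) := (a1C z).summable.norm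

lemma a3C (x y : ℂ) : Summable
    (fun n : ℕ × ℕ => x ^ n.1 / (n.1.factorial : ℂ) * (y ^ n.2 / (n.2.factorial : ℂ))) := by
  have h := Summable.mul_norm (f := fun n : ℕ => x ^ n / (n.factorial : ℂ))
    (g := fun n : ℕ => y ^ n / (n.factorial : ℂ)) (a2C x) (a2C y)
  exact Summable.of_norm h

lemma hs_exp2 (x y : ℂ) : HasSum (fun n : ℕ × ℕ => x ^ n.1 / (n.1.factorial : ℂ) * (y ^ n.2 / (n.2.factorial : ℂ)))
    (Complex.exp x * Complex.exp y) :=
  HasSum.mul (f := fun n : ℕ => x ^ n / (n.factorial : ℂ)) (g := fun n : ℕ => y ^ n / (n.factorial : ℂ))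
    (a1C x) (a1C y) (a3C x y)

lemma a1R (z : ℝ) : HasSum (fun n : ℕ => z ^ n / (n.factorial : ℝ)) (Real.exp z) := by
  rw [Real.exp_eq_exp_ℝ]
  exact NormedSpace.expSeries_div_hasSum_exp z

lemma a3R (x y : ℝ) : Summable
    (fun n : ℕ × ℕ => x ^ n.1 / (n.1.factorial : ℝ) * (y ^ n.2 / (n.2.factorial : ℝ))) := by
  have h := Summable.mul_norm (f := fun n : ℕ => x ^ n / (n.factorial : ℝ))
    (g := fun n : ℕ => y ^ n / (n.factorial : ℝ)) (a1R x).summable.norm (a1R y).summable.norm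
  exact Summable.of_norm h

lemma hs_exp2R (x y : ℝ) : HasSum (fun n : ℕ × ℕ => x ^ n.1 / (n.1.factorial : ℝ) * (y ^ n.2 / (n.2.factorial : ℝ)))
    (Real.exp x * Real.exp y) :=
  HasSum.mul (f := fun n : ℕ => x ^ n / (n.factorial : ℝ)) (g := fun n : ℕ => y ^ n / (n.factorial : ℝ))
    (a1R x) (a1R y) (a3R x y)

/-- the moments determine the exponential moment -/
lemma mom_exp {μ : Measure ℂ} [IsProbabilityMeasure μ] {r Q : ℝ} (hr1 : r ≤ 1) (hQ : 0 ≤ Q)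
    (hn : ∀ᵐ z ∂μ, ‖z‖ = r) {D : ℂ → ℂ} (hD : Measurable D) (hD2 : ∀ z, ‖z‖ = r → ‖D z‖ ≤ 2)
    {m : ℕ → ℕ → ℝ} (hm : ∀ k l : ℕ, ∫ z, D z * (z ^ k * (starRingEnd ℂ z) ^ l) ∂μ = ((m k l : ℝ) : ℂ))
    {α β : ℂ} (hα : ‖α‖ ≤ Q) (hβ : ‖β‖ ≤ Q) :
    HasSum (fun n : ℕ × ℕ => α ^ n.1 / (n.1.factorial : ℂ) * (β ^ n.2 / (n.2.factorial : ℂ)) * ((m n.1 n.2 : ℝ) : ℂ))
      (∫ z, D z * Complex.exp (α * z + β * starRingEnd ℂ z) ∂μ) := by
  set F : ℕ × ℕ → ℂ → ℂ := fun n z => D z * ((α * z) ^ n.1 / (n.1.factorial : ℂ) *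
    ((β * starRingEnd ℂ z) ^ n.2 / (n.2.factorial : ℂ))) with hF
  have hb : ∀ n : ℕ × ℕ, ∀ᵐ z ∂μ, ‖F n z‖ ≤ 2 * (Q ^ n.1 / (n.1.factorial : ℝ) * (Q ^ n.2 / (n.2.factorial : ℝ))) := by
    intro n
    filter_upwards [hn] with z hz
    rw [hF]
    simp only
    rw [norm_mul, norm_mul, norm_div, norm_div, norm_pow, norm_pow, norm_mul, norm_mul, RCLike.norm_conj, hz,
      Complex.norm_natCast, Complex.norm_natCast]
    have h1 : ‖α‖ * r ≤ Q := by
      have hr0 : 0 ≤ r := by rw [← hz]; exact norm_nonneg z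
      calc ‖α‖ * r ≤ ‖α‖ * 1 := mul_le_mul_of_nonneg_left hr1 (norm_nonneg _)
        _ ≤ Q := by rw [mul_one]; exact hα
    have h2 : ‖β‖ * r ≤ Q := by
      calc ‖β‖ * r ≤ ‖β‖ * 1 := mul_le_mul_of_nonneg_left hr1 (norm_nonneg _)
        _ ≤ Q := by rw [mul_one]; exact hβ
    have hr0 : 0 ≤ r := by rw [← hz]; exact norm_nonneg z
    refine mul_le_mul (hD2 z hz) ?_ (by positivity) (by norm_num)
    refine mul_le_mul ?_ ?_ (by positivity) (by positivity)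
    · exact div_le_div_of_nonneg_right (pow_le_pow_left₀ (by positivity) h1 _) (by positivity)
    · exact div_le_div_of_nonneg_right (pow_le_pow_left₀ (by positivity) h2 _) (by positivity)
  have hFm : ∀ n, AEStronglyMeasurable (F n) μ := by
    intro n
    refine (Measurable.mul hD ?_).aestronglyMeasurable
    have : Continuous (fun z : ℂ => (α * z) ^ n.1 / (n.1.factorial : ℂ) *
      ((β * starRingEnd ℂ z) ^ n.2 / (n.2.factorial : ℂ))) := by fun_prop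
    exact this.measurable
  have hFi : ∀ n, Integrable (F n) μ := fun n => Integrable.of_bound (hFm n) _ (hb n)
  have hs : Summable (fun n => ∫ z, ‖F n z‖ ∂μ) := by
    refine Summable.of_nonneg_of_le (fun n => integral_nonneg fun z => norm_nonneg _) (fun n => ?_)
      ((hs_exp2R Q Q).summable.mul_left 2)
    have h1 := integral_mono_ae (hFi n).norm (integrable_const (2 * (Q ^ n.1 / (n.1.factorial : ℝ) *
      (Q ^ n.2 / (n.2.factorial : ℝ))))) (hb n)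
    simpa using h1
  have h1 := hasSum_integral_of_summable_integral_norm hFi hs
  have h2 : ∀ z, ∑' n, F n z = D z * Complex.exp (α * z + β * starRingEnd ℂ z) := by
    intro z
    rw [hF]
    simp only
    rw [tsum_mul_left, (hs_exp2 _ _).tsum_eq, Complex.exp_add]
  simp_rw [h2] at h1
  have h4 : (fun n : ℕ × ℕ => α ^ n.1 / (n.1.factorial : ℂ) * (β ^ n.2 / (n.2.factorial : ℂ)) *
      ((m n.1 n.2 : ℝ) : ℂ)) = fun n => ∫ z, F n z ∂μ := by
    funext n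
    have h3 : ∀ z, F n z = (α ^ n.1 / (n.1.factorial : ℂ) * (β ^ n.2 / (n.2.factorial : ℂ))) *
        (D z * (z ^ n.1 * (starRingEnd ℂ z) ^ n.2)) := by
      intro z
      rw [hF]
      simp only
      rw [mul_pow, mul_pow]
      ring
    simp_rw [h3]
    rw [integral_const_mul, hm]
  rw [h4]
  exact h1

/-- the main terms -/
lemma mom_approx {E : ℂ} {Q P κ₁ κ₂ : ℝ} (hP : 1 ≤ P) {m : ℕ → ℕ → ℝ} {α β : ℂ}
    (hα : ‖α‖ ≤ Q) (hβ : ‖β‖ ≤ Q)
    (h : HasSum (fun n : ℕ × ℕ => α ^ n.1 / (n.1.factorial : ℂ) * (β ^ n.2 / (n.2.factorial : ℂ)) *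
      ((m n.1 n.2 : ℝ) : ℂ)) E)
    (hmb : ∀ k l, |m k l| ≤ (1 / P) ^ (max k l)) (h00 : m 0 0 = 1) (h10 : m 1 0 = κ₁ / P) (h01 : m 0 1 = κ₂ / P)
    (h11 : m 1 1 = 1 / P) :
    ‖E - (1 + (κ₁ * α + κ₂ * β + α * β) * ((1 / P : ℝ) : ℂ))‖ ≤ Real.exp Q * Real.exp Q * (1 / P) ^ 2 := by
  classical
  have hP0 : 0 < P := by linarith
  have hQ0 : 0 ≤ Q := (norm_nonneg _).trans hα
  set a : ℕ × ℕ → ℂ := fun n => α ^ n.1 / (n.1.factorial : ℂ) * (β ^ n.2 / (n.2.factorial : ℂ)) *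
      ((m n.1 n.2 : ℝ) : ℂ) with ha
  set S : Finset (ℕ × ℕ) := range 2 ×ˢ range 2 with hS
  have hb : HasSum (fun x => if x ∈ S then a x else 0) (∑ x ∈ S, a x) := by
    have h1 : HasSum (fun x => if x ∈ S then a x else 0) (∑ x ∈ S, if x ∈ S then a x else 0) :=
      hasSum_sum_of_ne_finset_zero (fun x hx => if_neg hx)
    rwa [sum_congr rfl fun x hx => if_pos hx] at h1
  have hd := h.sub hb
  have hg : HasSum (fun n : ℕ × ℕ => (Q ^ n.1 / (n.1.factorial : ℝ) * (Q ^ n.2 / (n.2.factorial : ℝ))) * (1 / P) ^ 2)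
      (Real.exp Q * Real.exp Q * (1 / P) ^ 2) := (hs_exp2R Q Q).mul_right _
  have h1 := hd.norm_le_of_bounded hg (by
    intro n
    by_cases hn : n ∈ S
    · rw [if_pos hn, sub_self, norm_zero]
      positivity
    · rw [if_neg hn, sub_zero, ha]
      simp only
      have hmax : 2 ≤ max n.1 n.2 := by
        by_contra hc
        apply hn
        rw [hS, mem_product, mem_range, mem_range]
        rw [not_le] at hc
        exact ⟨(le_max_left _ _).trans_lt hc, (le_max_right _ _).trans_lt hc⟩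
      rw [norm_mul, norm_mul, norm_div, norm_div, norm_pow, norm_pow, Complex.norm_natCast, Complex.norm_natCast,
        Complex.norm_real, Real.norm_eq_abs]
      have h2 : |m n.1 n.2| ≤ (1 / P) ^ 2 := (hmb _ _).trans
        (pow_le_pow_of_le_one (by positivity) (by rw [div_le_one hP0]; exact hP) hmax)
      refine mul_le_mul ?_ h2 (abs_nonneg _) (by positivity)
      refine mul_le_mul ?_ ?_ (by positivity) (by positivity)
      · exact div_le_div_of_nonneg_right (pow_le_pow_left₀ (norm_nonneg _) hα _) (by positivity)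
      · exact div_le_div_of_nonneg_right (pow_le_pow_left₀ (norm_nonneg _) hβ _) (by positivity))
  have h2 : ∑ x ∈ S, a x = 1 + (κ₁ * α + κ₂ * β + α * β) * ((1 / P : ℝ) : ℂ) := by
    rw [hS, sum_product, sum_range_succ, sum_range_one, sum_range_succ, sum_range_one, sum_range_succ,
      sum_range_one, ha]
    simp only [h00, h10, h01, h11]
    push_cast
    simp
    ring
  rw [h2] at h1
  exact h1

/-- from an approximation to an exponential -/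
lemma to_exp {E x : ℂ} {A₁ A₂ P : ℝ} (hP : 1 ≤ P) (_hA₁ : 0 ≤ A₁) (hA₂ : 0 ≤ A₂) (hx : ‖x‖ ≤ A₁ * (1 / P))
    (hE : ‖E - (1 + x)‖ ≤ A₂ * (1 / P) ^ 2) (hs : (A₁ + A₂) * (1 / P) ≤ 1 / 2) :
    ∃ ε : ℂ, ‖ε‖ ≤ ((A₁ + A₂) ^ 2 + A₂) * (1 / P) ^ 2 ∧ E = Complex.exp (x + ε) := by
  have hP0 : 0 < P := by linarith
  have hP1 : 1 / P ≤ 1 := by rw [div_le_one hP0]; exact hP
  have hPp : 0 < 1 / P := by positivity
  obtain ⟨w, hw⟩ : ∃ w : ℂ, w = E - 1 := ⟨_, rfl⟩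
  have hw1 : ‖w‖ ≤ (A₁ + A₂) * (1 / P) := by
    have e : w = x + (E - (1 + x)) := by rw [hw]; ring
    rw [e]
    refine (norm_add_le _ _).trans ?_
    have h1 : A₂ * (1 / P) ^ 2 ≤ A₂ * (1 / P) := by
      apply mul_le_mul_of_nonneg_left _ hA₂
      nlinarith
    linarith
  have hw2 : ‖w‖ ≤ 1 / 2 := hw1.trans hs
  have hne : 1 + w ≠ 0 := by
    intro h0
    have h1 : w = -1 := by linear_combination h0
    rw [h1, norm_neg, norm_one] at hw2
    norm_num at hw2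
  have hlog := Complex.norm_log_one_add_sub_self_le (z := w) (by linarith)
  refine ⟨Complex.log (1 + w) - x, ?_, ?_⟩
  · have e : Complex.log (1 + w) - x = (Complex.log (1 + w) - w) + (E - (1 + x)) := by rw [hw]; ring
    rw [e]
    refine (norm_add_le _ _).trans ?_
    have h1 : ‖w‖ ^ 2 * (1 - ‖w‖)⁻¹ / 2 ≤ ‖w‖ ^ 2 := by
      have h2 : (1 - ‖w‖)⁻¹ ≤ 2 := by
        rw [inv_le_comm₀ (by linarith) (by norm_num)]
        norm_num
        linarith
      have h3 : 0 ≤ ‖w‖ ^ 2 := by positivity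
      nlinarith
    have h2 : ‖w‖ ^ 2 ≤ (A₁ + A₂) ^ 2 * (1 / P) ^ 2 := by
      rw [← mul_pow]
      exact pow_le_pow_left₀ (norm_nonneg _) hw1 2
    linarith
  · have e : x + (Complex.log (1 + w) - x) = Complex.log (1 + w) := by ring
    rw [e, Complex.exp_log hne, hw]
    ring

/-- the law of one prime -/
structure PL (w : ℕ × ℕ → ℝ) (κ₁ κ₂ Q A : ℝ) (p : ℕ) (μ : Measure (ℂ × ℂ)) : Prop where
  prob : IsProbabilityMeasure μ
  bdd : ∀ᵐ q ∂μ, ‖q.1‖ ≤ 2 ∧ ‖q.2‖ ≤ 2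
  mom : ∀ k l : ℕ, ∫ q, q.2 * (q.1 ^ k * (starRingEnd ℂ q.1) ^ l) ∂μ = ((w (p ^ k, p ^ l) : ℝ) : ℂ)
  dsq : ∫ q, ‖q.2‖ ^ 2 ∂μ ≤ Real.exp (A * (1 / (p : ℝ)))
  expc : ∀ c : ℂ, ‖c‖ ≤ 2 * Q → ∫ q, Real.exp ((c * q.1).re) ∂μ ≤ Real.exp (A * (1 / (p : ℝ)))
  exq : ∀ α β : ℂ, ‖α‖ ≤ Q → ‖β‖ ≤ Q → ∃ ε : ℂ, ‖ε‖ ≤ A * (p : ℝ) ^ (-(3 / 2 : ℝ)) ∧
    ∫ q, q.2 * Complex.exp (α * q.1 + β * starRingEnd ℂ q.1) ∂μ =
      Complex.exp ((κ₁ * α + κ₂ * β + α * β) * ((1 / (p : ℝ) : ℝ) : ℂ) + ε)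

/-- a bound for the constants -/
noncomputable def A2 (Q : ℝ) : ℝ := Real.exp Q * Real.exp Q
noncomputable def A1 (Q : ℝ) : ℝ := 2 * Q + Q ^ 2
noncomputable def A3 (Q : ℝ) : ℝ := (A1 Q + A2 Q) ^ 2 + A2 Q + 2 * Q + 2 * Q ^ 2 + 8 * Q ^ 3 + 2

lemma A3_facts {Q : ℝ} (hQ : 1 ≤ Q) : (A1 Q + A2 Q) ^ 2 + A2 Q ≤ A3 Q ∧
    2 * Q + 2 * Q ^ 2 + 8 * Q ^ 3 ≤ A3 Q ∧ 2 ≤ A3 Q := by
  have h2 : 0 ≤ A2 Q := by unfold A2; positivity
  have h4 : 0 ≤ (A1 Q + A2 Q) ^ 2 := sq_nonneg _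
  have h5 : 0 ≤ 2 * Q + 2 * Q ^ 2 + 8 * Q ^ 3 := by positivity
  unfold A3
  refine ⟨?_, ?_, ?_⟩ <;> linarith

lemma PL_mk {w : ℕ × ℕ → ℝ} {κ₁ κ₂ Q : ℝ} (hQ : 1 ≤ Q) (hκ₁ : 0 ≤ κ₁) (hκ₁' : κ₁ ≤ 1) (hκ₂ : 0 ≤ κ₂)
    (hκ₂' : κ₂ ≤ 1) {p : ℕ} (hp1 : 1 ≤ p) (hpQ : (A1 Q + A2 Q) * (1 / (p : ℝ)) ≤ 1 / 2)
    {μ : Measure ℂ} (hμ : IsProbabilityMeasure μ) {r : ℝ} (hr1 : r ≤ 1) (hn : ∀ᵐ z ∂μ, ‖z‖ = r)
    {D : ℂ → ℂ} (hD : Measurable D) (hD2 : ∀ z, ‖z‖ = r → ‖D z‖ ≤ 2)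
    (hm : ∀ k l : ℕ, ∫ z, D z * (z ^ k * (starRingEnd ℂ z) ^ l) ∂μ = ((w (p ^ k, p ^ l) : ℝ) : ℂ))
    (hmb : ∀ k l, |w (p ^ k, p ^ l)| ≤ (1 / (p : ℝ)) ^ (max k l)) (h00 : w (p ^ 0, p ^ 0) = 1)
    (h10 : w (p ^ 1, p ^ 0) = κ₁ / p) (h01 : w (p ^ 0, p ^ 1) = κ₂ / p) (h11 : w (p ^ 1, p ^ 1) = 1 / p)
    (hdsq : ∫ z, ‖D z‖ ^ 2 ∂μ ≤ Real.exp (A3 Q * (1 / (p : ℝ))))
    (hexpc : ∀ c : ℂ, ‖c‖ ≤ 2 * Q → ∫ z, Real.exp ((c * z).re) ∂μ ≤ Real.exp (A3 Q * (1 / (p : ℝ)))) :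
    ∃ μ' : Measure (ℂ × ℂ), PL w κ₁ κ₂ Q (A3 Q) p μ' := by
  have hpR : (1 : ℝ) ≤ p := by exact_mod_cast hp1
  have hp0 : (0 : ℝ) < p := by linarith
  have hg : Measurable (fun z : ℂ => (z, D z)) := measurable_id.prodMk hD
  have hint : ∀ {E : Type} [NormedAddCommGroup E] [NormedSpace ℝ E] (f : ℂ × ℂ → E), Continuous f →
      SecondCountableTopologyEither (ℂ × ℂ) E →
      ∫ q, f q ∂(μ.map (fun z : ℂ => (z, D z))) = ∫ z, f (z, D z) ∂μ := by
    intro E _ _ f hf _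
    exact integral_map hg.aemeasurable hf.aestronglyMeasurable
  refine ⟨μ.map (fun z : ℂ => (z, D z)), Measure.isProbabilityMeasure_map hg.aemeasurable, ?_, ?_, ?_, ?_, ?_⟩
  · rw [ae_map_iff hg.aemeasurable (by measurability)]
    filter_upwards [hn] with z hz
    exact ⟨by rw [hz]; linarith, hD2 z hz⟩
  · intro k l
    rw [hint _ (by fun_prop) inferInstance]
    exact hm k l
  · rw [hint _ (by fun_prop) inferInstance]
    exact hdsq
  · intro c hc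
    rw [hint _ (by fun_prop) inferInstance]
    exact hexpc c hc
  · intro α β hα hβ
    rw [hint _ (by fun_prop) inferInstance]
    obtain ⟨m, hmm⟩ : ∃ m : ℕ → ℕ → ℝ, ∀ k l, m k l = w (p ^ k, p ^ l) := ⟨_, fun _ _ => rfl⟩
    have hm' : ∀ k l : ℕ, ∫ z, D z * (z ^ k * (starRingEnd ℂ z) ^ l) ∂μ = ((m k l : ℝ) : ℂ) := by
      intro k l
      rw [hmm]
      exact hm k l
    have hmb' : ∀ k l, |m k l| ≤ (1 / (p : ℝ)) ^ (max k l) := by
      intro k l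
      rw [hmm]
      exact hmb k l
    have h1 := mom_exp (m := m) hr1 (by linarith) hn hD hD2 hm' hα hβ
    have h2 := mom_approx (m := m) (P := (p : ℝ)) hpR hα hβ h1 hmb' (by rw [hmm]; exact h00)
      (by rw [hmm]; exact h10) (by rw [hmm]; exact h01) (by rw [hmm]; exact h11)
    have hx : ‖(κ₁ * α + κ₂ * β + α * β) * ((1 / (p : ℝ) : ℝ) : ℂ)‖ ≤ A1 Q * (1 / (p : ℝ)) := by
      rw [norm_mul, Complex.norm_real, Real.norm_of_nonneg (by positivity)]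
      apply mul_le_mul_of_nonneg_right _ (by positivity)
      have e1 : ‖(κ₁ : ℂ) * α‖ ≤ Q := by
        rw [norm_mul, Complex.norm_real, Real.norm_of_nonneg hκ₁]
        nlinarith [norm_nonneg α]
      have e2 : ‖(κ₂ : ℂ) * β‖ ≤ Q := by
        rw [norm_mul, Complex.norm_real, Real.norm_of_nonneg hκ₂]
        nlinarith [norm_nonneg β]
      have e3 : ‖α * β‖ ≤ Q ^ 2 := by
        rw [norm_mul]
        nlinarith [norm_nonneg β, norm_nonneg α]
      have e4 := norm_add_le ((κ₁ : ℂ) * α + κ₂ * β) (α * β)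
      have e5 := norm_add_le ((κ₁ : ℂ) * α) (κ₂ * β)
      unfold A1
      linarith
    obtain ⟨ε, hε, hE⟩ := to_exp (A₁ := A1 Q) (A₂ := A2 Q) hpR (by unfold A1; positivity) (by unfold A2; positivity) hx h2 hpQ
    refine ⟨ε, ?_, hE⟩
    refine hε.trans ?_
    have h3 : (1 / (p : ℝ)) ^ 2 ≤ (p : ℝ) ^ (-(3 / 2 : ℝ)) := by
      have h4 : (1 / (p : ℝ)) ^ 2 = (p : ℝ) ^ (-(2 : ℝ)) := by
        rw [Real.rpow_neg hp0.le, one_div, inv_pow]
        norm_num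
      rw [h4]
      exact Real.rpow_le_rpow_of_exponent_le hpR (by norm_num)
    have h4 := (A3_facts hQ).1
    have h5 : 0 ≤ (A1 Q + A2 Q) ^ 2 + A2 Q := by
      have : 0 ≤ A2 Q := by unfold A2; positivity
      positivity
    exact mul_le_mul h4 h3 (by positivity) (by linarith)

/-! ### products -/

/-- the law of a set of primes -/
structure IL (w : ℕ × ℕ → ℝ) (κ₁ κ₂ Q A : ℝ) (I : Finset ℕ) (ν : Measure (ℂ × ℂ)) : Prop where
  prob : IsProbabilityMeasure ν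
  bdd : ∃ B : ℝ, 0 ≤ B ∧ ∀ᵐ q ∂ν, ‖q.1‖ ≤ B ∧ ‖q.2‖ ≤ B
  mom : ∀ k l : ℕ, ∫ q, q.2 * (q.1 ^ k * (starRingEnd ℂ q.1) ^ l) ∂ν =
    ((lam w (xI I ^ k * yI I ^ l) : ℝ) : ℂ)
  dsq : ∫ q, ‖q.2‖ ^ 2 ∂ν ≤ Real.exp (A * vI I)
  expc : ∀ c : ℂ, ‖c‖ ≤ 2 * Q → ∫ q, Real.exp ((c * q.1).re) ∂ν ≤ Real.exp (A * vI I)
  exq : ∀ α β : ℂ, ‖α‖ ≤ Q → ‖β‖ ≤ Q → ∃ ε : ℂ, ‖ε‖ ≤ A * uI I ∧
    ∫ q, q.2 * Complex.exp (α * q.1 + β * starRingEnd ℂ q.1) ∂ν =
      Complex.exp ((κ₁ * α + κ₂ * β + α * β) * ((vI I : ℝ) : ℂ) + ε)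

theorem IL_exists {w : ℕ × ℕ → ℝ} {κ₁ κ₂ Q A : ℝ}
    (hmul : ∀ I J : Finset ℕ, Disjoint I J → ∀ f g : DA, f ∈ SA (MI I) → g ∈ SA (MI J) →
      lam w (f * g) = lam w f * lam w g) (hone : w (1, 1) = 1) (I : Finset ℕ) :
    (∀ p ∈ I, p.Prime ∧ ∃ μ, PL w κ₁ κ₂ Q A p μ) → ∃ ν, IL w κ₁ κ₂ Q A I ν := by
  induction I using Finset.induction_on with
  | empty =>
    intro _
    refine ⟨Measure.dirac (0, 1), inferInstance, ⟨1, zero_le_one, ?_⟩, ?_, ?_, ?_, ?_⟩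
    · rw [ae_dirac_iff (by measurability)]; simp
    · intro k l
      rw [integral_dirac]
      have h1 : xI ∅ = 0 := by simp [xI]
      have h2 : yI ∅ = 0 := by simp [yI]
      have h3 : lam w 1 = 1 := by
        rw [MonoidAlgebra.one_def, lam_single, one_mul]
        exact hone
      simp only [map_zero]
      rw [h1, h2, one_mul]
      rcases Nat.eq_zero_or_pos k with hk | hk
      · rcases Nat.eq_zero_or_pos l with hl | hl
        · subst hk; subst hl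
          simp [h3]
        · rw [zero_pow hl.ne', zero_pow hl.ne']; simp
      · rw [zero_pow hk.ne', zero_pow hk.ne']; simp
    · rw [integral_dirac]
      simp [vI]
    · intro c _
      rw [integral_dirac]
      simp [vI]
    · intro α β _ _
      refine ⟨0, by simp [uI], ?_⟩
      rw [integral_dirac]
      simp [vI]
  | insert p I hpI ih =>
    intro hI
    obtain ⟨ν, hν⟩ := ih fun q hq => hI q (mem_insert_of_mem hq)
    obtain ⟨hp, μ, hμ⟩ := hI p (mem_insert_self _ _)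
    have := hν.prob
    have := hμ.prob
    obtain ⟨B, hB0, hB⟩ := hν.bdd
    have hIp : ∀ q ∈ I, q.Prime := fun q hq => (hI q (mem_insert_of_mem hq)).1
    have hx : xI (insert p I) = single (p, 1) 1 + xI I := by
      unfold xI; rw [sum_insert hpI]
    have hy : yI (insert p I) = single (1, p) 1 + yI I := by
      unfold yI; rw [sum_insert hpI]
    have hv : vI (insert p I) = 1 / (p:ℝ) + vI I := by
      unfold vI; rw [sum_insert hpI]
    have hu : uI (insert p I) = (p:ℝ) ^ (-(3 / 2 : ℝ)) + uI I := by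
      unfold uI; rw [sum_insert hpI]
    have hdisj : Disjoint {p} I := Finset.disjoint_singleton_left.mpr hpI
    have hxp : single ((p, 1) : ℕ × ℕ) (1:ℝ) ∈ SA (MI {p}) :=
      single_mem_SA (prime_mem_MI hp (mem_singleton_self p)).1 1
    have hyp : single ((1, p) : ℕ × ℕ) (1:ℝ) ∈ SA (MI {p}) :=
      single_mem_SA (prime_mem_MI hp (mem_singleton_self p)).2 1
    have hgc : Continuous fun q : (ℂ × ℂ) × (ℂ × ℂ) => (q.1.1 + q.2.1, q.1.2 * q.2.2) := by fun_prop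
    have hg : Measurable fun q : (ℂ × ℂ) × (ℂ × ℂ) => (q.1.1 + q.2.1, q.1.2 * q.2.2) := hgc.measurable
    have ibC : ∀ {f : ℂ × ℂ → ℂ}, Continuous f → Integrable f ν := fun hf => ib2 hB hf
    have ibC' : ∀ {f : ℂ × ℂ → ℂ}, Continuous f → Integrable f μ := fun hf => ib2 hμ.bdd hf
    refine ⟨(μ.prod ν).map fun q => (q.1.1 + q.2.1, q.1.2 * q.2.2),
      Measure.isProbabilityMeasure_map hg.aemeasurable, ⟨2 + 2 * B, by positivity, ?_⟩, ?_, ?_, ?_, ?_⟩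
    · rw [ae_map_iff hg.aemeasurable (by measurability)]
      have h1 : ∀ᵐ q ∂(μ.prod ν), ‖q.1.1‖ ≤ 2 ∧ ‖q.1.2‖ ≤ 2 := Measure.quasiMeasurePreserving_fst.ae hμ.bdd
      have h2 : ∀ᵐ q ∂(μ.prod ν), ‖q.2.1‖ ≤ B ∧ ‖q.2.2‖ ≤ B := Measure.quasiMeasurePreserving_snd.ae hB
      filter_upwards [h1, h2] with q hq1 hq2
      refine ⟨(norm_add_le _ _).trans (by linarith [hq1.1, hq2.1]), ?_⟩
      rw [norm_mul]
      have := mul_le_mul hq1.2 hq2.2 (norm_nonneg _) (by norm_num : (0:ℝ) ≤ 2)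
      linarith
    · intro k l
      have hc : Continuous fun q : ℂ × ℂ => q.2 * (q.1 ^ k * (starRingEnd ℂ q.1) ^ l) := by fun_prop
      rw [integral_map hg.aemeasurable hc.aestronglyMeasurable, hx, hy]
      have e1 : ∀ q : (ℂ × ℂ) × (ℂ × ℂ), (q.1.2 * q.2.2) * ((q.1.1 + q.2.1) ^ k * (starRingEnd ℂ (q.1.1 + q.2.1)) ^ l) =
          ∑ i ∈ range (k + 1), ∑ j ∈ range (l + 1), ((k.choose i : ℂ) * (l.choose j : ℂ)) *
            ((q.1.2 * (q.1.1 ^ i * (starRingEnd ℂ q.1.1) ^ j)) *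
              (q.2.2 * (q.2.1 ^ (k - i) * (starRingEnd ℂ q.2.1) ^ (l - j)))) := by
        intro q
        rw [map_add, add_pow, add_pow, sum_mul_sum, mul_sum]
        refine sum_congr rfl fun i _ => ?_
        rw [mul_sum]
        refine sum_congr rfl fun j _ => ?_
        ring
      simp only [e1]
      have hi : ∀ i j : ℕ, Integrable (fun q : (ℂ × ℂ) × (ℂ × ℂ) => ((k.choose i : ℂ) * (l.choose j : ℂ)) *
            ((q.1.2 * (q.1.1 ^ i * (starRingEnd ℂ q.1.1) ^ j)) *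
              (q.2.2 * (q.2.1 ^ (k - i) * (starRingEnd ℂ q.2.1) ^ (l - j))))) (μ.prod ν) := by
        intro i j
        refine Integrable.const_mul ?_ _
        exact Integrable.mul_prod (f := fun z : ℂ × ℂ => z.2 * (z.1 ^ i * (starRingEnd ℂ z.1) ^ j))
          (g := fun z : ℂ × ℂ => z.2 * (z.1 ^ (k - i) * (starRingEnd ℂ z.1) ^ (l - j)))
          (ibC' (by fun_prop)) (ibC (by fun_prop))
      rw [integral_finsetSum _ fun i _ => integrable_finsetSum _ fun j _ => hi i j]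
      have e2 : (single ((p, 1) : ℕ × ℕ) (1:ℝ) + xI I) ^ k * (single ((1, p) : ℕ × ℕ) (1:ℝ) + yI I) ^ l =
          ∑ i ∈ range (k + 1), ∑ j ∈ range (l + 1), ((k.choose i : ℝ) * (l.choose j : ℝ)) •
            ((single ((p, 1) : ℕ × ℕ) (1:ℝ) ^ i * single ((1, p) : ℕ × ℕ) (1:ℝ) ^ j) *
              (xI I ^ (k - i) * yI I ^ (l - j))) := by
        rw [add_pow, add_pow, sum_mul_sum]
        refine sum_congr rfl fun i _ => sum_congr rfl fun j _ => ?_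
        rw [Algebra.smul_def, map_mul, map_natCast, map_natCast]
        ring
      rw [e2, map_sum]
      push_cast
      refine sum_congr rfl fun i _ => ?_
      rw [integral_finsetSum _ fun j _ => hi i j, map_sum]
      push_cast
      refine sum_congr rfl fun j _ => ?_
      rw [integral_const_mul, integral_prod_mul (fun z : ℂ × ℂ => z.2 * (z.1 ^ i * (starRingEnd ℂ z.1) ^ j))
        (fun z : ℂ × ℂ => z.2 * (z.1 ^ (k - i) * (starRingEnd ℂ z.1) ^ (l - j))), hμ.mom, hν.mom, map_smul,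
        smul_eq_mul,
        hmul _ _ hdisj _ _ (Subalgebra.mul_mem _ (Subalgebra.pow_mem _ hxp i) (Subalgebra.pow_mem _ hyp j))
          (Subalgebra.mul_mem _ (Subalgebra.pow_mem _ (xI_mem hIp) _) (Subalgebra.pow_mem _ (yI_mem hIp) _)),
        xp_pow, lam_single, one_mul]
      push_cast
      ring
    · have hcc : Continuous fun q : ℂ × ℂ => ‖q.2‖ ^ 2 := by fun_prop
      rw [integral_map hg.aemeasurable hcc.aestronglyMeasurable]
      have e1 : ∀ q : (ℂ × ℂ) × (ℂ × ℂ), ‖q.1.2 * q.2.2‖ ^ 2 = ‖q.1.2‖ ^ 2 * ‖q.2.2‖ ^ 2 := by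
        intro q
        rw [norm_mul, mul_pow]
      simp only [e1]
      rw [integral_prod_mul (fun z : ℂ × ℂ => ‖z.2‖ ^ 2) (fun z : ℂ × ℂ => ‖z.2‖ ^ 2)]
      calc (∫ z, ‖z.2‖ ^ 2 ∂μ) * (∫ z, ‖z.2‖ ^ 2 ∂ν) ≤ _ :=
            mul_le_mul hμ.dsq hν.dsq (integral_nonneg fun z => by positivity) (Real.exp_pos _).le
        _ = _ := by
            rw [← Real.exp_add, hv]
            congr 1
            ring
    · intro c hc
      have hcc : Continuous fun q : ℂ × ℂ => Real.exp ((c * q.1).re) := by fun_prop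
      rw [integral_map hg.aemeasurable hcc.aestronglyMeasurable]
      have e1 : ∀ q : (ℂ × ℂ) × (ℂ × ℂ), Real.exp ((c * (q.1.1 + q.2.1)).re) =
          Real.exp ((c * q.1.1).re) * Real.exp ((c * q.2.1).re) := by
        intro q
        rw [mul_add, Complex.add_re, Real.exp_add]
      simp only [e1]
      rw [integral_prod_mul (fun z : ℂ × ℂ => Real.exp ((c * z.1).re)) (fun z : ℂ × ℂ => Real.exp ((c * z.1).re))]
      calc (∫ z, Real.exp ((c * z.1).re) ∂μ) * (∫ z, Real.exp ((c * z.1).re) ∂ν) ≤ _ :=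
            mul_le_mul (hμ.expc c hc) (hν.expc c hc) (integral_nonneg fun z => (Real.exp_pos _).le)
              (Real.exp_pos _).le
        _ = _ := by
            rw [← Real.exp_add, hv]
            congr 1
            ring
    · intro α β hα hβ
      obtain ⟨ε₁, hε₁, h1⟩ := hμ.exq α β hα hβ
      obtain ⟨ε₂, hε₂, h2⟩ := hν.exq α β hα hβ
      refine ⟨ε₁ + ε₂, ?_, ?_⟩
      · rw [hu, mul_add]
        exact (norm_add_le _ _).trans (add_le_add hε₁ hε₂)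
      · have hcc : Continuous fun q : ℂ × ℂ => q.2 * Complex.exp (α * q.1 + β * starRingEnd ℂ q.1) := by fun_prop
        rw [integral_map hg.aemeasurable hcc.aestronglyMeasurable]
        have e1 : ∀ q : (ℂ × ℂ) × (ℂ × ℂ), (q.1.2 * q.2.2) *
            Complex.exp (α * (q.1.1 + q.2.1) + β * starRingEnd ℂ (q.1.1 + q.2.1)) =
            (q.1.2 * Complex.exp (α * q.1.1 + β * starRingEnd ℂ q.1.1)) *
              (q.2.2 * Complex.exp (α * q.2.1 + β * starRingEnd ℂ q.2.1)) := by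
          intro q
          have e0 : α * (q.1.1 + q.2.1) + β * starRingEnd ℂ (q.1.1 + q.2.1) =
              (α * q.1.1 + β * starRingEnd ℂ q.1.1) + (α * q.2.1 + β * starRingEnd ℂ q.2.1) := by
            rw [map_add]
            ring
          rw [e0, Complex.exp_add]
          ring
        simp only [e1]
        rw [integral_prod_mul (fun z : ℂ × ℂ => z.2 * Complex.exp (α * z.1 + β * starRingEnd ℂ z.1))
          (fun z : ℂ × ℂ => z.2 * Complex.exp (α * z.1 + β * starRingEnd ℂ z.1)), h1, h2, ← Complex.exp_add, hv]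
        congr 1
        push_cast
        ring

/-! ### the laws of one prime -/

lemma rfacts {p : ℕ} (hp1 : 144 ≤ p) : ∃ r : ℝ, 0 < r ∧ r ^ 2 = 1 / (p : ℝ) ∧ r ≤ 1 / 12 := by
  have hpR : (144:ℝ) ≤ p := by exact_mod_cast hp1
  have hp0 : (0:ℝ) < p := by linarith
  refine ⟨Real.sqrt (1 / (p:ℝ)), Real.sqrt_pos.mpr (by positivity), Real.sq_sqrt (by positivity), ?_⟩
  rw [Real.sqrt_le_left (by norm_num), div_le_iff₀ hp0]
  norm_num
  linarith

lemma expc_aux {μ : Measure ℂ} [IsProbabilityMeasure μ] {r a Q P : ℝ} (hr : 0 < r) (ha : 0 ≤ a) (har : a ≤ r)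
    (hr1 : r ≤ 1) (hr2 : r ^ 2 = 1 / P) (hn : ∀ᵐ z ∂μ, ‖z‖ = r)
    (hm : ∀ k l : ℕ, ∫ z, z ^ k * (starRingEnd ℂ z) ^ l ∂μ =
        (((r ^ 2) ^ (min k l) * (r * a) ^ (max k l - min k l) : ℝ) : ℂ))
    (hQ : 1 ≤ Q) (hQr : 2 * Q * r ≤ 1) (c : ℂ) (hc : ‖c‖ ≤ 2 * Q) :
    ∫ z, Real.exp ((c * z).re) ∂μ ≤ Real.exp (A3 Q * (1 / P)) := by
  have h0 : ‖c‖ * r ≤ 1 := (mul_le_mul_of_nonneg_right hc hr.le).trans hQr
  have h1 := single_exp (μ := μ) hr ha hn hm (c := c) h0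
  refine h1.trans (Real.exp_le_exp.mpr ?_)
  rw [← hr2]
  have h2 : c.re ≤ 2 * Q := (Complex.re_le_norm c).trans hc
  have hra : r * a ≤ r * r := mul_le_mul_of_nonneg_left har hr.le
  have h3 : c.re * (r * a) ≤ 2 * Q * r ^ 2 := by
    calc c.re * (r * a) ≤ 2 * Q * (r * a) := mul_le_mul_of_nonneg_right h2 (by positivity)
      _ ≤ 2 * Q * (r * r) := mul_le_mul_of_nonneg_left hra (by linarith)
      _ = _ := by ring
  have h4 : ‖c‖ ^ 2 ≤ 4 * Q ^ 2 := by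
    have := pow_le_pow_left₀ (norm_nonneg c) hc 2
    calc ‖c‖ ^ 2 ≤ (2 * Q) ^ 2 := this
      _ = _ := by ring
  have h5 : ‖c‖ ^ 3 ≤ 8 * Q ^ 3 := by
    have := pow_le_pow_left₀ (norm_nonneg c) hc 3
    calc ‖c‖ ^ 3 ≤ (2 * Q) ^ 3 := this
      _ = _ := by ring
  have h6 : ‖c‖ ^ 2 * r ^ 2 ≤ 4 * Q ^ 2 * r ^ 2 := mul_le_mul_of_nonneg_right h4 (sq_nonneg r)
  have h7 : (r * a) ^ 2 ≤ r ^ 2 := by
    have : r * a ≤ r := by
      have h8 : r * r ≤ r * 1 := mul_le_mul_of_nonneg_left hr1 hr.le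
      linarith
    exact pow_le_pow_left₀ (by positivity) this 2
  have h8 : ‖c‖ ^ 2 * (r * a) ^ 2 ≤ 4 * Q ^ 2 * r ^ 2 := mul_le_mul h4 h7 (by positivity) (by positivity)
  have h9 : ‖c‖ ^ 3 * r ^ 3 ≤ 8 * Q ^ 3 * r ^ 2 :=
    mul_le_mul h5 (pow_le_pow_of_le_one hr.le hr1 (by norm_num)) (by positivity) (by positivity)
  have h10 := (A3_facts hQ).2.1
  have h11 := mul_le_mul_of_nonneg_right h10 (sq_nonneg r)
  linarith

lemma Qr_le {r Q P : ℝ} (hr : 0 < r) (hQ : 1 ≤ Q) (hP : 0 < P) (hr2 : r ^ 2 = 1 / P) (h : 4 * Q ^ 2 ≤ P) :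
    2 * Q * r ≤ 1 := by
  have h1 : (2 * Q * r) ^ 2 ≤ 1 ^ 2 := by
    have e : (2 * Q * r) ^ 2 = 4 * Q ^ 2 * r ^ 2 := by ring
    rw [e, hr2, mul_one_div, one_pow, div_le_one hP]
    exact h
  exact (sq_le_sq₀ (by positivity) (by norm_num)).mp h1

lemma PL_good {w : ℕ × ℕ → ℝ} {κ Q : ℝ} (hw : GoodW w κ) (hQ : 1 ≤ Q) {p : ℕ} (hp : p.Prime) (hp1 : 144 ≤ p)
    (hpQ : (A1 Q + A2 Q) * (1 / (p : ℝ)) ≤ 1 / 2) (hpQ2 : 4 * Q ^ 2 ≤ (p : ℝ)) :
    ∃ μ' : Measure (ℂ × ℂ), PL w κ κ Q (A3 Q) p μ' := by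
  obtain ⟨r, hr0, hr2, hr12⟩ := rfacts hp1
  have hpR : (144:ℝ) ≤ p := by exact_mod_cast hp1
  have hp0 : (0:ℝ) < p := by linarith
  have hk0 := hw.k0
  have hk1 := hw.k1
  have ha0 : 0 ≤ κ * r := mul_nonneg hw.k0 hr0.le
  have har : κ * r ≤ r := by
    have := mul_le_mul_of_nonneg_right hw.k1 hr0.le
    linarith
  have ha1 : κ * r < 1 := by linarith
  have hra : r * (κ * r) = κ / p := by
    rw [show r * (κ * r) = κ * r ^ 2 by ring, hr2]; ring
  have hQr : 2 * Q * r ≤ 1 := Qr_le hr0 hQ hp0 hr2 hpQ2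
  obtain ⟨μ, hμ, hn, hm⟩ := single_law hr0 ha0 ha1
  refine PL_mk hQ hw.k0 hw.k1 hw.k0 hw.k1 (by omega) hpQ hμ (r := r) (by linarith) hn (D := fun _ => 1)
    measurable_const (by intro z _; norm_num) ?_ ?_ ?_ ?_ ?_ ?_ ?_ ?_
  · intro k l
    simp only [one_mul]
    rw [hm, hw.loc p hp, hra, hr2]
  · intro k l
    rw [hw.loc p hp, abs_of_nonneg (by positivity)]
    have h1 : (κ / p) ^ (max k l - min k l) ≤ (1 / (p:ℝ)) ^ (max k l - min k l) :=
      pow_le_pow_left₀ (by positivity) (div_le_div_of_nonneg_right hk1 hp0.le) _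
    calc (1 / (p:ℝ)) ^ (min k l) * (κ / p) ^ (max k l - min k l)
        ≤ (1 / (p:ℝ)) ^ (min k l) * (1 / (p:ℝ)) ^ (max k l - min k l) :=
          mul_le_mul_of_nonneg_left h1 (by positivity)
      _ = (1 / (p:ℝ)) ^ (max k l) := by
          rw [← pow_add, Nat.add_sub_cancel' (min_le_max)]
  · rw [hw.loc p hp]; simp
  · rw [hw.loc p hp]; simp
  · rw [hw.loc p hp]; simp
  · rw [hw.loc p hp]; simp
  · simp only [norm_one, one_pow]
    rw [integral_const]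
    simp only [probReal_univ, smul_eq_mul, mul_one]
    apply Real.one_le_exp
    have := (A3_facts hQ).2.2
    positivity
  · exact fun c hc => expc_aux hr0 ha0 har (by linarith) hr2 hn hm hQ hQr c hc

/-- the moments with the density `1 / (1 - z)` -/
lemma mom_geo {μ : Measure ℂ} [IsProbabilityMeasure μ] {r : ℝ} (hr : 0 < r) (hr1 : r ≤ 1 / 12)
    (hn : ∀ᵐ z ∂μ, ‖z‖ = r)
    (hm : ∀ k l : ℕ, ∫ z, z ^ k * (starRingEnd ℂ z) ^ l ∂μ =
        (((r ^ 2) ^ (min k l) * (r * 0) ^ (max k l - min k l) : ℝ) : ℂ)) (k l : ℕ) :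
    ∫ z, (1 - z)⁻¹ * (z ^ k * (starRingEnd ℂ z) ^ l) ∂μ = (((if k ≤ l then (r ^ 2) ^ l else 0) : ℝ) : ℂ) := by
  set F : ℕ → ℂ → ℂ := fun n z => z ^ (n + k) * (starRingEnd ℂ z) ^ l with hF
  have hb : ∀ n : ℕ, ∀ᵐ z ∂μ, ‖F n z‖ ≤ r ^ n := by
    intro n
    filter_upwards [hn] with z hz
    rw [hF]
    simp only
    rw [norm_mul, norm_pow, norm_pow, RCLike.norm_conj, hz, pow_add]
    have h1 : r ^ k ≤ 1 := pow_le_one₀ hr.le (by linarith)
    have h2 : r ^ l ≤ 1 := pow_le_one₀ hr.le (by linarith)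
    calc r ^ n * r ^ k * r ^ l ≤ r ^ n * 1 * 1 := by gcongr
      _ = r ^ n := by ring
  have hFm : ∀ n, AEStronglyMeasurable (F n) μ := by
    intro n
    have : Continuous (F n) := by rw [hF]; simp only; fun_prop
    exact this.aestronglyMeasurable
  have hFi : ∀ n, Integrable (F n) μ := fun n => Integrable.of_bound (hFm n) _ (hb n)
  have hs : Summable (fun n => ∫ z, ‖F n z‖ ∂μ) := by
    refine Summable.of_nonneg_of_le (fun n => integral_nonneg fun z => norm_nonneg _) (fun n => ?_)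
      (summable_geometric_of_lt_one hr.le (by linarith : r < 1))
    have h1 := integral_mono_ae (hFi n).norm (integrable_const (r ^ n)) (hb n)
    simpa using h1
  have h1 := hasSum_integral_of_summable_integral_norm hFi hs
  have h2 : ∫ z, ∑' n, F n z ∂μ = ∫ z, (1 - z)⁻¹ * (z ^ k * (starRingEnd ℂ z) ^ l) ∂μ := by
    refine integral_congr_ae ?_
    filter_upwards [hn] with z hz
    have h3 : ∀ n, F n z = z ^ n * (z ^ k * (starRingEnd ℂ z) ^ l) := by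
      intro n
      rw [hF]
      simp only
      rw [pow_add]
      ring
    simp_rw [h3]
    rw [tsum_mul_right, tsum_geometric_of_norm_lt_one (by rw [hz]; linarith)]
  rw [h2] at h1
  have h4 : (fun n : ℕ => ∫ z, F n z ∂μ) = fun n => if n + k = l then (((r ^ 2) ^ l : ℝ) : ℂ) else 0 := by
    funext n
    rw [hF]
    simp only
    rw [hm]
    split_ifs with h5
    · rw [h5]; simp
    · rw [mul_zero, zero_pow (by omega), mul_zero]; simp
  rw [h4] at h1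
  by_cases hkl : k ≤ l
  · rw [if_pos hkl]
    have h5 : HasSum (fun n : ℕ => if n + k = l then (((r ^ 2) ^ l : ℝ) : ℂ) else 0) (((r ^ 2) ^ l : ℝ) : ℂ) := by
      have h6 := hasSum_single (f := fun n : ℕ => if n + k = l then (((r ^ 2) ^ l : ℝ) : ℂ) else 0) (l - k)
        (fun n hn' => if_neg (by omega))
      have h7 : l - k + k = l := by omega
      rw [if_pos h7] at h6
      exact h6
    exact h1.unique h5
  · rw [if_neg hkl]
    have h5 : HasSum (fun n : ℕ => if n + k = l then (((r ^ 2) ^ l : ℝ) : ℂ) else 0) 0 := by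
      have h6 : (fun n : ℕ => if n + k = l then (((r ^ 2) ^ l : ℝ) : ℂ) else 0) = fun _ => 0 := by
        funext n
        exact if_neg (by omega)
      rw [h6]
      exact hasSum_zero
    rw [h1.unique h5]
    simp

lemma dsq_geo {μ : Measure ℂ} [IsProbabilityMeasure μ] {r : ℝ} (hr : 0 < r) (hr1 : r ≤ 1 / 12)
    (hn : ∀ᵐ z ∂μ, ‖z‖ = r) (h1 : ∫ z, (1 - z)⁻¹ ∂μ = 1) :
    ∫ z, ‖(1 - z)⁻¹‖ ^ 2 ∂μ ≤ Real.exp (2 * r ^ 2) := by
  have hr2 : r ^ 2 ≤ 1 / 144 := by nlinarith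
  have hi : Integrable (fun z : ℂ => (1 - z)⁻¹) μ := by
    refine Integrable.of_bound (by fun_prop) 2 ?_
    filter_upwards [hn] with z hz
    rw [norm_inv]
    have h2 : 1 / 2 ≤ ‖1 - z‖ := by
      have h3 := norm_sub_norm_le (1:ℂ) z
      rw [norm_one, hz] at h3
      linarith
    rw [inv_le_comm₀ (by linarith) (by norm_num)]
    linarith
  have h2 : ∫ z, ‖(1 - z)⁻¹‖ ^ 2 ∂μ = ∫ z, (2 * ((1 - z)⁻¹).re - 1) / (1 - r ^ 2) ∂μ := by
    refine integral_congr_ae ?_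
    filter_upwards [hn] with z hz
    have hne : (1 : ℂ) - z ≠ 0 := by
      intro h0
      have h3 : z = 1 := by linear_combination -h0
      rw [h3, norm_one] at hz
      linarith
    have hpos : 0 < Complex.normSq (1 - z) := Complex.normSq_pos.mpr hne
    have h3 : z.re ^ 2 + z.im ^ 2 = r ^ 2 := by
      have := Complex.sq_norm z
      rw [hz, Complex.normSq_apply] at this
      nlinarith
    have h4 : ‖(1 - z)⁻¹‖ ^ 2 = (Complex.normSq (1 - z))⁻¹ := by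
      rw [Complex.sq_norm, map_inv₀]
    rw [h4, Complex.inv_re, Complex.sub_re, Complex.one_re]
    have h5 : Complex.normSq (1 - z) = 1 - 2 * z.re + r ^ 2 := by
      rw [Complex.normSq_apply]
      simp
      nlinarith
    have h6 : (1:ℝ) - r ^ 2 ≠ 0 := by
      intro h0; linarith
    rw [h5] at hpos ⊢
    field_simp
    ring
  rw [h2]
  have h3 : ∫ z, ((1 - z)⁻¹).re ∂μ = 1 := by
    have h4 : ∫ z, ((1 - z)⁻¹).re ∂μ = (∫ z, (1 - z)⁻¹ ∂μ).re := integral_re hi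
    rw [h4, h1]
    simp
  have hi' : Integrable (fun z : ℂ => ((1 - z)⁻¹).re) μ := hi.re
  rw [integral_div, integral_sub (hi'.const_mul 2) (integrable_const _), integral_const_mul, h3, integral_const]
  simp only [probReal_univ, smul_eq_mul, mul_one]
  have h5 := Real.add_one_le_exp (2 * r ^ 2)
  refine le_trans ?_ h5
  rw [div_le_iff₀ (by linarith)]
  nlinarith [sq_nonneg r]

lemma wF_pow {p : ℕ} (hp : p.Prime) (k l : ℕ) : wF (p ^ k, p ^ l) = if k ≤ l then (1 / (p:ℝ)) ^ l else 0 := by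
  unfold wF
  simp only
  by_cases h : k ≤ l
  · rw [if_pos h, if_pos (pow_dvd_pow p h)]
    push_cast
    rw [div_pow, one_pow]
  · rw [if_neg h, if_neg]
    intro h1
    exact h ((Nat.pow_dvd_pow_iff_le_right hp.one_lt).mp h1)

lemma PL_F {Q : ℝ} (hQ : 1 ≤ Q) {p : ℕ} (hp : p.Prime) (hp1 : 144 ≤ p)
    (hpQ : (A1 Q + A2 Q) * (1 / (p : ℝ)) ≤ 1 / 2) (hpQ2 : 4 * Q ^ 2 ≤ (p : ℝ)) :
    ∃ μ' : Measure (ℂ × ℂ), PL wF 0 1 Q (A3 Q) p μ' := by
  obtain ⟨r, hr0, hr2, hr12⟩ := rfacts hp1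
  have hpR : (144:ℝ) ≤ p := by exact_mod_cast hp1
  have hp0 : (0:ℝ) < p := by linarith
  have hQr : 2 * Q * r ≤ 1 := Qr_le hr0 hQ hp0 hr2 hpQ2
  obtain ⟨μ, hμ, hn, hm⟩ := single_law (r := r) (a := 0) hr0 le_rfl (by norm_num)
  have hgeo := mom_geo hr0 hr12 hn hm
  refine PL_mk hQ le_rfl zero_le_one zero_le_one le_rfl (by omega) hpQ hμ (r := r) (by linarith) hn
    (D := fun z => (1 - z)⁻¹) (by fun_prop) ?_ ?_ ?_ ?_ ?_ ?_ ?_ ?_ ?_
  · intro z hz
    rw [norm_inv]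
    have h2 : 1 / 2 ≤ ‖1 - z‖ := by
      have h3 := norm_sub_norm_le (1:ℂ) z
      rw [norm_one, hz] at h3
      linarith
    rw [inv_le_comm₀ (by linarith) (by norm_num)]
    linarith
  · intro k l
    rw [hgeo, wF_pow hp, hr2]
  · intro k l
    rw [wF_pow hp]
    split_ifs with h
    · rw [abs_of_nonneg (by positivity), max_eq_right h]
    · rw [abs_zero]; positivity
  · rw [wF_pow hp]; simp
  · rw [wF_pow hp]; simp
  · rw [wF_pow hp]; simp
  · rw [wF_pow hp]; simp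
  · have h1 := hgeo 0 0
    simp only [pow_zero, mul_one, le_refl, if_true] at h1
    have h2 := dsq_geo hr0 hr12 hn (by rw [h1]; simp)
    refine h2.trans (Real.exp_le_exp.mpr ?_)
    rw [hr2]
    exact mul_le_mul_of_nonneg_right (A3_facts hQ).2.2 (by positivity)
  · exact fun c hc => expc_aux hr0 le_rfl hr0.le (by linarith) hr2 hn hm hQ hQr c hc

/-! ### conclusion -/

lemma LW_of_IL {w : ℕ × ℕ → ℝ} {κ₁ κ₂ Q : ℝ} (hQ : 1 ≤ Q) {I : Finset ℕ} {ν : Measure (ℂ × ℂ)}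
    (h : IL w κ₁ κ₂ Q (A3 Q) I ν) : LW w κ₁ κ₂ Q (A3 Q + 4) I ν := by
  have := h.prob
  obtain ⟨B, hB0, hB⟩ := h.bdd
  have hv := vI_nonneg I
  have hu := uI_nonneg I
  have hA : 2 ≤ A3 Q := (A3_facts hQ).2.2
  have hexp : Real.exp (A3 Q * vI I) ≤ Real.exp ((A3 Q + 4) * (vI I + uI I)) := by
    apply Real.exp_le_exp.mpr
    nlinarith [mul_nonneg (by linarith : (0:ℝ) ≤ A3 Q) hu]
  have hpos := Real.exp_pos ((A3 Q + 4) * (vI I + uI I))
  refine ⟨h.prob, ⟨B, hB⟩, h.mom, ?_, ?_, ?_⟩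
  · refine h.dsq.trans ?_
    nlinarith
  · have hi : ∀ c : ℂ, Integrable (fun q : ℂ × ℂ => Real.exp ((c * q.1).re)) ν :=
      fun c => ib2 hB (by fun_prop)
    have hi2 : Integrable (fun q : ℂ × ℂ => Real.exp (Q * ‖q.1‖)) ν := ib2 hB (by fun_prop)
    have key : ∀ c : ℂ, ‖c‖ ≤ 6 → ∫ q, Real.exp ((c * (Q / 4) * q.1).re) ∂ν ≤ Real.exp (A3 Q * vI I) := by
      intro c hc
      refine h.expc (c * (Q / 4)) ?_
      rw [norm_mul]
      have h1 : ‖((Q:ℂ) / 4)‖ = Q / 4 := by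
        rw [norm_div, Complex.norm_real, Real.norm_of_nonneg (by linarith)]
        norm_num
      rw [h1]
      nlinarith
    have hn : ∀ s t : ℝ, s ^ 2 = 16 → t ^ 2 = 16 → ‖(s : ℂ) + t * Complex.I‖ ≤ 6 := by
      intro s t hs ht
      have h1 : ‖(s : ℂ) + t * Complex.I‖ ^ 2 ≤ 6 ^ 2 := by
        rw [Complex.sq_norm, Complex.normSq_add_mul_I, hs, ht]
        norm_num
      exact (sq_le_sq₀ (norm_nonneg _) (by norm_num)).mp h1
    have n1 : ‖(4:ℂ) - 4 * Complex.I‖ ≤ 6 := by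
      have := hn 4 (-4) (by norm_num) (by norm_num)
      push_cast at this
      rwa [show (4:ℂ) - 4 * Complex.I = 4 + -4 * Complex.I by ring]
    have n2 : ‖(4:ℂ) + 4 * Complex.I‖ ≤ 6 := by
      have := hn 4 4 (by norm_num) (by norm_num)
      push_cast at this
      exact this
    have n3 : ‖(-4:ℂ) - 4 * Complex.I‖ ≤ 6 := by
      have := hn (-4) (-4) (by norm_num) (by norm_num)
      push_cast at this
      rwa [show (-4:ℂ) - 4 * Complex.I = -4 + -4 * Complex.I by ring]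
    have n4 : ‖(-4:ℂ) + 4 * Complex.I‖ ≤ 6 := by
      have := hn (-4) 4 (by norm_num) (by norm_num)
      push_cast at this
      exact this
    have h1 : ∀ q : ℂ × ℂ, Real.exp (Q * ‖q.1‖) ≤
        Real.exp ((((4:ℂ) - 4 * Complex.I) * (Q / 4) * q.1).re) +
        Real.exp ((((4:ℂ) + 4 * Complex.I) * (Q / 4) * q.1).re) +
        Real.exp ((((-4:ℂ) - 4 * Complex.I) * (Q / 4) * q.1).re) +
        Real.exp ((((-4:ℂ) + 4 * Complex.I) * (Q / 4) * q.1).re) := by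
      intro q
      have h2 := norm_exp_le ((Q / 4 : ℂ) * q.1)
      have h3 : 4 * ‖(Q / 4 : ℂ) * q.1‖ = Q * ‖q.1‖ := by
        rw [norm_mul, norm_div, Complex.norm_real, Real.norm_of_nonneg (by linarith)]
        norm_num
        ring
      rw [h3] at h2
      simp only [← mul_assoc] at h2
      simp only [mul_assoc] at h2 ⊢
      exact h2
    have j2 : Integrable (fun q : ℂ × ℂ => Real.exp ((((4:ℂ) - 4 * Complex.I) * (Q / 4) * q.1).re) +
        Real.exp ((((4:ℂ) + 4 * Complex.I) * (Q / 4) * q.1).re)) ν := (hi _).add (hi _)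
    have j3 : Integrable (fun q : ℂ × ℂ => Real.exp ((((4:ℂ) - 4 * Complex.I) * (Q / 4) * q.1).re) +
        Real.exp ((((4:ℂ) + 4 * Complex.I) * (Q / 4) * q.1).re) +
        Real.exp ((((-4:ℂ) - 4 * Complex.I) * (Q / 4) * q.1).re)) ν := j2.add (hi _)
    have h2 : ∫ q, Real.exp (Q * ‖q.1‖) ∂ν ≤ 4 * Real.exp (A3 Q * vI I) := by
      calc ∫ q, Real.exp (Q * ‖q.1‖) ∂ν ≤ ∫ q, (Real.exp ((((4:ℂ) - 4 * Complex.I) * (Q / 4) * q.1).re) +
            Real.exp ((((4:ℂ) + 4 * Complex.I) * (Q / 4) * q.1).re) +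
            Real.exp ((((-4:ℂ) - 4 * Complex.I) * (Q / 4) * q.1).re) +
            Real.exp ((((-4:ℂ) + 4 * Complex.I) * (Q / 4) * q.1).re)) ∂ν := by
            refine integral_mono hi2 ?_ h1
            exact (((hi _).add (hi _)).add (hi _)).add (hi _)
        _ = (∫ q, Real.exp ((((4:ℂ) - 4 * Complex.I) * (Q / 4) * q.1).re) ∂ν) +
            (∫ q, Real.exp ((((4:ℂ) + 4 * Complex.I) * (Q / 4) * q.1).re) ∂ν) +
            (∫ q, Real.exp ((((-4:ℂ) - 4 * Complex.I) * (Q / 4) * q.1).re) ∂ν) +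
            (∫ q, Real.exp ((((-4:ℂ) + 4 * Complex.I) * (Q / 4) * q.1).re) ∂ν) := by
            rw [integral_add j3 (hi _), integral_add j2 (hi _), integral_add (hi _) (hi _)]
        _ ≤ _ := by
            linarith [key _ n1, key _ n2, key _ n3, key _ n4]
    refine h2.trans ?_
    nlinarith [Real.exp_pos (A3 Q * vI I)]
  · intro α β hα hβ
    obtain ⟨ε, hε, hE⟩ := h.exq α β hα hβ
    refine ⟨ε, hε.trans ?_, hE⟩
    nlinarith

theorem t_LAW (hF : P_WF) : P_LAW := by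
  intro Q hQ
  have hA : 2 ≤ A3 Q := (A3_facts hQ).2.2
  refine ⟨144 + ⌈4 * Q ^ 2⌉₊ + ⌈2 * (A1 Q + A2 Q)⌉₊, A3 Q + 4, by omega, by linarith, ?_⟩
  intro I hI
  have hI1 : ∀ p ∈ I, 144 ≤ p := fun p hp => by have := (hI p hp).2; omega
  have hI2 : ∀ p ∈ I, 4 * Q ^ 2 ≤ (p : ℝ) := by
    intro p hp
    have h1 : ⌈4 * Q ^ 2⌉₊ ≤ p := by have := (hI p hp).2; omega
    exact Nat.ceil_le.mp h1
  have hI3 : ∀ p ∈ I, (A1 Q + A2 Q) * (1 / (p : ℝ)) ≤ 1 / 2 := by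
    intro p hp
    have h1 : ⌈2 * (A1 Q + A2 Q)⌉₊ ≤ p := by have := (hI p hp).2; omega
    have h2 := Nat.ceil_le.mp h1
    have h3 : (0:ℝ) < p := by exact_mod_cast (hI p hp).1.pos
    rw [mul_one_div, div_le_div_iff₀ h3 (by norm_num)]
    linarith
  refine ⟨?_, ?_, ?_⟩
  · obtain ⟨ν, hν⟩ := IL_exists (w := w0) (κ₁ := 0) (κ₂ := 0) (Q := Q) (A := A3 Q)
      (fun I J h f g hf hg => lam0_mul h hf hg) goodW0.one I
      (fun p hp => ⟨(hI p hp).1, PL_good goodW0 hQ (hI p hp).1 (hI1 p hp) (hI3 p hp) (hI2 p hp)⟩)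
    exact ⟨ν, LW_of_IL hQ hν⟩
  · obtain ⟨ν, hν⟩ := IL_exists (w := w1) (κ₁ := 1) (κ₂ := 1) (Q := Q) (A := A3 Q)
      (fun I J h f g hf hg => lam1_mul h hf hg) goodW1.one I
      (fun p hp => ⟨(hI p hp).1, PL_good goodW1 hQ (hI p hp).1 (hI1 p hp) (hI3 p hp) (hI2 p hp)⟩)
    exact ⟨ν, LW_of_IL hQ hν⟩
  · obtain ⟨ν, hν⟩ := IL_exists (w := wF) (κ₁ := 0) (κ₂ := 1) (Q := Q) (A := A3 Q) hF (by simp [wF]) I
      (fun p hp => ⟨(hI p hp).1, PL_F hQ (hI p hp).1 (hI1 p hp) (hI3 p hp) (hI2 p hp)⟩)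
    exact ⟨ν, LW_of_IL hQ hν⟩

end Pool.Agent.TH364.LK_LAW
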