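import Pool.Agent.TH806.LM.Defs
import Pool.Agent.W354.ZP.LogI

set_option autoImplicit false

/-!
Jensen's inequality for zeta times a Dirichlet polynomial: small values on the critical line are rare.
-/

namespace Pool.Agent.TH364.LM_JEN

open MeasureTheory Filter Topology Set Complex
open Pool.Agent.W184 (KS KS_cont KS_nonneg KS_integral KS_integrable strip_ineq zn zn_le')
open Pool.Agent.W354.ZP (Fa Fa_norm Fa_diff Fa_bound zeta_ge zeta_le ratio_le_one KS_exp KS_low exp_int pos_part_le)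
open Pool.Agent.W184.NZ (wz)
open Pool.Agent.TH806
open Pool.Agent.H306R2.SM (om cl)
open Pool.Agent.H262R4.TM (Rng)

/-- the weighted positive part for one exponent `q` -/
lemma pre_log {κ y : ℝ → ℝ} (hκ0 : ∀ w, 0 ≤ κ w) (hκi : Integrable κ) (hκm : ∫ w, κ w = 1 / 2)
    (hy : Continuous y) (hy0 : ∀ w, 0 ≤ y w) {B : ℝ} (hyB : ∀ w, y w ≤ B) {a R q : ℝ} (ha : 0 < a)
    (hR : 1 ≤ R) (hq : 0 < q) (hq1 : q ≤ 1)
    (hmain : a ^ q ≤ R ^ q / 2 + ∫ w, κ w * y w ^ q) :
    ∫⁻ w, ENNReal.ofReal (κ w * max ((1 - y w ^ q) / q) 0) ≤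
      ENNReal.ofReal ((R - 1) / 2 - Real.log a + ∫ w, κ w * y w) := by
  have hyq : ∀ r : ℝ, 0 < r → Continuous fun w => y w ^ r := fun r hr =>
    hy.rpow_const fun _ => Or.inr hr.le
  have hint : ∀ r : ℝ, 0 < r → Integrable fun w => κ w * y w ^ r := by
    intro r hr
    refine (hκi.mul_const (B ^ r)).mono' (hκi.aestronglyMeasurable.mul (hyq r hr).aestronglyMeasurable)
      (Eventually.of_forall fun w => ?_)
    rw [Real.norm_of_nonneg (mul_nonneg (hκ0 w) (Real.rpow_nonneg (hy0 w) _))]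
    exact mul_le_mul_of_nonneg_left (Real.rpow_le_rpow (hy0 w) (hyB w) hr.le) (hκ0 w)
  have hint1 : Integrable fun w => κ w * y w := by
    have := hint 1 one_pos
    simpa only [Real.rpow_one] using this
  have i1 : Integrable fun w => κ w * ((1 - y w ^ q) / q) := by
    have := ((hκi.sub (hint q hq)).div_const q)
    refine this.congr (Eventually.of_forall fun w => ?_)
    simp only [Pi.sub_apply]
    ring
  have i3 : Integrable fun w => κ w * max ((1 - y w ^ q) / q) 0 := by
    have := i1.pos_part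
    refine this.congr (Eventually.of_forall fun w => ?_)
    simp only
    rw [mul_max_of_nonneg _ _ (hκ0 w), mul_zero]
  rw [← ofReal_integral_eq_lintegral_ofReal i3 (Eventually.of_forall fun w =>
    mul_nonneg (hκ0 w) (le_max_right _ _))]
  refine ENNReal.ofReal_le_ofReal ?_
  calc ∫ w, κ w * max ((1 - y w ^ q) / q) 0 ≤ ∫ w, (κ w * ((1 - y w ^ q) / q) + κ w * y w) := by
        refine integral_mono i3 (i1.add hint1) fun w => ?_
        simp only
        rw [← mul_add]
        refine mul_le_mul_of_nonneg_left ?_ (hκ0 w)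
        have := pos_part_le (hy0 w) hq hq1
        rwa [Real.rpow_one, div_one] at this
    _ = (∫ w, κ w * ((1 - y w ^ q) / q)) + ∫ w, κ w * y w := integral_add i1 hint1
    _ ≤ ((R - 1) / 2 - Real.log a) + ∫ w, κ w * y w := by
        refine add_le_add ?_ le_rfl
        have e : ∫ w, κ w * ((1 - y w ^ q) / q) = (1 / 2 - ∫ w, κ w * y w ^ q) / q := by
          rw [← hκm, ← integral_sub hκi (hint q hq), ← integral_div]
          refine integral_congr_ae (Eventually.of_forall fun w => ?_)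
          simp only
          ring
        rw [e]
        have h2 : R ^ q ≤ 1 + q * (R - 1) := by
          have := rpow_one_add_le_one_add_mul_self (s := R - 1) (by linarith) hq.le hq1
          rwa [show 1 + (R - 1) = R by ring] at this
        have h3 : 1 + q * Real.log a ≤ a ^ q := by
          rw [Real.rpow_def_of_pos ha]
          have := Real.add_one_le_exp (Real.log a * q)
          linarith
        rw [div_le_iff₀ hq]
        nlinarith
    _ = _ := by ring

/-- the product on the critical line -/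
noncomputable def yy (M : ℂ → ℂ) (u : ℝ) : ℝ := Xz u * ‖M (cl u)‖

lemma cl_re (u : ℝ) : (cl u).re = 1 / 2 := by unfold cl; simp

lemma cl_im (u : ℝ) : (cl u).im = u := by unfold cl; simp

lemma cl_cont : Continuous cl := by unfold cl; fun_prop

lemma yy_nonneg (M : ℂ → ℂ) (u : ℝ) : 0 ≤ yy M u := mul_nonneg (Xz_nonneg u) (norm_nonneg _)

lemma yy_cont {M : ℂ → ℂ} (hM : Differentiable ℂ M) : Continuous (yy M) :=
  Xz_cont.mul (hM.continuous.comp cl_cont).norm

lemma Xz_lin (u : ℝ) : Xz u ≤ 12 * (1 + |u|) := by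
  have h := zn_le' (σ := 1 / 2) (t := u) (by norm_num) (by norm_num)
  have e : Xz u = zn (1 / 2) u := by
    unfold Xz zn cl
    push_cast
    rfl
  rw [e]; exact h

lemma yy_le {M : ℂ → ℂ} {T : ℝ} (hM : ∀ s : ℂ, 1 / 2 ≤ s.re → ‖M s‖ ≤ T) (u : ℝ) :
    yy M u ≤ 12 * (1 + |u|) * T :=
  mul_le_mul (Xz_lin u) (hM _ (by rw [cl_re])) (norm_nonneg _) (by positivity)

/-- the pointwise bound -/
lemma pt {M : ℂ → ℂ} (hMd : Differentiable ℂ M) (hM1 : ∀ s : ℂ, 2 ≤ s.re → ‖M s - 1‖ ≤ 1 / 4) {T : ℝ}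
    (_hT : 1 ≤ T) (hMT : ∀ s : ℂ, 1 / 2 ≤ s.re → ‖M s‖ ≤ T) {K : ℝ} (hK : 9 ≤ K) (t : ℝ) :
    ENNReal.ofReal (K / 2) * ∫⁻ w in {w : ℝ | yy M (t + w) ≤ Real.exp (-K)}, ENNReal.ofReal (KS (3 / 2) w) ≤
      ENNReal.ofReal 100 + ENNReal.ofReal 10 * ∫⁻ w, ENNReal.ofReal (KS (3 / 2) w * yy M (t + w) ^ 2) := by
  have hΔ0 : (0:ℝ) < 3 / 2 := by norm_num
  set c : ℂ := (2:ℂ) + t * I with hc
  have hcre : c.re = 2 := by simp [hc]
  have hcim : c.im = t := by simp [hc]
  have hcl : ∀ w : ℝ, (c - ((3 / 2 : ℝ) : ℂ) + (w : ℂ) * I) = cl (t + w) := by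
    intro w
    rw [hc]; unfold cl
    push_cast
    ring
  have hcr : ∀ w : ℝ, (c + ((3 / 2 : ℝ) : ℂ) + (w : ℂ) * I).re = 7 / 2 := by
    intro w; simp [hcre]; norm_num
  have hcri : ∀ w : ℝ, (c + ((3 / 2 : ℝ) : ℂ) + (w : ℂ) * I).im = t + w := by intro w; simp [hcim]
  set F : ℂ → ℂ := fun z => Fa c z * M z with hF
  set y : ℝ → ℝ := fun w => ‖F (c - ((3 / 2 : ℝ) : ℂ) + (w : ℂ) * I)‖ with hy
  have hFd : ∀ z : ℂ, 0 < z.re → DifferentiableAt ℂ F z := fun z hz => (Fa_diff c hz).mul (hMd z)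
  have hyc : Continuous y := by
    rw [hy, continuous_iff_continuousAt]
    intro w
    refine ContinuousAt.norm ?_
    have h3 : ContinuousAt F (c - ((3 / 2 : ℝ) : ℂ) + (w : ℂ) * I) :=
      (hFd _ (by rw [hcl, cl_re]; norm_num)).continuousAt
    exact ContinuousAt.comp (f := fun w : ℝ => c - ((3 / 2 : ℝ) : ℂ) + (w : ℂ) * I) h3 (by fun_prop)
  have hFB : ∀ z : ℂ, 1 / 2 ≤ z.re → z.re ≤ 4 → ‖F z‖ ≤ 4 * (6 + |c.im|) * Real.exp 4 * T := by
    intro z h1 h2
    simp only [hF]
    rw [norm_mul]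
    exact mul_le_mul (Fa_bound hcre (by linarith) h2) (hMT z h1) (norm_nonneg _) (by positivity)
  have hyB : ∀ w, y w ≤ 4 * (6 + |c.im|) * Real.exp 4 * T := fun w =>
    hFB _ (by rw [hcl, cl_re]) (by rw [hcl, cl_re]; norm_num)
  have hne1 : ∀ w : ℝ, cl (t + w) ≠ 1 := by
    intro w h
    have := congrArg Complex.re h
    rw [cl_re] at this
    norm_num at this
  have hyle : ∀ w : ℝ, y w ≤ yy M (t + w) * Real.exp (9 / 4) := by
    intro w
    simp only [hy, hF]
    rw [hcl, norm_mul, Fa_norm c (by rw [cl_re]; norm_num) (hne1 w), cl_re, cl_im, hcre, hcim]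
    have a1 := ratio_le_one (z := cl (t + w)) (by rw [cl_re])
    have a2 : Real.exp ((1 / 2 - 2) ^ 2 - (t + w - t) ^ 2) ≤ Real.exp (9 / 4) :=
      Real.exp_le_exp.mpr (by nlinarith [sq_nonneg (t + w - t)])
    unfold yy Xz
    calc ‖riemannZeta (cl (t + w))‖ * ‖(cl (t + w) - 1) / cl (t + w)‖ *
        Real.exp ((1 / 2 - 2) ^ 2 - (t + w - t) ^ 2) * ‖M (cl (t + w))‖ ≤
        ‖riemannZeta (cl (t + w))‖ * 1 * Real.exp (9 / 4) * ‖M (cl (t + w))‖ := by gcongr
      _ = _ := by ring
  have hM34 : 3 / 4 ≤ ‖M c‖ := by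
    have h1 := hM1 c (by rw [hcre])
    have h2 := norm_sub_norm_le (1:ℂ) (1 - M c)
    rw [sub_sub_cancel, norm_one, norm_sub_rev] at h2
    linarith
  have hM54 : ∀ z : ℂ, 2 ≤ z.re → ‖M z‖ ≤ 5 / 4 := by
    intro z hz
    have h1 := hM1 z hz
    have h2 := norm_add_le (M z - 1) 1
    rw [sub_add_cancel, norm_one] at h2
    linarith
  have hFc : 1 / 8 ≤ ‖F c‖ := by
    have hcne : c ≠ 1 := by
      intro h
      have := congrArg Complex.re h
      rw [hcre] at this
      norm_num at this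
    simp only [hF]
    rw [norm_mul, Fa_norm c (by rw [hcre]; norm_num) hcne, sub_self, sub_self]
    simp only [ne_eq, OfNat.ofNat_ne_zero, not_false_eq_true, zero_pow, sub_self, Real.exp_zero, mul_one]
    have a1 := zeta_ge (z := c) (by rw [hcre])
    have a2 : 1 / 2 ≤ ‖(c - 1) / c‖ := by
      have hc0 : 0 < ‖c‖ := by
        have := Complex.re_le_norm c
        rw [hcre] at this
        linarith
      rw [norm_div, le_div_iff₀ hc0]
      have e1 : (1 / 2 * ‖c‖) ^ 2 ≤ ‖c - 1‖ ^ 2 := by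
        rw [mul_pow, Complex.sq_norm, Complex.sq_norm, Complex.normSq_apply, Complex.normSq_apply]
        simp [hcre, hcim]
        nlinarith [sq_nonneg t]
      exact (abs_le_of_sq_le_sq' e1 (norm_nonneg _)).2
    have a3 : 1 / 6 ≤ ‖riemannZeta c‖ * ‖(c - 1) / c‖ := by nlinarith
    nlinarith
  have hR1 : (1:ℝ) ≤ 25 / 12 * Real.exp 3 := by
    have := Real.one_le_exp (show (0:ℝ) ≤ 3 by norm_num)
    linarith
  set q : ℝ := 1 / K with hq
  have hK0 : 0 < K := by linarith
  have hq0 : 0 < q := by positivity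
  have hq1 : q ≤ 1 := by rw [hq, div_le_one hK0]; linarith
  have hmain : (1 / 8 : ℝ) ^ q ≤ (25 / 12 * Real.exp 3) ^ q / 2 + ∫ w, KS (3 / 2) w * y w ^ q := by
    have hs := strip_ineq (F := F) (c := c) (Δ := 3 / 2) (p := q) (C := 4 * (6 + |c.im|) * Real.exp 4 * T)
      hΔ0 hq0 ?_ ?_ ?_
    · refine (Real.rpow_le_rpow (by norm_num) hFc hq0.le).trans (hs.trans ?_)
      refine add_le_add ?_ le_rfl
      have hR : ∀ w : ℝ, ‖F (c + ((3 / 2 : ℝ) : ℂ) + (w : ℂ) * I)‖ ≤ 25 / 12 * Real.exp 3 := by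
        intro w
        have hne : c + ((3 / 2 : ℝ) : ℂ) + (w : ℂ) * I ≠ 1 := by
          intro h
          have := congrArg Complex.re h
          rw [hcr] at this
          norm_num at this
        simp only [hF]
        rw [norm_mul, Fa_norm c (by rw [hcr]; norm_num) hne, hcr, hcri, hcre, hcim]
        have a1 := zeta_le (z := c + ((3 / 2 : ℝ) : ℂ) + (w : ℂ) * I) (by rw [hcr]; norm_num)
        have a2 := ratio_le_one (z := c + ((3 / 2 : ℝ) : ℂ) + (w : ℂ) * I) (by rw [hcr]; norm_num)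
        have a3 : Real.exp ((7 / 2 - 2) ^ 2 - (t + w - t) ^ 2) ≤ Real.exp 3 := by
          refine Real.exp_le_exp.mpr ?_
          nlinarith [sq_nonneg (t + w - t)]
        have a4 := hM54 (c + ((3 / 2 : ℝ) : ℂ) + (w : ℂ) * I) (by rw [hcr]; norm_num)
        calc ‖riemannZeta (c + ((3 / 2 : ℝ) : ℂ) + (w : ℂ) * I)‖ *
            ‖(c + ((3 / 2 : ℝ) : ℂ) + (w : ℂ) * I - 1) / (c + ((3 / 2 : ℝ) : ℂ) + (w : ℂ) * I)‖ *
            Real.exp ((7 / 2 - 2) ^ 2 - (t + w - t) ^ 2) * ‖M (c + ((3 / 2 : ℝ) : ℂ) + (w : ℂ) * I)‖ ≤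
            5 / 3 * 1 * Real.exp 3 * (5 / 4) := by gcongr
          _ = _ := by ring
      have hki := KS_integrable hΔ0
      calc ∫ w, KS (3 / 2) w * ‖F (c + ((3 / 2 : ℝ) : ℂ) + (w : ℂ) * I)‖ ^ q ≤
          ∫ w, KS (3 / 2) w * (25 / 12 * Real.exp 3) ^ q := by
            refine integral_mono_of_nonneg (Eventually.of_forall fun w => ?_) (hki.mul_const _)
              (Eventually.of_forall fun w => ?_)
            · exact mul_nonneg (KS_nonneg hΔ0 w) (Real.rpow_nonneg (norm_nonneg _) _)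
            · exact mul_le_mul_of_nonneg_left (Real.rpow_le_rpow (norm_nonneg _) (hR w) hq0.le)
                (KS_nonneg hΔ0 w)
        _ = (25 / 12 * Real.exp 3) ^ q / 2 := by
            rw [integral_mul_const, KS_integral hΔ0]; ring
    · intro z hz
      have hz' : |z.re - c.re| < 3 / 2 := hz
      rw [hcre] at hz'
      have := (abs_lt.mp hz').1
      exact (hFd z (by linarith)).differentiableWithinAt
    · intro z hz
      have hz' : |z.re - c.re| ≤ 3 / 2 := hz
      rw [hcre] at hz'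
      have := (abs_le.mp hz').1
      exact (hFd z (by linarith)).continuousAt.continuousWithinAt
    · intro z hz
      rw [hcre] at hz
      have := abs_le.mp hz
      exact hFB z (by linarith) (by linarith)
  have hkey := pre_log (KS_nonneg hΔ0) (KS_integrable hΔ0) (KS_integral hΔ0) hyc
    (fun w => norm_nonneg _) hyB (a := 1 / 8) (R := 25 / 12 * Real.exp 3) (by norm_num) hR1 hq0 hq1 hmain
  have hSm : MeasurableSet {w : ℝ | yy M (t + w) ≤ Real.exp (-K)} := by
    have h1 : Continuous fun w => yy M (t + w) := (yy_cont hMd).comp (by fun_prop)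
    exact (isClosed_le h1 continuous_const).measurableSet
  have hhalf : Real.exp (-3 / 4) ≤ 1 / 2 := by
    have h1 : Real.exp (-3 / 4) * Real.exp (3 / 4) = 1 := by rw [← Real.exp_add]; norm_num
    have h2 : 2 ≤ Real.exp (3 / 4) := by
      have h3 := Real.quadratic_le_exp_of_nonneg (x := 3 / 4) (by norm_num)
      norm_num at h3
      linarith
    have h3 := Real.exp_pos (-3 / 4)
    nlinarith
  have hleft : ENNReal.ofReal (K / 2) * ∫⁻ w in {w : ℝ | yy M (t + w) ≤ Real.exp (-K)},
      ENNReal.ofReal (KS (3 / 2) w) ≤ ∫⁻ w, ENNReal.ofReal (KS (3 / 2) w * max ((1 - y w ^ q) / q) 0) := by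
    rw [← lintegral_const_mul _ (KS_cont hΔ0).measurable.ennreal_ofReal]
    refine le_trans ?_ (setLIntegral_le_lintegral {w : ℝ | yy M (t + w) ≤ Real.exp (-K)} _)
    refine setLIntegral_mono' hSm fun w hw => ?_
    have hw' : yy M (t + w) ≤ Real.exp (-K) := hw
    rw [← ENNReal.ofReal_mul (by positivity), mul_comm]
    refine ENNReal.ofReal_le_ofReal (mul_le_mul_of_nonneg_left ?_ (KS_nonneg hΔ0 w))
    refine le_trans ?_ (le_max_left _ _)
    have h1 : y w ≤ Real.exp (9 / 4 - K) := by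
      refine (hyle w).trans ?_
      rw [show (9 / 4 - K : ℝ) = -K + 9 / 4 by ring, Real.exp_add]
      exact mul_le_mul_of_nonneg_right hw' (Real.exp_pos _).le
    have h2 : y w ^ q ≤ 1 / 2 := by
      refine le_trans (Real.rpow_le_rpow (norm_nonneg _) h1 hq0.le) (le_trans ?_ hhalf)
      rw [← Real.exp_mul]
      refine Real.exp_le_exp.mpr ?_
      rw [hq, mul_one_div, div_le_iff₀ hK0]
      linarith
    rw [le_div_iff₀ hq0]
    have h3 : K / 2 * q = 1 / 2 := by rw [hq]; field_simp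
    rw [h3]
    linarith
  have hsqm : Continuous fun w => KS (3 / 2) w * yy M (t + w) ^ 2 := by
    have h1 : Continuous fun w => yy M (t + w) := (yy_cont hMd).comp (by fun_prop)
    exact (KS_cont hΔ0).mul (h1.pow 2)
  have hfin : ENNReal.ofReal ((25 / 12 * Real.exp 3 - 1) / 2 - Real.log (1 / 8) + ∫ w, KS (3 / 2) w * y w) ≤
      ENNReal.ofReal 100 + ENNReal.ofReal 10 * ∫⁻ w, ENNReal.ofReal (KS (3 / 2) w * yy M (t + w) ^ 2) := by
    have hyint : Integrable fun w => KS (3 / 2) w * y w := by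
      refine ((KS_integrable hΔ0).mul_const (4 * (6 + |c.im|) * Real.exp 4 * T)).mono'
        ((KS_cont hΔ0).mul hyc).aestronglyMeasurable (Eventually.of_forall fun w => ?_)
      rw [Real.norm_of_nonneg (mul_nonneg (KS_nonneg hΔ0 w) (norm_nonneg _))]
      exact mul_le_mul_of_nonneg_left (hyB w) (KS_nonneg hΔ0 w)
    have l8 : -Real.log (1 / 8) ≤ 7 := by
      rw [one_div, Real.log_inv, neg_neg]
      have := Real.log_le_sub_one_of_pos (show (0:ℝ) < 8 by norm_num)
      linarith
    have l8' : 0 ≤ -Real.log (1 / 8) := by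
      rw [one_div, Real.log_inv, neg_neg]
      exact Real.log_nonneg (by norm_num)
    have e3 : Real.exp 3 ≤ 21 := by
      have h1 := Real.exp_one_lt_d9
      have e : Real.exp 3 = Real.exp 1 ^ 3 := by rw [← Real.exp_nat_mul]; norm_num
      rw [e]
      have h2 : Real.exp 1 ^ 3 ≤ (2.7182818286:ℝ) ^ 3 := pow_le_pow_left₀ (Real.exp_pos 1).le h1.le 3
      linarith [show ((2.7182818286:ℝ) ^ 3) ≤ 21 by norm_num]
    have e94 : Real.exp (9 / 4) ≤ 10 := by
      have e : Real.exp (9 / 4) ^ 4 = Real.exp 1 ^ 9 := by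
        rw [← Real.exp_nat_mul, ← Real.exp_nat_mul]; norm_num
      have h1 := Real.exp_one_lt_d9
      have h2 : Real.exp 1 ^ 9 ≤ (2.7182818286:ℝ) ^ 9 := pow_le_pow_left₀ (Real.exp_pos 1).le h1.le 9
      have h3 : Real.exp (9 / 4) ^ 4 ≤ (10:ℝ) ^ 4 := by
        rw [e]; linarith [show ((2.7182818286:ℝ) ^ 9) ≤ 10 ^ 4 by norm_num]
      exact le_of_pow_le_pow_left₀ (by norm_num) (by norm_num) h3
    rw [ENNReal.ofReal_add (by linarith) (integral_nonneg fun w =>
      mul_nonneg (KS_nonneg hΔ0 w) (norm_nonneg _)), ofReal_integral_eq_lintegral_ofReal hyint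
      (Eventually.of_forall fun w => mul_nonneg (KS_nonneg hΔ0 w) (norm_nonneg _))]
    have h10 : ∫⁻ w, ENNReal.ofReal (KS (3 / 2) w * y w) ≤
        ENNReal.ofReal 5 + ENNReal.ofReal 10 * ∫⁻ w, ENNReal.ofReal (KS (3 / 2) w * yy M (t + w) ^ 2) := by
      have hc5 : ∫⁻ w, ENNReal.ofReal (10 * KS (3 / 2) w) = ENNReal.ofReal 5 := by
        rw [← ofReal_integral_eq_lintegral_ofReal ((KS_integrable hΔ0).const_mul 10)
          (Eventually.of_forall fun w => mul_nonneg (by norm_num) (KS_nonneg hΔ0 w)),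
          integral_const_mul, KS_integral hΔ0]
        norm_num
      rw [← hc5, ← lintegral_const_mul _ hsqm.measurable.ennreal_ofReal,
        ← lintegral_add_left ((KS_cont hΔ0).measurable.const_mul 10).ennreal_ofReal]
      refine lintegral_mono fun w => ?_
      have hk := KS_nonneg hΔ0 w
      have hyn := yy_nonneg M (t + w)
      rw [← ENNReal.ofReal_mul (by norm_num), ← ENNReal.ofReal_add (by positivity) (by positivity)]
      refine ENNReal.ofReal_le_ofReal ?_
      have h1 : y w ≤ 10 * yy M (t + w) := by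
        refine (hyle w).trans ?_
        nlinarith
      have h2 : yy M (t + w) ≤ 1 + yy M (t + w) ^ 2 := by nlinarith [sq_nonneg (yy M (t + w) - 1)]
      calc KS (3 / 2) w * y w ≤ KS (3 / 2) w * (10 * (1 + yy M (t + w) ^ 2)) := by
            refine mul_le_mul_of_nonneg_left ?_ hk
            linarith
        _ = _ := by ring
    calc _ ≤ ENNReal.ofReal 95 + (ENNReal.ofReal 5 + ENNReal.ofReal 10 *
          ∫⁻ w, ENNReal.ofReal (KS (3 / 2) w * yy M (t + w) ^ 2)) := by
          refine add_le_add (ENNReal.ofReal_le_ofReal (by linarith)) h10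
      _ = _ := by
          rw [← add_assoc, ← ENNReal.ofReal_add (by norm_num) (by norm_num)]
          norm_num
  exact hleft.trans (hkey.trans hfin)

end Pool.Agent.TH364.LM_JEN

namespace Pool.Agent.TH364.LM_JEN

open MeasureTheory Filter Topology Set Complex
open Pool.Agent.W184 (KS KS_cont KS_nonneg KS_integral KS_integrable strip_ineq zn zn_le')
open Pool.Agent.W354.ZP (Fa Fa_norm Fa_diff Fa_bound zeta_ge zeta_le ratio_le_one KS_exp KS_low exp_int pos_part_le)
open Pool.Agent.W184.NZ (wz)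
open Pool.Agent.TH806
open Pool.Agent.H306R2.SM (om cl)
open Pool.Agent.H262R4.TM (Rng)
open Pool.Agent.H262R4.TM.TTW (om_cont)

/-- comparison of the weight at two points -/
lemma om_cmp {κ : ℕ} {T : ℝ} (hT : 0 < T) (hκ : 256 * (κ : ℝ) ≤ T) {t u : ℝ} (ht : 0 < t) (hu : T / 32 ≤ u) :
    om κ (κ / T) t ≤ om κ (κ / T) u * Real.exp (|u - t| / 8) := by
  have hu0 : 0 < u := lt_of_lt_of_le (by positivity) hu
  have hκ0 : (0:ℝ) ≤ κ := Nat.cast_nonneg _
  have h1 : t ^ κ ≤ u ^ κ * Real.exp (κ * ((t - u) / u)) := by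
    rw [Real.exp_nat_mul, ← mul_pow]
    refine pow_le_pow_left₀ ht.le ?_ κ
    have := Real.add_one_le_exp ((t - u) / u)
    calc t = u * ((t - u) / u + 1) := by field_simp; ring
      _ ≤ _ := mul_le_mul_of_nonneg_left this hu0.le
  have h2 : Real.exp (κ * ((t - u) / u)) * Real.exp (-(κ / T * t)) ≤
      Real.exp (-(κ / T * u)) * Real.exp (|u - t| / 8) := by
    rw [← Real.exp_add, ← Real.exp_add]
    refine Real.exp_le_exp.mpr ?_
    have e : κ * ((t - u) / u) + -(κ / T * t) = -(κ / T * u) + (t - u) * (κ * (1 / u - 1 / T)) := by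
      field_simp
      ring
    rw [e]
    refine add_le_add le_rfl ?_
    have h3 : |κ * (1 / u - 1 / T)| ≤ 1 / 8 := by
      have a1 : 1 / u ≤ 32 / T := by rw [div_le_div_iff₀ hu0 hT]; linarith
      have a2 : 0 < 1 / u := by positivity
      have a3 : 0 < 1 / T := by positivity
      have a4 : (κ:ℝ) * (32 / T) ≤ 1 / 8 := by
        rw [mul_div_assoc', div_le_div_iff₀ hT (by norm_num)]
        linarith
      have a5 : 1 / T ≤ 32 / T := by
        refine div_le_div_of_nonneg_right (by norm_num) hT.le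
      rw [abs_mul, abs_of_nonneg hκ0]
      refine le_trans (mul_le_mul_of_nonneg_left ?_ hκ0) a4
      rw [abs_le]
      constructor <;> linarith
    calc (t - u) * (κ * (1 / u - 1 / T)) ≤ |(t - u) * (κ * (1 / u - 1 / T))| := le_abs_self _
      _ = |u - t| * |κ * (1 / u - 1 / T)| := by rw [abs_mul, abs_sub_comm]
      _ ≤ |u - t| * (1 / 8) := mul_le_mul_of_nonneg_left h3 (abs_nonneg _)
      _ = _ := by ring
  unfold om
  have hf : (0:ℝ) < (κ.factorial : ℝ) := by exact_mod_cast Nat.factorial_pos κ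
  have hd : (0:ℝ) ≤ (κ / T) ^ (κ + 1) := by positivity
  have key : (κ / T) ^ (κ + 1) * t ^ κ * Real.exp (-(κ / T * t)) ≤
      (κ / T) ^ (κ + 1) * u ^ κ * Real.exp (-(κ / T * u)) * Real.exp (|u - t| / 8) := by
    calc (κ / T) ^ (κ + 1) * t ^ κ * Real.exp (-(κ / T * t)) ≤
        (κ / T) ^ (κ + 1) * (u ^ κ * Real.exp (κ * ((t - u) / u))) * Real.exp (-(κ / T * t)) := by gcongr
      _ = (κ / T) ^ (κ + 1) * u ^ κ * (Real.exp (κ * ((t - u) / u)) * Real.exp (-(κ / T * t))) := by ring
      _ ≤ (κ / T) ^ (κ + 1) * u ^ κ * (Real.exp (-(κ / T * u)) * Real.exp (|u - t| / 8)) :=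
          mul_le_mul_of_nonneg_left h2 (by positivity)
      _ = _ := by ring
  calc _ ≤ (κ / T) ^ (κ + 1) * u ^ κ * Real.exp (-(κ / T * u)) * Real.exp (|u - t| / 8) / (κ.factorial : ℝ) :=
        div_le_div_of_nonneg_right key hf.le
    _ = _ := by ring

/-- the weight -/
noncomputable def W (κ : ℕ) (T t : ℝ) : ENNReal := ENNReal.ofReal (om κ (κ / T) t)

lemma W_meas (κ : ℕ) (T : ℝ) : Measurable (W κ T) := (om_cont κ (κ / T)).measurable.ennreal_ofReal

/-- the smoothed weight -/
noncomputable def gg (κ : ℕ) (T u : ℝ) : ENNReal :=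
  ∫⁻ t in Ioi (T / 16), W κ T t * ENNReal.ofReal (KS (3 / 2) (u - t))

lemma KSm : Measurable (KS (3 / 2)) := (KS_cont (by norm_num)).measurable

lemma W_int {κ : ℕ} {T : ℝ} (hδ : 0 < (κ:ℝ) / T) {a : ℝ} (ha : 0 ≤ a) : ∫⁻ t in Ioi a, W κ T t ≤ 1 := by
  refine (lintegral_mono_set (Ioi_subset_Ioi ha)).trans (le_of_eq ?_)
  unfold W
  rw [← ofReal_integral_eq_lintegral_ofReal (om_int0 κ hδ), om_mass κ hδ, ENNReal.ofReal_one]
  refine (ae_restrict_iff' measurableSet_Ioi).mpr (Eventually.of_forall fun t ht => ?_)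
  have ht0 : 0 < t := ht
  exact om_nn κ hδ ht0.le

lemma swap (κ : ℕ) (T : ℝ) {φ : ℝ → ENNReal} (hφ : Measurable φ) :
    ∫⁻ t in Ioi (T / 16), W κ T t * ∫⁻ w, ENNReal.ofReal (KS (3 / 2) w) * φ (t + w) =
      ∫⁻ u, φ u * gg κ T u := by
  have e1 : ∀ t : ℝ, ∫⁻ w, ENNReal.ofReal (KS (3 / 2) w) * φ (t + w) =
      ∫⁻ u, ENNReal.ofReal (KS (3 / 2) (u - t)) * φ u := by
    intro t
    rw [← lintegral_add_left_eq_self (fun u => ENNReal.ofReal (KS (3 / 2) (u - t)) * φ u) t]
    refine lintegral_congr fun w => ?_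
    rw [add_sub_cancel_left]
  simp_rw [e1]
  have hm : Measurable fun q : ℝ × ℝ => ENNReal.ofReal (KS (3 / 2) (q.2 - q.1)) :=
    (KSm.comp (measurable_snd.sub measurable_fst)).ennreal_ofReal
  have e2 : ∀ t : ℝ, W κ T t * ∫⁻ u, ENNReal.ofReal (KS (3 / 2) (u - t)) * φ u =
      ∫⁻ u, W κ T t * (ENNReal.ofReal (KS (3 / 2) (u - t)) * φ u) := by
    intro t
    rw [lintegral_const_mul]
    exact ((KSm.comp (measurable_id.sub measurable_const)).ennreal_ofReal).mul hφ
  simp_rw [e2]
  rw [lintegral_lintegral_swap]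
  · refine lintegral_congr fun u => ?_
    unfold gg
    rw [← lintegral_const_mul]
    · refine lintegral_congr fun t => ?_
      ring
    · exact (W_meas κ T).mul ((KSm.comp (measurable_const.sub measurable_id)).ennreal_ofReal)
  · exact (((W_meas κ T).comp measurable_fst).mul (hm.mul (hφ.comp measurable_snd))).aemeasurable

lemma gg_low {κ : ℕ} {T : ℝ} (hT : 16 ≤ T) (hκ : 256 * (κ : ℝ) ≤ T) (hδ : 0 < (κ:ℝ) / T) {u : ℝ}
    (hu : T / 8 < u) : ENNReal.ofReal (1 / 40 * om κ (κ / T) u) ≤ gg κ T u := by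
  have hT0 : 0 < T := by linarith
  have hu0 : 0 < u := by linarith
  have hsub : Ioo (u - 1 / 2) (u + 1 / 2) ⊆ Ioi (T / 16) := by
    intro t ht
    have := ht.1
    rw [mem_Ioi]
    linarith
  unfold gg
  calc ENNReal.ofReal (1 / 40 * om κ (κ / T) u) =
      ∫⁻ _ in Ioo (u - 1 / 2) (u + 1 / 2), ENNReal.ofReal (1 / 40 * om κ (κ / T) u) := by
        rw [setLIntegral_const, Real.volume_Ioo]
        have : u + 1 / 2 - (u - 1 / 2) = 1 := by ring
        rw [this, ENNReal.ofReal_one, mul_one]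
    _ ≤ ∫⁻ t in Ioo (u - 1 / 2) (u + 1 / 2), W κ T t * ENNReal.ofReal (KS (3 / 2) (u - t)) := by
        refine setLIntegral_mono' measurableSet_Ioo fun t ht => ?_
        have ht1 : T / 16 < t := hsub ht
        have ht0 : 0 < t := by linarith
        have habs : |u - t| ≤ 1 / 2 := by
          rw [abs_le]; constructor <;> linarith [ht.1, ht.2]
        have h1 := om_cmp hT0 hκ hu0 (show T / 32 ≤ t by linarith)
        have h2 : Real.exp (|t - u| / 8) ≤ 2 := by
          have h3 : |t - u| / 8 ≤ 1 / 16 := by rw [abs_sub_comm]; linarith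
          have h4 := Real.exp_le_exp.mpr h3
          have h5 := Real.exp_bound' (x := 1 / 16) (by norm_num) (by norm_num) (n := 2) (by norm_num)
          norm_num [Finset.sum_range_succ, Nat.factorial] at h5
          linarith
        have h3 := om_nn κ (t := t) hδ ht0.le
        have h4 : om κ (κ / T) u ≤ 2 * om κ (κ / T) t := by nlinarith
        have h5 := KS_low (Δ := 3 / 2) (by norm_num) (by norm_num) habs
        unfold W
        rw [← ENNReal.ofReal_mul h3]
        refine ENNReal.ofReal_le_ofReal ?_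
        nlinarith [om_nn κ (t := u) hδ hu0.le]
    _ ≤ _ := lintegral_mono_set hsub

lemma pi_le : 4 * Real.pi ≤ 13 := by
  have := Real.pi_lt_d2
  linarith

lemma gg_up1 {κ : ℕ} {T : ℝ} (hT : 0 < T) (hκ : 256 * (κ : ℝ) ≤ T) (hδ : 0 < (κ:ℝ) / T) {u : ℝ}
    (hu : T / 32 ≤ u) : gg κ T u ≤ ENNReal.ofReal (13 * om κ (κ / T) u) := by
  have hu0 : 0 < u := lt_of_lt_of_le (by positivity) hu
  have hou := om_nn κ (t := u) hδ hu0.le
  unfold gg
  calc ∫⁻ t in Ioi (T / 16), W κ T t * ENNReal.ofReal (KS (3 / 2) (u - t)) ≤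
      ∫⁻ t in Ioi (T / 16), ENNReal.ofReal (om κ (κ / T) u) * ENNReal.ofReal (Real.exp (-|u - t| / 4)) := by
        refine setLIntegral_mono' measurableSet_Ioi fun t ht => ?_
        have ht1 : T / 16 < t := ht
        have ht0 : 0 < t := lt_trans (by positivity) ht1
        have h1 := om_cmp hT hκ ht0 hu
        have h2 := KS_exp (Δ := 3 / 2) (by norm_num) (by norm_num) (u - t)
        unfold W
        rw [← ENNReal.ofReal_mul (om_nn κ hδ ht0.le), ← ENNReal.ofReal_mul hou]
        refine ENNReal.ofReal_le_ofReal ?_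
        calc om κ (κ / T) t * KS (3 / 2) (u - t) ≤
            (om κ (κ / T) u * Real.exp (|u - t| / 8)) * Real.exp (-|u - t| / 2) :=
              mul_le_mul h1 h2 (KS_nonneg (by norm_num) _) (by positivity)
          _ = om κ (κ / T) u * Real.exp (|u - t| / 8 + -|u - t| / 2) := by rw [Real.exp_add]; ring
          _ ≤ _ := by
              refine mul_le_mul_of_nonneg_left (Real.exp_le_exp.mpr ?_) hou
              have := abs_nonneg (u - t)
              linarith
    _ ≤ ∫⁻ t, ENNReal.ofReal (om κ (κ / T) u) * ENNReal.ofReal (Real.exp (-|u - t| / 4)) :=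
        setLIntegral_le_lintegral _ _
    _ = ENNReal.ofReal (om κ (κ / T) u) * ∫⁻ t, ENNReal.ofReal (Real.exp (-|u - t| / 4)) := by
        rw [lintegral_const_mul]
        exact Measurable.ennreal_ofReal (by fun_prop)
    _ = ENNReal.ofReal (om κ (κ / T) u) * ∫⁻ t, ENNReal.ofReal (Real.exp (-|t| / 4)) := by
        congr 1
        exact lintegral_sub_left_eq_self (fun t => ENNReal.ofReal (Real.exp (-|t| / 4))) u
    _ ≤ ENNReal.ofReal (om κ (κ / T) u) * ENNReal.ofReal 13 := by
        refine mul_le_mul' le_rfl ?_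
        rw [← ofReal_integral_eq_lintegral_ofReal exp_int.1 (Eventually.of_forall fun t => (Real.exp_pos _).le)]
        exact ENNReal.ofReal_le_ofReal (exp_int.2.trans pi_le)
    _ = _ := by rw [← ENNReal.ofReal_mul hou, mul_comm]

lemma gg_up2 {κ : ℕ} {T : ℝ} (hT : 0 < T) (hδ : 0 < (κ:ℝ) / T) {u : ℝ}
    (hu : u < T / 32) : gg κ T u ≤ ENNReal.ofReal (Real.exp (-T / 256) * Real.exp (-(3 * |u|) / 8)) := by
  unfold gg
  calc ∫⁻ t in Ioi (T / 16), W κ T t * ENNReal.ofReal (KS (3 / 2) (u - t)) ≤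
      ∫⁻ t in Ioi (T / 16), W κ T t * ENNReal.ofReal (Real.exp (-T / 256) * Real.exp (-(3 * |u|) / 8)) := by
        refine setLIntegral_mono' measurableSet_Ioi fun t ht => ?_
        have ht1 : T / 16 < t := ht
        refine mul_le_mul' le_rfl (ENNReal.ofReal_le_ofReal ?_)
        refine (KS_exp (Δ := 3 / 2) (by norm_num) (by norm_num) (u - t)).trans ?_
        rw [← Real.exp_add]
        refine Real.exp_le_exp.mpr ?_
        have h1 : |u - t| = t - u := by rw [abs_sub_comm, abs_of_pos (by linarith)]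
        have h2 : |u| ≤ t - u := by
          rw [abs_le]; constructor <;> linarith
        have h3 : T / 32 ≤ t - u := by linarith
        rw [h1]
        linarith
    _ = (∫⁻ t in Ioi (T / 16), W κ T t) * ENNReal.ofReal (Real.exp (-T / 256) * Real.exp (-(3 * |u|) / 8)) := by
        rw [lintegral_mul_const _ (W_meas κ T)]
    _ ≤ 1 * ENNReal.ofReal (Real.exp (-T / 256) * Real.exp (-(3 * |u|) / 8)) :=
        mul_le_mul' (W_int hδ (by positivity)) le_rfl
    _ = _ := one_mul _

lemma sq_bd (u : ℝ) : (1 + |u|) ^ 2 ≤ 256 * Real.exp (|u| / 8) := by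
  have h0 := abs_nonneg u
  have h1 := Real.pow_div_factorial_le_exp ((1 + |u|) / 8) (by positivity) 2
  rw [div_le_iff₀ (by positivity)] at h1
  norm_num [Nat.factorial] at h1
  have h2 : Real.exp ((1 + |u|) / 8) = Real.exp (1 / 8) * Real.exp (|u| / 8) := by
    rw [← Real.exp_add]; congr 1; ring
  have h3 : Real.exp (1 / 8) ≤ 2 := by
    have h5 := Real.exp_bound' (x := 1 / 8) (by norm_num) (by norm_num) (n := 2) (by norm_num)
    norm_num [Finset.sum_range_succ, Nat.factorial] at h5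
    linarith
  have h4 := Real.exp_pos (|u| / 8)
  rw [h2] at h1
  nlinarith

/-- the main estimate for one `T` -/
lemma main_est {κ : ℕ} {T : ℝ} (hT : 16 ≤ T) (hκ : 256 * (κ : ℝ) ≤ T) (hδ : 0 < (κ:ℝ) / T)
    (hTe : 479232 * (T ^ 2 * Real.exp (-T / 256)) ≤ 1) {M : ℂ → ℂ} (hMd : Differentiable ℂ M)
    (hM1 : ∀ s : ℂ, 2 ≤ s.re → ‖M s - 1‖ ≤ 1 / 4) (hMT : ∀ s : ℂ, 1 / 2 ≤ s.re → ‖M s‖ ≤ T) {K : ℝ}
    (hK : 9 ≤ K) : ENNReal.ofReal (K / 2) *
      ∫⁻ u in {u : ℝ | yy M u ≤ Real.exp (-K)} ∩ Ioi (T / 8), ENNReal.ofReal (1 / 40 * om κ (κ / T) u) ≤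
      ENNReal.ofReal (110 + 130 * ∫ t in Ioi (0:ℝ), om κ (κ / T) t * yy M t ^ 2) := by
  have hT0 : 0 < T := by linarith
  have hyc := yy_cont hMd
  set S : Set ℝ := {u : ℝ | yy M u ≤ Real.exp (-K)} with hS
  have hSm : MeasurableSet S := (isClosed_le hyc continuous_const).measurableSet
  set Y : ℝ → ENNReal := fun u => ENNReal.ofReal (yy M u ^ 2) with hY
  have hYm : Measurable Y := (hyc.pow 2).measurable.ennreal_ofReal
  have hIm : Measurable (S.indicator (fun _ => (1:ENNReal))) := measurable_const.indicator hSm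
  have hint : IntegrableOn (fun t => om κ (κ / T) t * yy M t ^ 2) (Ioi 0) := by
    refine om_poly_int hδ (hyc.pow 2) (C := 144 * T ^ 2) 2 fun t ht => ?_
    rw [abs_of_nonneg (by positivity)]
    have h1 := yy_le hMT t
    rw [abs_of_nonneg ht] at h1
    calc yy M t ^ 2 ≤ (12 * (1 + t) * T) ^ 2 := pow_le_pow_left₀ (yy_nonneg M t) h1 2
      _ = _ := by ring
  -- integrate the pointwise bound
  have hpt : ∀ t : ℝ, ENNReal.ofReal (K / 2) * ∫⁻ w, ENNReal.ofReal (KS (3 / 2) w) *
      S.indicator (fun _ => (1:ENNReal)) (t + w) ≤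
      ENNReal.ofReal 100 + ENNReal.ofReal 10 * ∫⁻ w, ENNReal.ofReal (KS (3 / 2) w) * Y (t + w) := by
    intro t
    have h1 := pt hMd hM1 (by linarith) hMT hK t
    have hSt : MeasurableSet {w : ℝ | yy M (t + w) ≤ Real.exp (-K)} := by
      have h1 : Continuous fun w => yy M (t + w) := hyc.comp (by fun_prop)
      exact (isClosed_le h1 continuous_const).measurableSet
    have e1 : ∫⁻ w in {w : ℝ | yy M (t + w) ≤ Real.exp (-K)}, ENNReal.ofReal (KS (3 / 2) w) =
        ∫⁻ w, ENNReal.ofReal (KS (3 / 2) w) * S.indicator (fun _ => (1:ENNReal)) (t + w) := by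
      rw [← lintegral_indicator hSt]
      refine lintegral_congr fun w => ?_
      by_cases hw : yy M (t + w) ≤ Real.exp (-K)
      · rw [indicator_of_mem (show w ∈ {w : ℝ | yy M (t + w) ≤ Real.exp (-K)} from hw),
          indicator_of_mem (show t + w ∈ S from hw), mul_one]
      · rw [indicator_of_notMem (show w ∉ {w : ℝ | yy M (t + w) ≤ Real.exp (-K)} from hw),
          indicator_of_notMem (show t + w ∉ S from hw), mul_zero]
    have e2 : ∫⁻ w, ENNReal.ofReal (KS (3 / 2) w * yy M (t + w) ^ 2) =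
        ∫⁻ w, ENNReal.ofReal (KS (3 / 2) w) * Y (t + w) := by
      refine lintegral_congr fun w => ?_
      rw [ENNReal.ofReal_mul (KS_nonneg (by norm_num) w)]
    rw [e1, e2] at h1
    exact h1
  have hleft : ENNReal.ofReal (K / 2) * ∫⁻ u in S ∩ Ioi (T / 8), ENNReal.ofReal (1 / 40 * om κ (κ / T) u) ≤
      ENNReal.ofReal (K / 2) * ∫⁻ u, S.indicator (fun _ => (1:ENNReal)) u * gg κ T u := by
    refine mul_le_mul' le_rfl ?_
    rw [← lintegral_indicator (hSm.inter measurableSet_Ioi)]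
    refine lintegral_mono fun u => ?_
    by_cases hu : u ∈ S ∩ Ioi (T / 8)
    · rw [indicator_of_mem hu, indicator_of_mem hu.1, one_mul]
      exact gg_low hT hκ hδ hu.2
    · rw [indicator_of_notMem hu]
      exact zero_le
  have hright : ∫⁻ u, Y u * gg κ T u ≤
      ENNReal.ofReal (13 * ∫ t in Ioi (0:ℝ), om κ (κ / T) t * yy M t ^ 2) + ENNReal.ofReal 1 := by
    rw [← lintegral_add_compl _ (measurableSet_Ici (a := T / 32))]
    refine add_le_add ?_ ?_
    · calc ∫⁻ u in Ici (T / 32), Y u * gg κ T u ≤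
          ∫⁻ u in Ici (T / 32), ENNReal.ofReal (13 * (om κ (κ / T) u * yy M u ^ 2)) := by
            refine setLIntegral_mono' measurableSet_Ici fun u hu => ?_
            refine (mul_le_mul' le_rfl (gg_up1 hT0 hκ hδ hu)).trans ?_
            simp only [hY]
            rw [← ENNReal.ofReal_mul (by positivity)]
            refine ENNReal.ofReal_le_ofReal (le_of_eq (by ring))
        _ ≤ ∫⁻ u in Ioi (0:ℝ), ENNReal.ofReal (13 * (om κ (κ / T) u * yy M u ^ 2)) := by
            refine lintegral_mono_set fun u hu => ?_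
            have : T / 32 ≤ u := hu
            exact lt_of_lt_of_le (by positivity) this
        _ = _ := by
            rw [← ofReal_integral_eq_lintegral_ofReal (hint.const_mul 13), integral_const_mul]
            refine (ae_restrict_iff' measurableSet_Ioi).mpr (Eventually.of_forall fun t ht => ?_)
            have ht0 : 0 < t := ht
            have := om_nn κ (t := t) hδ ht0.le
            simp only [Pi.zero_apply]
            positivity
    · calc ∫⁻ u in (Ici (T / 32))ᶜ, Y u * gg κ T u ≤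
          ∫⁻ u in (Ici (T / 32))ᶜ, ENNReal.ofReal ((36864 * (T ^ 2 * Real.exp (-T / 256))) *
            Real.exp (-|u| / 4)) := by
            refine setLIntegral_mono' measurableSet_Ici.compl fun u hu => ?_
            have hu' : u < T / 32 := by
              rw [mem_compl_iff, mem_Ici, not_le] at hu
              exact hu
            refine (mul_le_mul' le_rfl (gg_up2 hT0 hδ hu')).trans ?_
            simp only [hY]
            rw [← ENNReal.ofReal_mul (by positivity)]
            refine ENNReal.ofReal_le_ofReal ?_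
            have h1 : yy M u ^ 2 ≤ 144 * T ^ 2 * (256 * Real.exp (|u| / 8)) := by
              calc yy M u ^ 2 ≤ (12 * (1 + |u|) * T) ^ 2 := pow_le_pow_left₀ (yy_nonneg M u) (yy_le hMT u) 2
                _ = 144 * T ^ 2 * (1 + |u|) ^ 2 := by ring
                _ ≤ _ := mul_le_mul_of_nonneg_left (sq_bd u) (by positivity)
            calc yy M u ^ 2 * (Real.exp (-T / 256) * Real.exp (-(3 * |u|) / 8)) ≤
                (144 * T ^ 2 * (256 * Real.exp (|u| / 8))) * (Real.exp (-T / 256) * Real.exp (-(3 * |u|) / 8)) :=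
                  mul_le_mul_of_nonneg_right h1 (by positivity)
              _ = 36864 * (T ^ 2 * Real.exp (-T / 256)) * (Real.exp (|u| / 8) * Real.exp (-(3 * |u|) / 8)) := by ring
              _ = _ := by
                  rw [← Real.exp_add]
                  congr 2
                  ring
        _ ≤ ∫⁻ u, ENNReal.ofReal ((36864 * (T ^ 2 * Real.exp (-T / 256))) * Real.exp (-|u| / 4)) :=
            setLIntegral_le_lintegral _ _
        _ = ENNReal.ofReal ((36864 * (T ^ 2 * Real.exp (-T / 256))) * ∫ u : ℝ, Real.exp (-|u| / 4)) := by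
            rw [← ofReal_integral_eq_lintegral_ofReal (exp_int.1.const_mul _)
              (Eventually.of_forall fun u => by positivity), integral_const_mul]
        _ ≤ ENNReal.ofReal 1 := by
            refine ENNReal.ofReal_le_ofReal ?_
            have h1 := exp_int.2.trans pi_le
            have h2 : 0 ≤ T ^ 2 * Real.exp (-T / 256) := by positivity
            nlinarith
  calc _ ≤ ENNReal.ofReal (K / 2) * ∫⁻ u, S.indicator (fun _ => (1:ENNReal)) u * gg κ T u := hleft
    _ = ENNReal.ofReal (K / 2) * ∫⁻ t in Ioi (T / 16), W κ T t *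
          ∫⁻ w, ENNReal.ofReal (KS (3 / 2) w) * S.indicator (fun _ => (1:ENNReal)) (t + w) := by
        rw [swap κ T hIm]
    _ = ∫⁻ t in Ioi (T / 16), W κ T t * (ENNReal.ofReal (K / 2) *
          ∫⁻ w, ENNReal.ofReal (KS (3 / 2) w) * S.indicator (fun _ => (1:ENNReal)) (t + w)) := by
        rw [← lintegral_const_mul' _ _ ENNReal.ofReal_ne_top]
        refine lintegral_congr fun t => ?_
        ring
    _ ≤ ∫⁻ t in Ioi (T / 16), (W κ T t * ENNReal.ofReal 100 + ENNReal.ofReal 10 * (W κ T t *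
          ∫⁻ w, ENNReal.ofReal (KS (3 / 2) w) * Y (t + w))) := by
        refine lintegral_mono fun t => ?_
        refine (mul_le_mul' le_rfl (hpt t)).trans (le_of_eq ?_)
        ring
    _ = (∫⁻ t in Ioi (T / 16), W κ T t) * ENNReal.ofReal 100 + ENNReal.ofReal 10 *
          ∫⁻ u, Y u * gg κ T u := by
        rw [lintegral_add_left ((W_meas κ T).mul_const _), lintegral_mul_const _ (W_meas κ T),
          lintegral_const_mul' _ _ ENNReal.ofReal_ne_top, swap κ T hYm]
    _ ≤ 1 * ENNReal.ofReal 100 + ENNReal.ofReal 10 *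
          (ENNReal.ofReal (13 * ∫ t in Ioi (0:ℝ), om κ (κ / T) t * yy M t ^ 2) + ENNReal.ofReal 1) := by
        refine add_le_add (mul_le_mul' (W_int hδ (by positivity)) le_rfl) (mul_le_mul' le_rfl hright)
    _ = _ := by
        have hI : 0 ≤ ∫ t in Ioi (0:ℝ), om κ (κ / T) t * yy M t ^ 2 := by
          refine setIntegral_nonneg measurableSet_Ioi fun t ht => ?_
          have ht0 : 0 < t := ht
          exact mul_nonneg (om_nn κ hδ ht0.le) (by positivity)
        rw [one_mul, ← ENNReal.ofReal_add (by positivity) (by norm_num), ← ENNReal.ofReal_mul (by norm_num),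
          ← ENNReal.ofReal_add (by norm_num) (by positivity)]
        congr 1
        ring

lemma ev_exp : ∀ᶠ T : ℝ in atTop, 479232 * (T ^ 2 * Real.exp (-T / 256)) ≤ 1 := by
  have h1 := Real.tendsto_pow_mul_exp_neg_atTop_nhds_zero 2
  have h2 : Tendsto (fun T : ℝ => T / 256) atTop atTop := tendsto_id.atTop_div_const (by norm_num)
  have h3 := (h1.comp h2).const_mul (479232 * 256 ^ 2)
  rw [mul_zero] at h3
  filter_upwards [h3.eventually_le_const (show (0:ℝ) < 1 by norm_num)] with T hT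
  refine le_trans (le_of_eq ?_) hT
  simp only [Function.comp]
  rw [neg_div]
  ring

lemma ev_log : ∀ᶠ T : ℝ in atTop, 1024 * Real.log T ^ 2 ≤ T := by
  have h1 := (Real.isLittleO_pow_log_id_atTop (n := 2)).bound (show (0:ℝ) < 1 / 1024 by norm_num)
  filter_upwards [h1, eventually_ge_atTop (1:ℝ)] with T hT hT1
  rw [Real.norm_of_nonneg (by positivity)] at hT
  simp only [id] at hT
  rw [Real.norm_of_nonneg (by linarith)] at hT
  linarith

theorem t_JEN : Pool.Agent.TH806.LM.P_JEN := by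
  refine ⟨10400, by norm_num, ?_⟩
  filter_upwards [om_tail 0, eventually_ge_atTop (16:ℝ), ev_exp, ev_log,
    Real.tendsto_log_atTop.eventually_ge_atTop 1] with T hom hT hTe hTl hL κ hκ M hMd hM1 hMT K hK
  have hT0 : 0 < T := by linarith
  have hκ0 : (0:ℝ) < κ := lt_of_lt_of_le (by positivity) hκ.1
  have hδ : 0 < (κ:ℝ) / T := by positivity
  have hκT : 256 * (κ : ℝ) ≤ T := by
    have := hκ.2
    linarith
  have hyc := yy_cont hMd
  have hi0 : IntegrableOn (fun t : ℝ => om κ (κ / T) t) (Ioi 0) := om_int0 κ hδ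
  have hSm : MeasurableSet {u : ℝ | yy M u ≤ Real.exp (-K)} := (isClosed_le hyc continuous_const).measurableSet
  have hK0 : 0 < K := by linarith
  set I : ℝ := ∫ t in Ioi (0:ℝ), om κ (κ / T) t * yy M t ^ 2 with hI
  have hI0 : 0 ≤ I := by
    refine setIntegral_nonneg measurableSet_Ioi fun t ht => ?_
    have ht0 : 0 < t := ht
    exact mul_nonneg (om_nn κ hδ ht0.le) (by positivity)
  have eI : ∫ t in Ioi (0:ℝ), wz κ T t * ‖M (cl t)‖ ^ 2 = I := by
    rw [hI]
    refine setIntegral_congr_fun measurableSet_Ioi fun t _ => ?_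
    simp only [wz, yy, Xz]
    ring
  rw [eI]
  have hsub0 : ∀ A : Set ℝ, A ⊆ Ioi (0:ℝ) → ∫ t in A, om κ (κ / T) t ≤ 1 := by
    intro A hA
    rw [← om_mass κ hδ]
    refine setIntegral_mono_set hi0 ?_ hA.eventuallyLE
    refine (ae_restrict_iff' measurableSet_Ioi).mpr (Eventually.of_forall fun t ht => ?_)
    have ht0 : 0 < t := ht
    exact om_nn κ hδ ht0.le
  have hset : Ioi (0:ℝ) ∩ {t | Xz t * ‖M (cl t)‖ ≤ Real.exp (-K)} =
      Ioi (0:ℝ) ∩ {u : ℝ | yy M u ≤ Real.exp (-K)} := rfl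
  rw [hset]
  rcases lt_or_ge K 9 with hK9 | hK9
  · have h1 := hsub0 (Ioi (0:ℝ) ∩ {u : ℝ | yy M u ≤ Real.exp (-K)}) inter_subset_left
    have h2 : 1 ≤ 10400 / K * (1 + I) := by
      have h3 : 1 ≤ 10400 / K := by rw [le_div_iff₀ hK0]; linarith
      nlinarith
    have h3 : 0 < 1 / T := by positivity
    linarith
  · have hsplit : Ioi (0:ℝ) ∩ {u : ℝ | yy M u ≤ Real.exp (-K)} =
        (Ioc 0 (T / 8) ∩ {u : ℝ | yy M u ≤ Real.exp (-K)}) ∪
          ({u : ℝ | yy M u ≤ Real.exp (-K)} ∩ Ioi (T / 8)) := by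
      ext u
      simp only [mem_inter_iff, mem_Ioi, mem_union, mem_Ioc, mem_setOf_eq]
      constructor
      · rintro ⟨h1, h2⟩
        rcases le_or_gt u (T / 8) with h3 | h3
        · exact Or.inl ⟨⟨h1, h3⟩, h2⟩
        · exact Or.inr ⟨h2, h3⟩
      · rintro (⟨⟨h1, _⟩, h2⟩ | ⟨h1, h2⟩)
        · exact ⟨h1, h2⟩
        · exact ⟨lt_trans (by positivity) h2, h1⟩
    have hs1 : Ioc 0 (T / 8) ∩ {u : ℝ | yy M u ≤ Real.exp (-K)} ⊆ Ioi (0:ℝ) := fun u hu => hu.1.1
    have hs2 : {u : ℝ | yy M u ≤ Real.exp (-K)} ∩ Ioi (T / 8) ⊆ Ioi (0:ℝ) := fun u hu => by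
      have h1 : T / 8 < u := hu.2
      have h2 : 0 < u := lt_trans (by positivity) h1
      exact h2
    have hdis : Disjoint (Ioc 0 (T / 8) ∩ {u : ℝ | yy M u ≤ Real.exp (-K)})
        ({u : ℝ | yy M u ≤ Real.exp (-K)} ∩ Ioi (T / 8)) := by
      rw [Set.disjoint_left]
      intro u hu hu2
      have h1 := hu.1.2
      have h2 : T / 8 < u := hu2.2
      linarith
    rw [hsplit, setIntegral_union hdis (hSm.inter measurableSet_Ioi) (hi0.mono_set hs1) (hi0.mono_set hs2)]
    -- the lower part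
    have hlow : ∫ t in Ioc 0 (T / 8) ∩ {u : ℝ | yy M u ≤ Real.exp (-K)}, om κ (κ / T) t ≤ 1 / T := by
      have i1 : IntegrableOn (fun t => om κ (κ / T / 4) t) (Ioi 0) := om_int0 κ (by positivity)
      have i2 : IntegrableOn (fun t => om κ (4 * (κ / T)) t) (Ioi 0) := om_int0 κ (by positivity)
      have i3 : IntegrableOn (fun t => T ^ (-10 : ℝ) * (om κ (κ / T / 4) t + om κ (4 * (κ / T)) t)) (Ioi 0) :=
        (i1.add i2).const_mul _
      have hT10 : 0 ≤ T ^ (-10 : ℝ) := by positivity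
      calc ∫ t in Ioc 0 (T / 8) ∩ {u : ℝ | yy M u ≤ Real.exp (-K)}, om κ (κ / T) t ≤
          ∫ t in Ioc 0 (T / 8) ∩ {u : ℝ | yy M u ≤ Real.exp (-K)},
            T ^ (-10 : ℝ) * (om κ (κ / T / 4) t + om κ (4 * (κ / T)) t) := by
            refine setIntegral_mono_on (hi0.mono_set hs1) (i3.mono_set hs1) (measurableSet_Ioc.inter hSm) ?_
            intro t ht
            have h1 := hom κ hκ t ht.1.1 (fun h => by
              have h2 := h.1
              have h3 := ht.1.2
              linarith)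
            rw [pow_zero, mul_one] at h1
            exact h1
        _ ≤ ∫ t in Ioi (0:ℝ), T ^ (-10 : ℝ) * (om κ (κ / T / 4) t + om κ (4 * (κ / T)) t) := by
            refine setIntegral_mono_set i3 ?_ hs1.eventuallyLE
            refine (ae_restrict_iff' measurableSet_Ioi).mpr (Eventually.of_forall fun t ht => ?_)
            have ht0 : 0 < t := ht
            have a1 := om_nn κ (δ := κ / T / 4) (t := t) (by positivity) ht0.le
            have a2 := om_nn κ (δ := 4 * (κ / T)) (t := t) (by positivity) ht0.le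
            simp only [Pi.zero_apply]
            positivity
        _ = 2 * T ^ (-10 : ℝ) := by
            rw [integral_const_mul, integral_add i1 i2, om_mass κ (by positivity), om_mass κ (by positivity)]
            ring
        _ ≤ 1 / T := by
            have h1 : T ^ (-10 : ℝ) ≤ T ^ (-2 : ℝ) :=
              Real.rpow_le_rpow_of_exponent_le (by linarith) (by norm_num)
            have h2 : T ^ (-2 : ℝ) = 1 / T ^ 2 := by
              rw [Real.rpow_neg hT0.le, one_div]
              norm_num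
            rw [h2] at h1
            have h3 : 2 * (1 / T ^ 2) ≤ 1 / T := by
              rw [mul_one_div, div_le_div_iff₀ (by positivity) hT0]
              nlinarith
            linarith
    -- the main part
    have hmain : ∫ t in {u : ℝ | yy M u ≤ Real.exp (-K)} ∩ Ioi (T / 8), om κ (κ / T) t ≤
        10400 / K * (1 + I) := by
      have h1 := main_est hT hκT hδ hTe hMd hM1 hMT hK9
      rw [← hI] at h1
      have i4 : IntegrableOn (fun t => 1 / 40 * om κ (κ / T) t)
          ({u : ℝ | yy M u ≤ Real.exp (-K)} ∩ Ioi (T / 8)) := (hi0.mono_set hs2).const_mul _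
      have hnn : 0 ≤ᵐ[volume.restrict ({u : ℝ | yy M u ≤ Real.exp (-K)} ∩ Ioi (T / 8))]
          fun t => 1 / 40 * om κ (κ / T) t := by
        refine (ae_restrict_iff' (hSm.inter measurableSet_Ioi)).mpr (Eventually.of_forall fun t ht => ?_)
        have ht0 : 0 < t := hs2 ht
        have := om_nn κ (t := t) hδ ht0.le
        simp only [Pi.zero_apply]
        positivity
      rw [← ofReal_integral_eq_lintegral_ofReal i4 hnn, ← ENNReal.ofReal_mul (by positivity),
        ENNReal.ofReal_le_ofReal_iff (by positivity), integral_const_mul] at h1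
      rw [div_mul_eq_mul_div, le_div_iff₀ hK0]
      nlinarith
    linarith

end Pool.Agent.TH364.LM_JEN
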